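import Pool.Agent.LibQF86.G1

/-!
[QF86 A1] Linear algebra of `N = Nm u = u - 1` (no design). `fx_eq`, `wx_eq`: `Fx u = ker N`, `Wx u = range N`. `inv_N`: `Inv u X` iff `N X ≤ X`. `kk_one`: `kk u 1 = dim Fx u`; `rank_wx`: rank-nullity. `inf_wx`: `N` maps `ker N ^ 2` onto `ker N ⊓ range N` with the kernel `ker N`;
`inf_wx2`: `N ^ 2` maps `ker N ^ 3` onto `ker N ⊓ range N ^ 2` with the kernel `ker N ^ 2`. `kk_mono`, `kk_conv`: from these and `range N ^ 2 ≤ range N`; `kk_top`: `Unip`. `kk_chain`: `kk u 1 = 1` implies `kk u i = i` for `i ≤ 7`: the differences `kk u (i + 1) - kk u i` are `≤ 1` and the sum of the first seven is `7`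
(`kk u (i + 1) ≤ kk u i + 1` because `N ^ i` maps `ker N ^ (i + 1)` into `ker N`). `kk_pow`: in characteristic `p`, `u ^ p - 1 = (u - 1) ^ p` (`sub_pow_char_of_commute`). `unip_order`: `(u - 1) ^ (p ^ 3) = 0` because `p ^ 3 ≥ 7`.
-/

open Module Polynomial

namespace Pool.Agent.LibQF86

variable {F V : Type} [Field F] [Fintype F] [AddCommGroup V] [Module F V] [Finite V] [FiniteDimensional F V]

theorem fx_eq (u : V ≃ₗ[F] V) : Fx u = LinearMap.ker (Nm u) := rfl

theorem wx_eq (u : V ≃ₗ[F] V) : Wx u = LinearMap.range (Nm u) := rfl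

omit [Fintype F] [Finite V] [FiniteDimensional F V] in
theorem Nm_apply (u : V ≃ₗ[F] V) (v : V) : Nm u v = u v - v := by
  simp [Nm]

theorem inv_N {u : V ≃ₗ[F] V} {X : Submodule F V} : Inv u X ↔ X.map (Nm u) ≤ X := by
  rw [inv_iff]
  constructor
  · rintro h _ ⟨v, hv, rfl⟩
    rw [Nm_apply]
    exact X.sub_mem (h v hv) hv
  · intro h v hv
    have h1 : Nm u v ∈ X := h ⟨v, hv, rfl⟩
    rw [Nm_apply] at h1
    have h2 := X.add_mem h1 hv
    simpa using h2

theorem kk_one (u : V ≃ₗ[F] V) : kk u 1 = finrank F (Fx u) := by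
  rw [kk, pow_one, fx_eq]

theorem rank_wx (u : V ≃ₗ[F] V) : finrank F (Wx u) + kk u 1 = finrank F V := by
  rw [kk_one, fx_eq, wx_eq]
  exact LinearMap.finrank_range_add_finrank_ker _

omit [Fintype F] [Finite V] in
theorem aux_rn (f g : Module.End F V) :
    finrank F (LinearMap.ker f ⊓ LinearMap.range g : Submodule F V) + finrank F (LinearMap.ker g)
      = finrank F (LinearMap.ker (f * g)) := by
  have h := LinearMap.finrank_range_add_finrank_ker (g.domRestrict (LinearMap.ker (f * g)))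
  have h1 : LinearMap.range (g.domRestrict (LinearMap.ker (f * g))) = LinearMap.ker f ⊓ LinearMap.range g := by
    ext x
    constructor
    · rintro ⟨⟨y, hy⟩, rfl⟩
      exact ⟨by simpa using hy, ⟨y, rfl⟩⟩
    · rintro ⟨hx, ⟨y, rfl⟩⟩
      exact ⟨⟨y, by simpa using hx⟩, rfl⟩
  have h2 : finrank F (LinearMap.ker (g.domRestrict (LinearMap.ker (f * g)))) = finrank F (LinearMap.ker g) := by
    have h3 : LinearMap.ker (g.domRestrict (LinearMap.ker (f * g)))
        = (LinearMap.ker g).comap (LinearMap.ker (f * g)).subtype := by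
      ext x
      simp [LinearMap.domRestrict_apply]
    rw [h3]
    refine LinearEquiv.finrank_eq (Submodule.comapSubtypeEquivOfLe ?_)
    intro x hx
    have hx' : g x = 0 := hx
    show f (g x) = 0
    rw [hx', map_zero]
  rw [h1, h2] at h
  exact h

theorem inf_wx (u : V ≃ₗ[F] V) : finrank F (Fx u ⊓ Wx u : Submodule F V) + kk u 1 = kk u 2 := by
  have h := aux_rn (Nm u) (Nm u)
  rw [kk, kk, pow_one, pow_two, fx_eq, wx_eq]
  exact h

theorem inf_wx2 (u : V ≃ₗ[F] V) :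
    finrank F (Fx u ⊓ LinearMap.range (Nm u ^ 2) : Submodule F V) + kk u 2 = kk u 3 := by
  have h := aux_rn (Nm u) (Nm u ^ 2)
  rw [kk, kk, fx_eq, show (3 : ℕ) = 2 + 1 from rfl, pow_succ']
  exact h

theorem kk_mono (u : V ≃ₗ[F] V) {i j : ℕ} (h : i ≤ j) : kk u i ≤ kk u j := by
  refine Submodule.finrank_mono ?_
  intro x hx
  obtain ⟨k, rfl⟩ := Nat.exists_eq_add_of_le h
  rw [add_comm, pow_add]
  have hx' : (Nm u ^ i) x = 0 := hx
  show (Nm u ^ k) ((Nm u ^ i) x) = 0
  rw [hx', map_zero]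

theorem kk_step (u : V ≃ₗ[F] V) (i : ℕ) :
    finrank F (LinearMap.ker (Nm u) ⊓ LinearMap.range (Nm u ^ i) : Submodule F V) + kk u i = kk u (i + 1) := by
  have h := aux_rn (Nm u) (Nm u ^ i)
  rw [kk, kk, pow_succ']
  exact h

theorem kk_conv (u : V ≃ₗ[F] V) (i : ℕ) : kk u (i + 2) + kk u i ≤ 2 * kk u (i + 1) := by
  have h1 := kk_step u i
  have h2 := kk_step u (i + 1)
  have h3 : finrank F (LinearMap.ker (Nm u) ⊓ LinearMap.range (Nm u ^ (i + 1)) : Submodule F V)
      ≤ finrank F (LinearMap.ker (Nm u) ⊓ LinearMap.range (Nm u ^ i) : Submodule F V) := by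
    refine Submodule.finrank_mono (inf_le_inf_left _ ?_)
    rintro _ ⟨y, rfl⟩
    rw [pow_succ]
    exact ⟨Nm u y, rfl⟩
  have h4 : kk u (i + 1 + 1) = kk u (i + 2) := rfl
  omega

theorem kk_le (u : V ≃ₗ[F] V) (i : ℕ) : kk u i ≤ finrank F V := Submodule.finrank_le _

theorem kk_zero (u : V ≃ₗ[F] V) : kk u 0 = 0 := by
  rw [kk, pow_zero]
  have : LinearMap.ker (1 : Module.End F V) = ⊥ := LinearMap.ker_id
  rw [this]
  exact finrank_bot F V

theorem kk_top {u : V ≃ₗ[F] V} (hu : Unip u) {i : ℕ} (h : 7 ≤ i) : kk u i = finrank F V := by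
  obtain ⟨k, rfl⟩ := Nat.exists_eq_add_of_le h
  have h7 : Nm u ^ 7 = 0 := hu
  rw [kk, pow_add, h7, zero_mul, LinearMap.ker_zero, finrank_top]

theorem kk_chain {u : V ≃ₗ[F] V} (hu : Unip u) (h7 : finrank F V = 7) (h : kk u 1 = 1) {i : ℕ} (hi : i ≤ 7) :
    kk u i = i := by
  have h0 := kk_zero u
  have ht := kk_top hu (le_refl 7)
  have c0 := kk_conv u 0
  have c1 := kk_conv u 1
  have c2 := kk_conv u 2
  have c3 := kk_conv u 3
  have c4 := kk_conv u 4
  have c5 := kk_conv u 5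
  simp only [Nat.reduceAdd, Nat.zero_add] at c0 c1 c2 c3 c4 c5
  interval_cases i <;> omega

omit [Fintype F] [Finite V] [FiniteDimensional F V] in
theorem Nm_pow (u : V ≃ₗ[F] V) {p : ℕ} (hp : p.Prime) [CharP F p] : Nm (u ^ p) = Nm u ^ p := by
  haveI : Fact p.Prime := ⟨hp⟩
  have h1 : ((u ^ p : V ≃ₗ[F] V) : V →ₗ[F] V) = (u : V →ₗ[F] V) ^ p :=
    map_pow (LinearEquiv.automorphismGroup.toLinearMapMonoidHom (R := F) (M := V)) u p
  rw [Nm, Nm, h1]
  rcases subsingleton_or_nontrivial V with hV | hV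
  · ext v
    exact Subsingleton.elim _ _
  · haveI : CharP (Module.End F V) p :=
      charP_of_injective_algebraMap (algebraMap F (Module.End F V)).injective p
    have h2 := sub_pow_char_of_commute (R := Module.End F V) p (Commute.one_right (u : Module.End F V))
    rw [one_pow] at h2
    exact h2.symm

theorem kk_pow {u : V ≃ₗ[F] V} {p : ℕ} (hp : p.Prime) [CharP F p] (i : ℕ) : kk (u ^ p) i = kk u (p * i) := by
  rw [kk, kk, Nm_pow u hp, pow_mul]

theorem unip_pow {u : V ≃ₗ[F] V} (hu : Unip u) {p : ℕ} (hp : p.Prime) [CharP F p] : Unip (u ^ p) := by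
  have h7 : Nm u ^ 7 = 0 := hu
  show Nm (u ^ p) ^ 7 = 0
  rw [Nm_pow u hp, ← pow_mul, mul_comm, pow_mul, h7, zero_pow hp.ne_zero]

theorem unip_order {u : V ≃ₗ[F] V} (hu : Unip u) {p : ℕ} (hp : p.Prime) [CharP F p] : u ^ p ^ 3 = 1 := by
  have h7 : Nm u ^ 7 = 0 := hu
  have h1 : u ^ p ^ 3 = ((u ^ p) ^ p) ^ p := by
    rw [← pow_mul, ← pow_mul]
    congr 1
    ring
  have h2 : Nm (u ^ p ^ 3) = 0 := by
    rw [h1, Nm_pow _ hp, Nm_pow _ hp, Nm_pow _ hp, ← pow_mul, ← pow_mul]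
    have h3 : 7 ≤ p * p * p := by
      have := hp.two_le
      nlinarith [Nat.mul_le_mul this this, Nat.mul_le_mul (Nat.mul_le_mul this this) this]
    obtain ⟨k, hk⟩ := Nat.exists_eq_add_of_le h3
    rw [show p * (p * p) = p * p * p by ring, hk, pow_add, h7, zero_mul]
  ext v
  have h3 := congrArg (fun f : Module.End F V => f v) h2
  simp only [Nm_apply, LinearMap.zero_apply] at h3
  simpa using sub_eq_zero.mp h3

theorem eq_one_iff (u : V ≃ₗ[F] V) : u = 1 ↔ kk u 1 = finrank F V := by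
  constructor
  · rintro rfl
    rw [kk, pow_one]
    have : Nm (1 : V ≃ₗ[F] V) = 0 := by
      ext v
      rw [Nm_apply]
      simp
    rw [this, LinearMap.ker_zero, finrank_top]
  · intro h
    rw [kk, pow_one] at h
    have h1 : LinearMap.ker (Nm u) = ⊤ := Submodule.eq_top_of_finrank_eq h
    ext v
    have h2 : v ∈ LinearMap.ker (Nm u) := by rw [h1]; trivial
    have h3 : Nm u v = 0 := h2
    rw [Nm_apply] at h3
    simpa using sub_eq_zero.mp h3

end Pool.Agent.LibQF86
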