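import Pool.Agent.LibQF86.A1

/-!
[QF86 A2] Types of an invariant block `B` (dimension `3`) of a unipotent `u`; `N = Nm u`, `N B ≤ B`. `dim (B ⊓ Fx u) ≥ 1` (`N` is nilpotent on `B ≠ ⊥`). `ty2`: if it is `2` then `N B` has dimension `1` (rank-nullity for the restriction) and `N (N B) = 0` (nilpotent), so `N B ≤ B ⊓ Fx u ⊓ Wx u`.
`ty3`: if it is `1` then `N B` has dimension `2`, `N (N B)` dimension `1` (the kernel of `N` in `N B` is `≤ B ⊓ Fx u`, dimension `1`: it is `≥ 1` by nilpotency), and `N N N B = 0`, so `B ⊓ Fx u = N N B`.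
-/

open Module Polynomial

namespace Pool.Agent.LibQF86

variable {F V : Type} [Field F] [Fintype F] [AddCommGroup V] [Module F V] [Finite V] [FiniteDimensional F V]

private theorem A2_rn (f : Module.End F V) (X : Submodule F V) :
    finrank F (X.map f) + finrank F (X ⊓ LinearMap.ker f : Submodule F V) = finrank F X := by
  have h := LinearMap.finrank_range_add_finrank_ker (f.domRestrict X)
  rw [LinearMap.range_domRestrict, LinearMap.ker_domRestrict] at h
  have h2 : finrank F (Submodule.comap X.subtype (LinearMap.ker f)) = finrank F (X ⊓ LinearMap.ker f : Submodule F V) := by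
    rw [← Submodule.map_comap_subtype]
    exact (Submodule.finrank_map_subtype_eq X _).symm
  rw [h2] at h
  exact h

private theorem A2_pow {f : Module.End F V} {X : Submodule F V} (h : X.map f = X) (n : ℕ) : X.map (f ^ n) = X := by
  induction n with
  | zero => rw [pow_zero, Module.End.one_eq_id, Submodule.map_id]
  | succ n ih =>
    rw [pow_succ, Module.End.mul_eq_comp, Submodule.map_comp, h, ih]

private theorem A2_nil {f : Module.End F V} (hf : f ^ 7 = 0) {X : Submodule F V} (hX : X.map f ≤ X)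
    (h0 : 0 < finrank F X) : 1 ≤ finrank F (X ⊓ LinearMap.ker f : Submodule F V) := by
  by_contra hlt
  have h1 := A2_rn f X
  have h2 : X.map f = X := Submodule.eq_of_le_of_finrank_eq hX (by omega)
  have h3 := A2_pow h2 7
  rw [hf, Submodule.map_zero] at h3
  rw [← h3, finrank_bot] at h0
  omega

theorem ty_pos {u : V ≃ₗ[F] V} (hu : Unip u) {B : Submodule F V} (hB : finrank F B = 3) (hi : Inv u B) :
    1 ≤ finrank F (B ⊓ Fx u : Submodule F V) := by
  rw [fx_eq]
  exact A2_nil hu (inv_N.1 hi) (by omega)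

theorem ty2 {u : V ≃ₗ[F] V} (hu : Unip u) {B : Submodule F V} (hB : finrank F B = 3) (hi : Inv u B)
    (h : finrank F (B ⊓ Fx u : Submodule F V) = 2) :
    finrank F (B.map (Nm u)) = 1 ∧ B.map (Nm u) ≤ B ⊓ Fx u ∧ B.map (Nm u) ≤ Wx u := by
  have hle := inv_N.1 hi
  have hle2 : (B.map (Nm u)).map (Nm u) ≤ B.map (Nm u) := Submodule.map_mono hle
  rw [fx_eq] at h ⊢
  have h1 := A2_rn (Nm u) B
  have h2 : finrank F (B.map (Nm u)) = 1 := by omega
  have h3 := A2_nil hu hle2 (by omega)
  have h4 : (B.map (Nm u) ⊓ LinearMap.ker (Nm u) : Submodule F V) = B.map (Nm u) := by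
    refine Submodule.eq_of_le_of_finrank_le inf_le_left ?_
    omega
  refine ⟨h2, le_inf hle (inf_eq_left.1 h4), ?_⟩
  rw [wx_eq]
  exact LinearMap.map_le_range

theorem ty3 {u : V ≃ₗ[F] V} (hu : Unip u) {B : Submodule F V} (hB : finrank F B = 3) (hi : Inv u B)
    (h : finrank F (B ⊓ Fx u : Submodule F V) = 1) :
    finrank F (B.map (Nm u)) = 2 ∧ B.map (Nm u) ≤ B ∧ (B.map (Nm u)).map (Nm u) = B ⊓ Fx u ∧
      B ⊓ Fx u ≤ LinearMap.range (Nm u ^ 2) := by
  have hle := inv_N.1 hi
  have hle2 : (B.map (Nm u)).map (Nm u) ≤ B.map (Nm u) := Submodule.map_mono hle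
  have hle3 : ((B.map (Nm u)).map (Nm u)).map (Nm u) ≤ (B.map (Nm u)).map (Nm u) := Submodule.map_mono hle2
  rw [fx_eq] at h ⊢
  have h1 := A2_rn (Nm u) B
  have h2 : finrank F (B.map (Nm u)) = 2 := by omega
  have h3 := A2_nil hu hle2 (by omega)
  have h4 : finrank F (B.map (Nm u) ⊓ LinearMap.ker (Nm u) : Submodule F V) ≤ 1 := by
    rw [← h]
    exact Submodule.finrank_mono (inf_le_inf_right _ hle)
  have h5 := A2_rn (Nm u) (B.map (Nm u))
  have h6 : finrank F ((B.map (Nm u)).map (Nm u)) = 1 := by omega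
  have h7 := A2_nil hu hle3 (by omega)
  have h8 : ((B.map (Nm u)).map (Nm u) ⊓ LinearMap.ker (Nm u) : Submodule F V) = (B.map (Nm u)).map (Nm u) := by
    refine Submodule.eq_of_le_of_finrank_le inf_le_left ?_
    omega
  have h9 : (B.map (Nm u)).map (Nm u) = B ⊓ LinearMap.ker (Nm u) := by
    refine Submodule.eq_of_le_of_finrank_eq (le_inf (hle2.trans hle) (inf_eq_left.1 h8)) ?_
    omega
  refine ⟨h2, hle, h9, ?_⟩
  rw [← h9, pow_two, Module.End.mul_eq_comp, ← Submodule.map_comp]
  exact LinearMap.map_le_range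

end Pool.Agent.LibQF86
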