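import Pool.Agent.LibQF86.S1

/-!
[QF86 S2] The local identity. `local_id`: count the pairs `(w, B)` with `w ∈ X`, `w ∉ span {v}`, `B ∈ D`, `v, w ∈ B`. Every `w` is in exactly
one such pair (`pairB`; `q ^ n - q` vectors `w`), and every block `B` through `v` is in `|B ⊓ X| - q` of them
(`card_pow`; `q ^ j - q` if `dim (B ⊓ X) = j`, `j = 1, 2, 3`; `v ∈ B ⊓ X` so `j ≥ 1`). Suggestion: `Finset.sum_card_bipartiteAbove_eq_sum_card_bipartiteBelow`
with `s` = the vectors `w` and `t` = the blocks through `v`, then split the sum over the blocks by `j` (`dim_inf`: `j ≤ 3`).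
`card_through`: `X = ⊤` (`nbv D v ⊤ 1 = nbv D v ⊤ 2 = 0`, because `B ⊓ ⊤ = B`): `(q ^ 3 - q) r = q ^ 7 - q`, cancel.
-/

open Module Polynomial

namespace Pool.Agent.LibQF86

variable {F V : Type} [Field F] [Fintype F] [AddCommGroup V] [Module F V] [Finite V] [FiniteDimensional F V]

private theorem S2_card {v : V} (hv : v ≠ 0) {Y : Submodule F V} (hY : v ∈ Y) :
    (({w : V | w ∈ Y ∧ w ∉ Submodule.span F {v}}.ncard : ℕ) : ℤ) =
      (Fintype.card F : ℤ) ^ finrank F Y - Fintype.card F := by
  have h1 : {w : V | w ∈ Y ∧ w ∉ Submodule.span F {v}} =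
      (Y : Set V) \ (Submodule.span F {v} : Submodule F V) := rfl
  have hsub : ((Submodule.span F {v} : Submodule F V) : Set V) ⊆ (Y : Set V) := by
    intro w hw
    have : Submodule.span F {v} ≤ Y := by
      rw [Submodule.span_le]
      rintro x hx
      rw [Set.mem_singleton_iff.mp hx]
      exact hY
    exact this hw
  have h2 : ((Submodule.span F {v} : Submodule F V) : Set V).ncard = Fintype.card F := by
    have h3 : ((Submodule.span F {v} : Submodule F V) : Set V).ncard =
        Nat.card (Submodule.span F {v} : Submodule F V) := rfl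
    rw [h3, card_pow, finrank_span_singleton hv, pow_one]
  have h4 : (Y : Set V).ncard = Fintype.card F ^ finrank F Y := by
    have h3 : (Y : Set V).ncard = Nat.card Y := rfl
    rw [h3, card_pow]
  have h5 : Fintype.card F ≤ Fintype.card F ^ finrank F Y := by
    have h6 := Set.ncard_le_ncard hsub (Set.toFinite _)
    rw [h2, h4] at h6
    exact h6
  rw [h1, Set.ncard_diff hsub (Set.toFinite _), h2, h4, Nat.cast_sub h5]
  push_cast
  rfl

theorem local_id {D : Set (Submodule F V)} (hD : IsFano D) {v : V} (hv : v ≠ 0) {X : Submodule F V} (hX : v ∈ X) :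
    ((Fintype.card F : ℤ) ^ 2 - Fintype.card F) * nbv D v X 2 + ((Fintype.card F : ℤ) ^ 3 - Fintype.card F) * nbv D v X 3 =
      (Fintype.card F : ℤ) ^ finrank F X - Fintype.card F := by
  classical
  haveI : Fintype V := Fintype.ofFinite V
  haveI : Finite (Submodule F V) :=
    Finite.of_injective (fun X : Submodule F V => (X : Set V)) SetLike.coe_injective
  haveI : Fintype (Submodule F V) := Fintype.ofFinite _
  set q : ℤ := (Fintype.card F : ℤ) with hq
  set s : Finset V := Finset.univ.filter fun w => w ∈ X ∧ w ∉ Submodule.span F {v} with hs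
  set t : Finset (Submodule F V) := Finset.univ.filter fun B => B ∈ D ∧ v ∈ B with ht
  have key := Finset.sum_card_bipartiteAbove_eq_sum_card_bipartiteBelow (s := s) (t := t)
    (fun (w : V) (B : Submodule F V) => w ∈ B)
  have hL : ∑ a ∈ s, (Finset.bipartiteAbove (fun (w : V) (B : Submodule F V) => w ∈ B) t a).card
      = s.card := by
    rw [Finset.card_eq_sum_ones]
    refine Finset.sum_congr rfl fun w hw => ?_
    rw [hs, Finset.mem_filter] at hw
    obtain ⟨B, ⟨hB, hvB, hwB⟩, huni⟩ := pairB hD hv hw.2.2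
    rw [Finset.card_eq_one]
    refine ⟨B, ?_⟩
    ext B'
    simp only [Finset.bipartiteAbove, ht, Finset.mem_filter, Finset.mem_univ, true_and,
      Finset.mem_singleton]
    constructor
    · rintro ⟨⟨hB', hv'⟩, hw'⟩
      exact huni B' ⟨hB', hv', hw'⟩
    · rintro rfl
      exact ⟨⟨hB, hvB⟩, hwB⟩
  have hscard : (s.card : ℤ) = q ^ finrank F X - q := by
    rw [← S2_card hv hX, hs, ← Set.ncard_coe_finset]
    congr 2
    ext w
    simp
  have hR : ∀ B ∈ t, ((Finset.bipartiteBelow (fun (w : V) (B : Submodule F V) => w ∈ B) s B).card : ℤ)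
      = (if finrank F (B ⊓ X : Submodule F V) = 2 then q ^ 2 - q else 0) +
        (if finrank F (B ⊓ X : Submodule F V) = 3 then q ^ 3 - q else 0) := by
    intro B hB
    rw [ht, Finset.mem_filter] at hB
    obtain ⟨-, hBD, hvB⟩ := hB
    have h1 : ((Finset.bipartiteBelow (fun (w : V) (B : Submodule F V) => w ∈ B) s B).card : ℤ)
        = q ^ finrank F (B ⊓ X : Submodule F V) - q := by
      rw [← S2_card hv (Y := B ⊓ X) ⟨hvB, hX⟩, ← Set.ncard_coe_finset]
      congr 2
      ext w
      simp only [Finset.bipartiteBelow, hs, Finset.coe_filter, Finset.mem_filter, Finset.mem_univ,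
        true_and, Set.mem_setOf_eq, Submodule.mem_inf]
      tauto
    rw [h1]
    obtain ⟨-, h3, -⟩ := dim_inf hD (X := X) hBD
    have h0 : 1 ≤ finrank F (B ⊓ X : Submodule F V) := by
      rw [Nat.one_le_iff_ne_zero]
      intro h0
      rw [Submodule.finrank_eq_zero] at h0
      have : v ∈ (B ⊓ X : Submodule F V) := ⟨hvB, hX⟩
      rw [h0, Submodule.mem_bot] at this
      exact hv this
    obtain h | h | h : finrank F (B ⊓ X : Submodule F V) = 1 ∨
        finrank F (B ⊓ X : Submodule F V) = 2 ∨ finrank F (B ⊓ X : Submodule F V) = 3 := by omega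
    · rw [h]; simp
    · rw [h]; simp
    · rw [h]; simp
  have hn : ∀ j : ℕ, ((t.filter fun B => finrank F (B ⊓ X : Submodule F V) = j).card : ℤ) =
      nbv D v X j := by
    intro j
    unfold nbv
    rw [← Set.ncard_coe_finset]
    congr 2
    ext B
    simp only [ht, Finset.coe_filter, Finset.mem_filter, Finset.mem_univ, true_and,
      Set.mem_setOf_eq]
    tauto
  have key2 : (s.card : ℤ) = ∑ B ∈ t,
      ((if finrank F (B ⊓ X : Submodule F V) = 2 then q ^ 2 - q else 0) +
        (if finrank F (B ⊓ X : Submodule F V) = 3 then q ^ 3 - q else 0)) := by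
    rw [← hL, key]
    push_cast
    exact Finset.sum_congr rfl hR
  rw [← hscard, key2, Finset.sum_add_distrib, ← Finset.sum_filter, ← Finset.sum_filter,
    Finset.sum_const, Finset.sum_const, nsmul_eq_mul, nsmul_eq_mul, hn, hn]
  ring

/-- the number of blocks through a point -/
theorem card_through {D : Set (Submodule F V)} (hD : IsFano D) {v : V} (hv : v ≠ 0) :
    {B | B ∈ D ∧ v ∈ B}.ncard = Fintype.card F ^ 4 + Fintype.card F ^ 2 + 1 := by
  have h1 := local_id hD hv (X := ⊤) Submodule.mem_top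
  have h2 : nbv D v (⊤ : Submodule F V) 2 = 0 := by
    unfold nbv
    have : {B | B ∈ D ∧ v ∈ B ∧ finrank F (B ⊓ ⊤ : Submodule F V) = 2} = (∅ : Set (Submodule F V)) := by
      ext B
      simp only [Set.mem_setOf_eq, Set.mem_empty_iff_false, iff_false]
      rintro ⟨hB, -, h⟩
      rw [inf_top_eq, hD.three B hB] at h
      omega
    rw [this, Set.ncard_empty]
  have h3 : nbv D v (⊤ : Submodule F V) 3 = {B | B ∈ D ∧ v ∈ B}.ncard := by
    unfold nbv
    congr 1
    ext B
    simp only [Set.mem_setOf_eq]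
    constructor
    · rintro ⟨hB, hvB, -⟩
      exact ⟨hB, hvB⟩
    · rintro ⟨hB, hvB⟩
      exact ⟨hB, hvB, by rw [inf_top_eq]; exact hD.three B hB⟩
  rw [h2, h3, finrank_top, hD.dim] at h1
  have hq : (2 : ℤ) ≤ (Fintype.card F : ℤ) := by exact_mod_cast (two_le_q (F := F))
  have hne : ((Fintype.card F : ℤ) ^ 3 - Fintype.card F) ≠ 0 := by
    nlinarith [mul_pos (show (0 : ℤ) < (Fintype.card F : ℤ) by linarith)
      (show (0 : ℤ) < (Fintype.card F : ℤ) ^ 2 - 1 by nlinarith)]
  have h4 : ((Fintype.card F : ℤ) ^ 3 - Fintype.card F) * (({B | B ∈ D ∧ v ∈ B}.ncard : ℕ) : ℤ) =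
      ((Fintype.card F : ℤ) ^ 3 - Fintype.card F) *
        ((Fintype.card F : ℤ) ^ 4 + (Fintype.card F : ℤ) ^ 2 + 1) := by
    push_cast at h1
    linear_combination h1
  have h5 := mul_left_cancel₀ hne h4
  exact_mod_cast h5

end Pool.Agent.LibQF86
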