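import Pool.Agent.LibQF86.A2
import Pool.Agent.LibQF86.S2

/-!
[QF86 A3] The local count at a vector `c ≠ 0` of `Fx u ⊓ Wx u`, `q = card F`, `k = kk u 1`. The vectors `x` with `N x = λ c`, `λ ≠ 0`: `(q - 1) q ^ k` (each `λ c` has `q ^ k` preimages under `N`, `c ∈ range N`). For such `x` the line `span {c, x}` is invariant of dimension `2` (`x ∉ ker N`), its block is invariant (`inv_block`).
Conversely an invariant block `B` with `c ∈ B`: if `dim (B ⊓ Fx u) = 3` it contains no such `x`; if it is `2`, `ty2`: `N B = span {c'}`, `B` contains such `x` iff `N B = span {c}`, and then `q ^ 3 - q ^ 2` of them (all of `B` outside `B ⊓ Fx u`; note `N B = span {c} ≤ B` so `c ∈ B` is automatic); if it is `1`, `ty3`: `B ⊓ Fx u = span {c} = N N B`, the `x ∈ B` with `N x ∈ span {c}` are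
`N B` (dimension `2`; the kernel of `N ^ 2` on `B`), so `q ^ 2 - q` of them. Every `x` is in exactly one block with `c` (`pairB`). So `(q - 1) q ^ k = (q ^ 3 - q ^ 2) t2 + (q ^ 2 - q) t3`; cancel `q - 1`.
-/

open Module Polynomial

namespace Pool.Agent.LibQF86

variable {F V : Type} [Field F] [Fintype F] [AddCommGroup V] [Module F V] [Finite V] [FiniteDimensional F V]

omit [Fintype F] [Finite V] in
private theorem A3_dim (N : Module.End F V) (B S : Submodule F V) :
    finrank F (B ⊓ S.comap N : Submodule F V) =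
      finrank F (B.map N ⊓ S : Submodule F V) + finrank F (B ⊓ LinearMap.ker N : Submodule F V) := by
  have h := LinearMap.finrank_range_add_finrank_ker (N.domRestrict (B ⊓ S.comap N))
  have h1 : LinearMap.range (N.domRestrict (B ⊓ S.comap N)) = B.map N ⊓ S := by
    ext x
    constructor
    · rintro ⟨⟨y, hy⟩, rfl⟩
      exact ⟨⟨y, hy.1, rfl⟩, hy.2⟩
    · rintro ⟨⟨y, hy, rfl⟩, hx⟩
      exact ⟨⟨y, hy, hx⟩, rfl⟩
  have h2 : finrank F (LinearMap.ker (N.domRestrict (B ⊓ S.comap N))) =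
      finrank F (B ⊓ LinearMap.ker N : Submodule F V) := by
    have h3 : LinearMap.ker (N.domRestrict (B ⊓ S.comap N)) =
        (B ⊓ LinearMap.ker N).comap (B ⊓ S.comap N).subtype := by
      ext ⟨x, hx⟩
      simp only [LinearMap.mem_ker, LinearMap.domRestrict_apply, Submodule.mem_comap, Submodule.subtype_apply,
        Submodule.mem_inf]
      exact ⟨fun h => ⟨hx.1, h⟩, fun h => h.2⟩
    rw [h3]
    refine LinearEquiv.finrank_eq (Submodule.comapSubtypeEquivOfLe ?_)
    rintro x ⟨hx, hk⟩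
    refine ⟨hx, ?_⟩
    have hk' : N x = 0 := hk
    show N x ∈ S
    rw [hk']
    exact S.zero_mem
  rw [h1, h2] at h
  exact h.symm

private theorem A3_card {P A : Submodule F V} (hAP : A ≤ P) {d : ℕ} (hP : finrank F P = d + 1)
    (hA : finrank F A = d) :
    {x : V | x ∈ P ∧ x ∉ A}.ncard = (Fintype.card F - 1) * Fintype.card F ^ d := by
  have h1 := Set.ncard_diff_add_ncard_of_subset (s := (A : Set V)) (t := (P : Set V)) hAP (Set.toFinite _)
  have h2 : (A : Set V).ncard = Fintype.card F ^ d := by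
    rw [← Nat.card_coe_set_eq, ← hA]
    exact card_pow A
  have h3 : (P : Set V).ncard = Fintype.card F ^ (d + 1) := by
    rw [← Nat.card_coe_set_eq, ← hP]
    exact card_pow P
  have h4 : ((P : Set V) \ (A : Set V)) = {x : V | x ∈ P ∧ x ∉ A} := rfl
  rw [h4, h2, h3, pow_succ] at h1
  rw [Nat.sub_mul, one_mul, mul_comm (Fintype.card F)]
  omega

theorem loc {D : Set (Submodule F V)} (hD : IsFano D) {u : V ≃ₗ[F] V} (hp : Pres D u) (hu : Unip u) {c : V}
    (hc0 : c ≠ 0) (hcF : c ∈ Fx u) (hcW : c ∈ Wx u) :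
    Fintype.card F ^ kk u 1 = Fintype.card F ^ 2 * t2 D u c + Fintype.card F * t3 D u c := by
  classical
  haveI : Fintype V := Fintype.ofFinite V
  haveI : Finite (Submodule F V) := Finite.of_injective (fun X : Submodule F V => (X : Set V)) SetLike.coe_injective
  haveI : Fintype (Submodule F V) := Fintype.ofFinite _
  set q := Fintype.card F with hq
  have hq2 : 2 ≤ q := two_le_q
  set N := Nm u with hN
  have hNc : N c = 0 := hcF
  -- the sets of the two kinds of blocks
  set S2 : Set (Submodule F V) := {B | B ∈ D ∧ Inv u B ∧ finrank F (B ⊓ Fx u : Submodule F V) = 2 ∧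
    B.map (Nm u) = Submodule.span F {c}} with hS2
  set S3 : Set (Submodule F V) := {B | B ∈ D ∧ Inv u B ∧ finrank F (B ⊓ Fx u : Submodule F V) = 1 ∧ c ∈ B} with hS3
  set P : Submodule F V := (Submodule.span F {c}).comap N with hP
  have hkP : Fx u ≤ P := by
    intro x hx
    have hx' : N x = 0 := hx
    show N x ∈ Submodule.span F {c}
    rw [hx']
    exact Submodule.zero_mem _
  have hs1 : finrank F (Submodule.span F {c}) = 1 := finrank_span_singleton hc0
  have hle1 : ∀ M : Submodule F V, c ∈ M → finrank F (M ⊓ Submodule.span F {c} : Submodule F V) = 1 := by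
    intro M hM
    have h1 : M ⊓ Submodule.span F {c} = Submodule.span F {c} :=
      inf_eq_right.mpr ((Submodule.span_singleton_le_iff_mem c M).mpr hM)
    rw [h1, hs1]
  -- the number of the vectors
  have hX : {x : V | x ∈ P ∧ x ∉ Fx u}.ncard = (q - 1) * q ^ kk u 1 := by
    refine A3_card hkP ?_ ?_
    · have h1 := A3_dim N ⊤ (Submodule.span F {c})
      rw [top_inf_eq, top_inf_eq, hle1] at h1
      · rw [h1, kk_one, fx_eq]
        exact Nat.add_comm _ _
      · obtain ⟨y, hy⟩ := hcW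
        exact ⟨y, trivial, hy⟩
    · exact (kk_one u).symm
  have hBX : ∀ B : Submodule F V, c ∈ B.map N → ∀ d, finrank F (B ⊓ Fx u : Submodule F V) = d →
      {x : V | x ∈ B ⊓ P ∧ x ∉ B ⊓ Fx u}.ncard = (q - 1) * q ^ d := by
    intro B hc d hd
    refine A3_card (inf_le_inf_left _ hkP) ?_ hd
    have h1 := A3_dim N B (Submodule.span F {c})
    rw [hle1 _ hc] at h1
    rw [h1]
    have h2 : finrank F (B ⊓ LinearMap.ker N : Submodule F V) = d := hd
    rw [h2]
    exact Nat.add_comm _ _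
  -- facts about the two kinds
  have hc2 : ∀ B ∈ S2, c ∈ B.map N ∧ c ∈ B := by
    rintro B ⟨hB, hi, hd, hm⟩
    have h1 : c ∈ B.map N := by
      rw [hm]
      exact Submodule.mem_span_singleton_self c
    exact ⟨h1, ((ty2 hu (hD.three B hB) hi hd).2.1 h1).1⟩
  have hc3 : ∀ B ∈ S3, c ∈ B.map N ∧ c ∈ B := by
    rintro B ⟨hB, hi, hd, hm⟩
    obtain ⟨h1, h2, h3, h4⟩ := ty3 hu (hD.three B hB) hi hd
    refine ⟨?_, hm⟩
    have h5 : c ∈ (B.map (Nm u)).map (Nm u) := by
      rw [h3]
      exact ⟨hm, hcF⟩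
    obtain ⟨y, hy, hyc⟩ := h5
    exact ⟨y, h2 hy, hyc⟩
  have hx1 : ∀ x : V, x ∈ P → x ∉ Fx u → x ∉ Submodule.span F {c} := by
    intro x hx hxF hxc
    exact hxF ((Submodule.span_singleton_le_iff_mem c (Fx u)).mpr hcF hxc)
  have hex : ∀ x : V, x ∈ P → x ∉ Fx u → ∃ B, (B ∈ S2 ∨ B ∈ S3) ∧ x ∈ B := by
    intro x hx hxF
    obtain ⟨B, ⟨hB, hcB, hxB⟩, -⟩ := pairB hD hc0 (hx1 x hx hxF)
    have hNx : N x ∈ Submodule.span F {c} := hx
    obtain ⟨a, ha⟩ := Submodule.mem_span_singleton.mp hNx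
    have ha0 : a ≠ 0 := by
      rintro rfl
      rw [zero_smul] at ha
      exact hxF ha.symm
    have hT : Inv u (Submodule.span F {c, x}) := by
      rw [inv_N, Submodule.map_span_le]
      rintro m hm
      rcases hm with rfl | hm
      · show N m ∈ _
        rw [hNc]
        exact Submodule.zero_mem _
      · rw [Set.mem_singleton_iff.mp hm]
        show N x ∈ _
        rw [← ha]
        exact Submodule.smul_mem _ _ (Submodule.subset_span (Or.inl rfl))
    have hT2 : 2 ≤ finrank F (Submodule.span F {c, x}) := by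
      have hlt : Submodule.span F {c} < Submodule.span F {c, x} := by
        refine lt_of_le_of_ne (Submodule.span_mono (by simp)) ?_
        intro he
        apply hx1 x hx hxF
        rw [he]
        exact Submodule.subset_span (Or.inr rfl)
      have := Submodule.finrank_lt_finrank_of_lt hlt
      omega
    have hTB : Submodule.span F {c, x} ≤ B := by
      rw [Submodule.span_le]
      rintro m (rfl | hm)
      · exact hcB
      · rw [Set.mem_singleton_iff.mp hm]
        exact hxB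
    have hi : Inv u B := inv_block hD hp hT hT2 hB hTB
    have hpos := ty_pos hu (hD.three B hB) hi
    obtain ⟨-, h3, h3'⟩ := dim_inf hD (X := Fx u) hB
    have hne : finrank F (B ⊓ Fx u : Submodule F V) ≠ 3 := fun h => hxF (h3'.mp h hxB)
    have hcase : finrank F (B ⊓ Fx u : Submodule F V) = 1 ∨ finrank F (B ⊓ Fx u : Submodule F V) = 2 := by omega
    refine ⟨B, ?_, hxB⟩
    rcases hcase with h | h
    · exact Or.inr ⟨hB, hi, h, hcB⟩
    · refine Or.inl ⟨hB, hi, h, ?_⟩
      have hfr := (ty2 hu (hD.three B hB) hi h).1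
      have hcm : c ∈ B.map N := by
        have h5 : N x ∈ B.map N := ⟨x, hxB, rfl⟩
        rw [← ha] at h5
        have h6 := (B.map N).smul_mem a⁻¹ h5
        rwa [smul_smul, inv_mul_cancel₀ ha0, one_smul] at h6
      symm
      refine Submodule.eq_of_le_of_finrank_eq ((Submodule.span_singleton_le_iff_mem c _).mpr hcm) ?_
      rw [hs1, hfr]
  have huq : ∀ x : V, x ∈ P → x ∉ Fx u → ∀ B B', (B ∈ S2 ∨ B ∈ S3) → (B' ∈ S2 ∨ B' ∈ S3) → x ∈ B → x ∈ B' →
      B = B' := by
    intro x hx hxF B B' hB hB' hxB hxB'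
    have h1 : ∀ B : Submodule F V, (B ∈ S2 ∨ B ∈ S3) → B ∈ D ∧ c ∈ B := by
      rintro B (h | h)
      · exact ⟨h.1, (hc2 B h).2⟩
      · exact ⟨h.1, (hc3 B h).2⟩
    exact (pairB hD hc0 (hx1 x hx hxF)).unique ⟨(h1 B hB).1, (h1 B hB).2, hxB⟩ ⟨(h1 B' hB').1, (h1 B' hB').2, hxB'⟩
  have hdisj : Disjoint S2.toFinset S3.toFinset := by
    rw [Finset.disjoint_left]
    intro B h2 h3
    rw [Set.mem_toFinset] at h2 h3
    have e2 := h2.2.2.1
    have e3 := h3.2.2.1
    omega
  -- double counting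
  have key := Finset.sum_card_bipartiteAbove_eq_sum_card_bipartiteBelow
    (s := Finset.univ.filter (fun x : V => x ∈ P ∧ x ∉ Fx u)) (t := S2.toFinset ∪ S3.toFinset)
    (fun (x : V) (B : Submodule F V) => x ∈ B)
  have hl : ∀ x ∈ Finset.univ.filter (fun x : V => x ∈ P ∧ x ∉ Fx u),
      (Finset.bipartiteAbove (fun (x : V) (B : Submodule F V) => x ∈ B) (S2.toFinset ∪ S3.toFinset) x).card = 1 := by
    intro x hx
    rw [Finset.mem_filter] at hx
    obtain ⟨-, hxP, hxF⟩ := hx
    rw [Finset.card_eq_one]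
    obtain ⟨B, hB, hxB⟩ := hex x hxP hxF
    refine ⟨B, ?_⟩
    ext B'
    rw [Finset.mem_bipartiteAbove, Finset.mem_union, Set.mem_toFinset, Set.mem_toFinset, Finset.mem_singleton]
    constructor
    · rintro ⟨h1, h2⟩
      exact huq x hxP hxF B' B h1 hB h2 hxB
    · rintro rfl
      exact ⟨hB, hxB⟩
  have hr : ∀ B : Submodule F V, c ∈ B.map N → ∀ d, finrank F (B ⊓ Fx u : Submodule F V) = d →
      (Finset.bipartiteBelow (fun (x : V) (B : Submodule F V) => x ∈ B)
        (Finset.univ.filter (fun x : V => x ∈ P ∧ x ∉ Fx u)) B).card = (q - 1) * q ^ d := by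
    intro B hc d hd
    rw [← hBX B hc d hd, ← Set.ncard_coe_finset]
    congr 1
    ext x
    simp only [Finset.mem_coe, Finset.mem_bipartiteBelow, Finset.mem_filter, Finset.mem_univ, true_and,
      Set.mem_setOf_eq, Submodule.mem_inf, not_and]
    constructor
    · rintro ⟨⟨h1, h2⟩, h3⟩
      exact ⟨⟨h3, h1⟩, fun _ => h2⟩
    · rintro ⟨⟨h1, h2⟩, h3⟩
      exact ⟨⟨h2, h3 h1⟩, h1⟩
  rw [Finset.sum_congr rfl hl, Finset.sum_const, smul_eq_mul, mul_one, Finset.sum_union hdisj] at key
  have k2 : ∑ B ∈ S2.toFinset, (Finset.bipartiteBelow (fun (x : V) (B : Submodule F V) => x ∈ B)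
        (Finset.univ.filter (fun x : V => x ∈ P ∧ x ∉ Fx u)) B).card = t2 D u c * ((q - 1) * q ^ 2) := by
    rw [Finset.sum_congr rfl (fun B hB => hr B (hc2 B (Set.mem_toFinset.mp hB)).1 2 (Set.mem_toFinset.mp hB).2.2.1),
      Finset.sum_const, smul_eq_mul, t2, Set.ncard_eq_toFinset_card']
  have k3 : ∑ B ∈ S3.toFinset, (Finset.bipartiteBelow (fun (x : V) (B : Submodule F V) => x ∈ B)
        (Finset.univ.filter (fun x : V => x ∈ P ∧ x ∉ Fx u)) B).card = t3 D u c * ((q - 1) * q ^ 1) := by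
    rw [Finset.sum_congr rfl (fun B hB => hr B (hc3 B (Set.mem_toFinset.mp hB)).1 1 (Set.mem_toFinset.mp hB).2.2.1),
      Finset.sum_const, smul_eq_mul, t3, Set.ncard_eq_toFinset_card']
  have hX' : (Finset.univ.filter (fun x : V => x ∈ P ∧ x ∉ Fx u)).card = (q - 1) * q ^ kk u 1 := by
    rw [← hX, ← Set.ncard_coe_finset]
    congr 1
    ext x
    simp
  rw [k2, k3, hX'] at key
  have hq1 : 0 < q - 1 := by omega
  apply Nat.eq_of_mul_eq_mul_left hq1
  rw [key]
  ring

end Pool.Agent.LibQF86
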