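import Pool.Agent.LibQF86.A2
import Pool.Agent.LibQF86.S2

/-!
[QF86 A4] Bounds for `t3`. `t3_zero`: by `ty3` `c ∈ B ⊓ Fx u ≤ range N ^ 2`. `t3_le`: a block `B` counted in `t3 D u c` has `N B` of dimension `2`, `N B ≤ B`, `N N B = B ⊓ Fx u = span {c}`, `N B ≤ Wx u`; so it contains `q ^ 2 - q` vectors `y ∈ N B` outside `span {c}`, all with `y ∈ Wx u` and `N y ∈ span {c}`, `N y ≠ 0`.
Different `B` have different `y` (`span {c, y}` has dimension `2`, `pairB`). The number of the `y ∈ Wx u` with `N y ∈ span {c}`, `N y ≠ 0` is `≤ (q - 1) q ^ (k₂ - k₁)` (`q - 1` values, each with at most `card (Fx u ⊓ Wx u) = q ^ (k₂ - k₁)` preimages in `Wx u`, `inf_wx`). So `(q ^ 2 - q) t3 ≤ (q - 1) q ^ (k₂ - k₁)`.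
-/

open Module Polynomial

namespace Pool.Agent.LibQF86

variable {F V : Type} [Field F] [Fintype F] [AddCommGroup V] [Module F V] [Finite V] [FiniteDimensional F V]

theorem t3_zero {D : Set (Submodule F V)} (hD : IsFano D) {u : V ≃ₗ[F] V} (hu : Unip u) {c : V} (hc0 : c ≠ 0)
    (hc : c ∉ LinearMap.range (Nm u ^ 2)) (hcF : c ∈ Fx u) : t3 D u c = 0 := by
  unfold t3
  rw [Set.ncard_eq_zero (Set.toFinite _), Set.eq_empty_iff_forall_notMem]
  rintro B ⟨hB, hi, h1, hcB⟩
  exact hc ((ty3 hu (hD.three B hB) hi h1).2.2.2 ⟨hcB, hcF⟩)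

omit [Fintype F] [Finite V] in
private theorem A4_rn (f : V →ₗ[F] V) (Z : Submodule F V) :
    finrank F (Z.map f) + finrank F (Z ⊓ LinearMap.ker f : Submodule F V) = finrank F Z := by
  have h := LinearMap.finrank_range_add_finrank_ker (f.domRestrict Z)
  rw [LinearMap.range_domRestrict, LinearMap.ker_domRestrict] at h
  rw [← h, ← Submodule.map_comap_subtype]
  congr 1
  exact (LinearEquiv.finrank_eq (Submodule.equivMapOfInjective Z.subtype (Submodule.injective_subtype Z) _)).symm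

open scoped Classical in
omit [FiniteDimensional F V] in
private theorem A4_card [Fintype V] [FiniteDimensional F V] {X Z : Submodule F V} (h : X ≤ Z) :
    (Finset.univ.filter (fun y : V => y ∈ Z ∧ y ∉ X)).card + Fintype.card F ^ finrank F X =
      Fintype.card F ^ finrank F Z := by
  have hc : ∀ Y : Submodule F V, (Finset.univ.filter (fun y : V => y ∈ Y)).card = Fintype.card F ^ finrank F Y := by
    intro Y
    rw [← card_pow, Nat.card_eq_fintype_card, Fintype.card_subtype]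
  rw [← hc, ← hc]
  have e : Finset.univ.filter (fun y : V => y ∈ Z) =
      Finset.univ.filter (fun y : V => y ∈ Z ∧ y ∉ X) ∪ Finset.univ.filter (fun y : V => y ∈ X) := by
    ext y
    simp only [Finset.mem_filter, Finset.mem_univ, true_and, Finset.mem_union]
    constructor
    · intro hy
      by_cases hx : y ∈ X
      · exact Or.inr hx
      · exact Or.inl ⟨hy, hx⟩
    · rintro (hy | hy)
      · exact hy.1
      · exact h hy
  rw [e, Finset.card_union_of_disjoint]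
  rw [Finset.disjoint_left]
  intro y hy hy'
  exact (Finset.mem_filter.1 hy).2.2 (Finset.mem_filter.1 hy').2

theorem t3_le {D : Set (Submodule F V)} (hD : IsFano D) {u : V ≃ₗ[F] V} (hu : Unip u) {c : V} (hc0 : c ≠ 0)
    (hcF : c ∈ Fx u) : Fintype.card F * t3 D u c ≤ Fintype.card F ^ (kk u 2 - kk u 1) := by
  classical
  have : Fintype V := Fintype.ofFinite V
  obtain ⟨e, he⟩ : ∃ e, e = kk u 2 - kk u 1 := ⟨_, rfl⟩
  have hinf := inf_wx u
  have he' : finrank F (Fx u ⊓ Wx u : Submodule F V) = e := by omega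
  rw [← he]
  obtain ⟨Z, hZ⟩ : ∃ Z : Submodule F V, Z = Wx u ⊓ (Submodule.span F {c}).comap (Nm u) := ⟨_, rfl⟩
  have hZk : Z ⊓ LinearMap.ker (Nm u) = Fx u ⊓ Wx u := by
    rw [hZ, fx_eq]
    ext y
    simp only [Submodule.mem_inf, Submodule.mem_comap, LinearMap.mem_ker]
    constructor
    · rintro ⟨⟨h1, h2⟩, h3⟩
      exact ⟨h3, h1⟩
    · rintro ⟨h1, h2⟩
      exact ⟨⟨h2, by rw [h1]; exact zero_mem _⟩, h1⟩
  have hZd : finrank F Z ≤ e + 1 := by
    have h1 := A4_rn (Nm u) Z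
    rw [hZk, he'] at h1
    have h2 : finrank F (Z.map (Nm u)) ≤ 1 := by
      rw [← finrank_span_singleton (K := F) hc0]
      refine Submodule.finrank_mono ?_
      rw [Submodule.map_le_iff_le_comap, hZ]
      exact inf_le_right
    omega
  have hle : Fx u ⊓ Wx u ≤ Z := by
    rw [← hZk]
    exact inf_le_left
  have hY := A4_card hle
  obtain ⟨Y, hYd⟩ : ∃ Y, Y = Finset.univ.filter (fun y : V => y ∈ Z ∧ y ∉ Fx u ⊓ Wx u) := ⟨_, rfl⟩
  rw [← hYd, he'] at hY
  obtain ⟨S, hS⟩ : ∃ S : Finset (Submodule F V), S = (Set.toFinite {B | B ∈ D ∧ Inv u B ∧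
      finrank F (B ⊓ Fx u : Submodule F V) = 1 ∧ c ∈ B}).toFinset := ⟨_, rfl⟩
  have hSc : t3 D u c = S.card := by
    unfold t3
    rw [Set.ncard_eq_toFinset_card _ (Set.toFinite _), hS]
  have hSm : ∀ B ∈ S, B ∈ D ∧ Inv u B ∧ finrank F (B ⊓ Fx u : Submodule F V) = 1 ∧ c ∈ B := by
    intro B hB
    rw [hS, Set.Finite.mem_toFinset] at hB
    exact hB
  obtain ⟨t, ht⟩ : ∃ t : Submodule F V → Finset V, t = fun B => Finset.univ.filter
      (fun y : V => y ∈ B.map (Nm u) ∧ y ∉ Submodule.span F {c}) := ⟨_, rfl⟩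
  have hsp : ∀ B ∈ S, B ⊓ Fx u = Submodule.span F {c} := by
    intro B hB
    obtain ⟨hBD, hi, h1, hcB⟩ := hSm B hB
    symm
    refine Submodule.eq_of_le_of_finrank_eq ?_ ?_
    · rw [Submodule.span_singleton_le_iff_mem]
      exact ⟨hcB, hcF⟩
    · rw [finrank_span_singleton hc0, h1]
  have htc : ∀ B ∈ S, (t B).card + Fintype.card F = Fintype.card F ^ 2 := by
    intro B hB
    obtain ⟨hBD, hi, h1, hcB⟩ := hSm B hB
    obtain ⟨g1, g2, g3, g4⟩ := ty3 hu (hD.three B hBD) hi h1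
    have h2 : Submodule.span F {c} ≤ B.map (Nm u) := by
      rw [← hsp B hB, ← g3]
      exact Submodule.map_mono g2
    have h3 := A4_card h2
    rw [g1, finrank_span_singleton hc0, pow_one] at h3
    rw [ht]
    exact h3
  have hdis : ∀ B ∈ S, ∀ B' ∈ S, B ≠ B' → Disjoint (t B) (t B') := by
    intro B hB B' hB' hne
    rw [Finset.disjoint_left]
    intro y hy hy'
    apply hne
    rw [ht] at hy hy'
    obtain ⟨y1, y2⟩ := (Finset.mem_filter.1 hy).2
    obtain ⟨y3, -⟩ := (Finset.mem_filter.1 hy').2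
    obtain ⟨hBD, hi, h1, hcB⟩ := hSm B hB
    obtain ⟨hBD', hi', h1', hcB'⟩ := hSm B' hB'
    have g := (ty3 hu (hD.three B hBD) hi h1).2.1
    have g' := (ty3 hu (hD.three B' hBD') hi' h1').2.1
    obtain ⟨B0, -, hu0⟩ := pairB hD hc0 y2
    rw [hu0 B ⟨hBD, hcB, g y1⟩, hu0 B' ⟨hBD', hcB', g' y3⟩]
  have hsub : S.biUnion t ⊆ Y := by
    intro y hy
    obtain ⟨B, hB, hyB⟩ := Finset.mem_biUnion.1 hy
    rw [ht] at hyB
    obtain ⟨y1, y2⟩ := (Finset.mem_filter.1 hyB).2
    obtain ⟨hBD, hi, h1, hcB⟩ := hSm B hB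
    obtain ⟨g1, g2, g3, g4⟩ := ty3 hu (hD.three B hBD) hi h1
    rw [hYd, Finset.mem_filter]
    refine ⟨Finset.mem_univ _, ?_, ?_⟩
    · rw [hZ]
      refine ⟨?_, ?_⟩
      · rw [wx_eq]
        obtain ⟨x, -, hx⟩ := y1
        exact ⟨x, hx⟩
      · change Nm u y ∈ Submodule.span F {c}
        rw [← hsp B hB, ← g3]
        exact Submodule.mem_map_of_mem y1
    · intro hyF
      apply y2
      rw [← hsp B hB]
      exact ⟨g2 y1, hyF.1⟩
  have hcard := Finset.card_le_card hsub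
  rw [Finset.card_biUnion hdis] at hcard
  have hq := two_le_q (F := F)
  obtain ⟨q, hqd⟩ : ∃ q, q = Fintype.card F := ⟨_, rfl⟩
  rw [← hqd] at hq hY htc ⊢
  have h5 : ∑ B ∈ S, (t B).card + S.card * q = S.card * q ^ 2 := by
    have h6 : ∑ B ∈ S, ((t B).card + q) = S.card * q ^ 2 := by
      rw [Finset.sum_congr rfl htc, Finset.sum_const, smul_eq_mul]
    rw [Finset.sum_add_distrib, Finset.sum_const, smul_eq_mul] at h6
    exact h6
  have h7 : q ^ finrank F Z ≤ q ^ (e + 1) := Nat.pow_le_pow_right (by omega) hZd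
  rw [hSc]
  have h8 : S.card * q ^ 2 + q ^ e ≤ q ^ (e + 1) + S.card * q := by omega
  obtain ⟨r, hr⟩ : ∃ r, q = r + 1 := ⟨q - 1, by omega⟩
  have h9 : r * (q * S.card) ≤ r * q ^ e := by
    rw [pow_succ q e] at h8
    have e1 : S.card * q ^ 2 = r * (q * S.card) + S.card * q := by
      rw [hr]; ring
    have e2 : q ^ e * q = r * q ^ e + q ^ e := by
      conv_lhs => rw [show q ^ e * q = q ^ e * (r + 1) by rw [← hr]]
      ring
    omega
  exact Nat.le_of_mul_le_mul_left h9 (by omega)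

end Pool.Agent.LibQF86
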