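import Pool.Agent.LibQF86.A2
import Pool.Agent.LibQF86.S2

/-!
[QF86 A5] The blocks with `dim (B ⊓ Fx u) = 2`. They are invariant (`inv_block` with `T = B ⊓ Fx u`, `inv_N`), and by `ty2` `N B = span {c}` for exactly `q - 1` vectors `c ≠ 0`, all in `Fx u ⊓ Wx u`. So `∑_c t2 D u c = (q - 1) nb D (Fx u) 2`. `t2_le`: an injection of sets. `t2_upper`: `card (Fx u ⊓ Wx u) = q ^ (k₂ - k₁)` (`inf_wx`).
`t2_lower`: the vectors `c` of `Fx u ⊓ Wx u` outside `range N ^ 2`: their number is `q ^ (k₂ - k₁) - q ^ (k₃ - k₂)` (`inf_wx2`; `Fx u ⊓ range N ^ 2 ≤ Fx u ⊓ Wx u`).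
-/

open Module Polynomial

namespace Pool.Agent.LibQF86

variable {F V : Type} [Field F] [Fintype F] [AddCommGroup V] [Module F V] [Finite V] [FiniteDimensional F V]

private theorem A5_inv {D : Set (Submodule F V)} (hD : IsFano D) {u : V ≃ₗ[F] V} (hp : Pres D u)
    {B : Submodule F V} (hB : B ∈ D) (h : finrank F (B ⊓ Fx u : Submodule F V) = 2) : Inv u B := by
  refine inv_block hD hp (T := B ⊓ Fx u) ?_ h.ge hB inf_le_left
  rw [inv_iff]
  intro v hv
  have h1 : v ∈ Fx u := hv.2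
  have h2 : u v = v := by
    unfold Fx at h1
    rw [LinearMap.mem_ker] at h1
    simpa [sub_eq_zero] using h1
  rw [h2]; exact hv

private theorem A5_ncard (X : Submodule F V) : {v : V | v ∈ X}.ncard = Fintype.card F ^ finrank F X := by
  rw [← card_pow X]
  exact (Nat.card_coe_set_eq (X : Set V)).symm

private theorem A5_line {X : Submodule F V} (hX : finrank F X = 1) :
    {c : V | c ≠ 0 ∧ X = Submodule.span F {c}}.ncard = Fintype.card F - 1 := by
  have h1 : {c : V | c ≠ 0 ∧ X = Submodule.span F {c}} = {v : V | v ∈ X} \ {0} := by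
    ext c
    simp only [Set.mem_ofPred_eq, Set.mem_sdiff, Set.mem_singleton_iff]
    constructor
    · rintro ⟨h0, h⟩
      exact ⟨by rw [h]; exact Submodule.mem_span_singleton_self c, h0⟩
    · rintro ⟨h, h0⟩
      refine ⟨h0, ?_⟩
      symm
      apply Submodule.eq_of_le_of_finrank_le
      · rw [Submodule.span_singleton_le_iff_mem]; exact h
      · rw [hX, finrank_span_singleton h0]
  rw [h1, Set.ncard_sdiff_singleton_of_mem (by simp), A5_ncard, hX, pow_one]

theorem t2_sum {D : Set (Submodule F V)} (hD : IsFano D) {u : V ≃ₗ[F] V} (hp : Pres D u) (hu : Unip u) :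
    ∑ c ∈ (Set.toFinite {c : V | c ∈ Fx u ∧ c ∈ Wx u ∧ c ≠ 0}).toFinset, t2 D u c =
      (Fintype.card F - 1) * nb D (Fx u) 2 := by
  classical
  set C := (Set.toFinite {c : V | c ∈ Fx u ∧ c ∈ Wx u ∧ c ≠ 0}).toFinset with hC
  set SB := (Set.toFinite {B : Submodule F V | B ∈ D ∧ finrank F (B ⊓ Fx u : Submodule F V) = 2}).toFinset with hSB
  set r : V → Submodule F V → Prop := fun c B => B.map (Nm u) = Submodule.span F {c} with hr
  have h1 : ∀ c, t2 D u c = (SB.bipartiteAbove r c).card := by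
    intro c
    unfold t2
    rw [← Set.ncard_coe_finset]
    congr 1
    ext B
    simp only [Set.mem_ofPred_eq, Finset.coe_bipartiteAbove, hSB, hr, Set.Finite.mem_toFinset]
    constructor
    · rintro ⟨a, -, b, c⟩; exact ⟨⟨a, b⟩, c⟩
    · rintro ⟨⟨a, b⟩, c⟩; exact ⟨a, A5_inv hD hp a b, b, c⟩
  have h2 : ∀ B ∈ SB, (C.bipartiteBelow r B).card = Fintype.card F - 1 := by
    intro B hB
    rw [hSB, Set.Finite.mem_toFinset] at hB
    obtain ⟨hB1, hB2⟩ := hB
    obtain ⟨t1, t2', t3'⟩ := ty2 hu (hD.three B hB1) (A5_inv hD hp hB1 hB2) hB2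
    rw [← A5_line t1, ← Set.ncard_coe_finset]
    congr 1
    ext c
    simp only [Finset.coe_bipartiteBelow, hC, hr, Set.Finite.mem_toFinset, Set.mem_ofPred_eq]
    constructor
    · rintro ⟨⟨-, -, a⟩, b⟩; exact ⟨a, b⟩
    · rintro ⟨a, b⟩
      have hc : c ∈ B.map (Nm u) := by rw [b]; exact Submodule.mem_span_singleton_self c
      exact ⟨⟨(t2' hc).2, t3' hc, a⟩, b⟩
  have h3 : nb D (Fx u) 2 = SB.card := by
    unfold nb
    rw [hSB, ← Set.ncard_eq_toFinset_card]
  rw [Finset.sum_congr rfl (fun c _ => h1 c),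
    Finset.sum_card_bipartiteAbove_eq_sum_card_bipartiteBelow, Finset.sum_congr rfl h2,
    Finset.sum_const, h3, smul_eq_mul, mul_comm]

theorem t2_le {D : Set (Submodule F V)} (u : V ≃ₗ[F] V) (c : V) : t2 D u c ≤ nb D (Fx u) 2 := by
  unfold t2 nb
  apply Set.ncard_le_ncard _ (Set.toFinite _)
  rintro B ⟨a, -, b, -⟩
  exact ⟨a, b⟩

private theorem A5_finrank (u : V ≃ₗ[F] V) :
    finrank F (Fx u ⊓ Wx u : Submodule F V) = kk u 2 - kk u 1 := by
  have := inf_wx u
  omega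

theorem t2_upper {D : Set (Submodule F V)} (hD : IsFano D) {u : V ≃ₗ[F] V} (hp : Pres D u) (hu : Unip u) (m : ℕ)
    (hm : ∀ c, c ∈ Fx u → c ∈ Wx u → c ≠ 0 → t2 D u c ≤ m) :
    (Fintype.card F - 1) * nb D (Fx u) 2 ≤ (Fintype.card F ^ (kk u 2 - kk u 1) - 1) * m := by
  classical
  rw [← t2_sum hD hp hu]
  have h1 : (Set.toFinite {c : V | c ∈ Fx u ∧ c ∈ Wx u ∧ c ≠ 0}).toFinset.card =
      Fintype.card F ^ (kk u 2 - kk u 1) - 1 := by
    rw [← Set.ncard_eq_toFinset_card, ← A5_finrank u, ← A5_ncard,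
      ← Set.ncard_sdiff_singleton_of_mem (a := (0 : V)) (by simp)]
    congr 1
    ext c
    simp only [Set.mem_ofPred_eq, Set.mem_sdiff, Set.mem_singleton_iff, Submodule.mem_inf]
    tauto
  rw [← h1, ← smul_eq_mul]
  apply Finset.sum_le_card_nsmul
  intro c hc
  rw [Set.Finite.mem_toFinset] at hc
  exact hm c hc.1 hc.2.1 hc.2.2

theorem t2_lower {D : Set (Submodule F V)} (hD : IsFano D) {u : V ≃ₗ[F] V} (hp : Pres D u) (hu : Unip u) (m : ℕ)
    (hm : ∀ c, c ∈ Fx u → c ∈ Wx u → c ∉ LinearMap.range (Nm u ^ 2) → m ≤ t2 D u c) :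
    (Fintype.card F ^ (kk u 2 - kk u 1) - Fintype.card F ^ (kk u 3 - kk u 2)) * m ≤
      (Fintype.card F - 1) * nb D (Fx u) 2 := by
  classical
  rw [← t2_sum hD hp hu]
  set C' := (Set.toFinite {c : V | c ∈ Fx u ∧ c ∈ Wx u ∧ c ∉ LinearMap.range (Nm u ^ 2)}).toFinset with hC'
  have hle : Fx u ⊓ LinearMap.range (Nm u ^ 2) ≤ Fx u ⊓ Wx u := by
    refine inf_le_inf_left _ ?_
    rw [wx_eq]
    rintro x ⟨y, rfl⟩
    exact ⟨Nm u y, by rw [pow_two]; rfl⟩
  have hfr : finrank F (Fx u ⊓ LinearMap.range (Nm u ^ 2) : Submodule F V) = kk u 3 - kk u 2 := by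
    have := inf_wx2 u
    omega
  have h1 : C'.card = Fintype.card F ^ (kk u 2 - kk u 1) - Fintype.card F ^ (kk u 3 - kk u 2) := by
    rw [hC', ← Set.ncard_eq_toFinset_card, ← A5_finrank u, ← hfr, ← A5_ncard, ← A5_ncard,
      ← Set.ncard_sdiff (s := {v : V | v ∈ Fx u ⊓ LinearMap.range (Nm u ^ 2)})
        (t := {v : V | v ∈ Fx u ⊓ Wx u}) (fun x hx => hle hx)]
    congr 1
    ext c
    simp only [Set.mem_ofPred_eq, Set.mem_sdiff, Submodule.mem_inf]
    tauto
  rw [← h1]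
  calc C'.card * m ≤ ∑ c ∈ C', t2 D u c := by
        rw [← smul_eq_mul]
        apply Finset.card_nsmul_le_sum
        intro c hc
        rw [hC', Set.Finite.mem_toFinset] at hc
        exact hm c hc.1 hc.2.1 hc.2.2
    _ ≤ _ := by
        apply Finset.sum_le_sum_of_subset
        intro c hc
        rw [hC', Set.Finite.mem_toFinset] at hc
        rw [Set.Finite.mem_toFinset]
        refine ⟨hc.1, hc.2.1, ?_⟩
        rintro rfl
        exact hc.2.2 (Submodule.zero_mem _)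

end Pool.Agent.LibQF86
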