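import Pool.Agent.LibQF86.S3

/-!
[QF86 S4] Numbers of blocks in a subspace. Let `q = card F`. Dimension `5`: `nb 0 = 0` (`dim_inf`: `5 ≤ j + 4`), so
`nb 1 + nb 2 + nb 3 = b` (`card_blocks`), and `id1`, `id2` determine `nb 3`. Dimension `6`: `nb 0 = nb 1 = 0` (`6 ≤ j + 4`). Dimension `≤ 4`: two
blocks in a 4-dimensional space meet in dimension `≥ 2` (`Submodule.finrank_sup_add_finrank_inf_eq`), `inf_le`. Then `nb 2` from `id2`
(cancel `(q ^ 2 - 1) (q ^ 2 - q)`); dimension `2`: `uniq`, or `id2` with `nb 3 = 0`.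
-/

open Module Polynomial

namespace Pool.Agent.LibQF86

variable {F V : Type} [Field F] [Fintype F] [AddCommGroup V] [Module F V] [Finite V] [FiniteDimensional F V]

private theorem S4_q (F : Type) [Field F] [Fintype F] : (2 : ℤ) ≤ Fintype.card F := by
  exact_mod_cast (two_le_q (F := F))

private theorem S4_ne2 {q : ℤ} (h : 2 ≤ q) : q ^ 2 - q ≠ 0 := by
  have : q ^ 2 - q = q * (q - 1) := by ring
  rw [this]
  exact mul_ne_zero (by omega) (by omega)

private theorem S4_ne21 {q : ℤ} (h : 2 ≤ q) : q ^ 2 - 1 ≠ 0 := by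
  have : q ^ 2 - 1 = (q + 1) * (q - 1) := by ring
  rw [this]
  exact mul_ne_zero (by omega) (by omega)

private theorem S4_ne32 {q : ℤ} (h : 2 ≤ q) : q ^ 3 - q ^ 2 ≠ 0 := by
  have : q ^ 3 - q ^ 2 = q ^ 2 * (q - 1) := by ring
  rw [this]
  exact mul_ne_zero (pow_ne_zero _ (by omega)) (by omega)

private theorem S4_ne31 {q : ℤ} (h : 2 ≤ q) : q ^ 3 - q ≠ 0 := by
  have : q ^ 3 - q = q * ((q + 1) * (q - 1)) := by ring
  rw [this]
  exact mul_ne_zero (by omega) (mul_ne_zero (by omega) (by omega))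

private theorem S4_zero {D : Set (Submodule F V)} (hD : IsFano D) {X : Submodule F V} {j : ℕ}
    (h : j + 4 < finrank F X) : nb D X j = 0 := by
  unfold nb
  have : {B | B ∈ D ∧ finrank F (B ⊓ X : Submodule F V) = j} = ∅ := by
    ext B
    simp only [Set.mem_setOf_eq, Set.mem_empty_iff_false, iff_false, not_and]
    intro hB hj
    have := (dim_inf hD (X := X) hB).1
    omega
  rw [this, Set.ncard_empty]

theorem dim5 {D : Set (Submodule F V)} (hD : IsFano D) {X : Submodule F V} (hX : finrank F X = 5) :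
    nb D X 3 = Fintype.card F ^ 2 + 1 ∧
      nb D X 2 = (Fintype.card F ^ 2 + 1) * (Fintype.card F ^ 4 + Fintype.card F ^ 3) := by
  have hq := S4_q F
  have h0 : nb D X 0 = 0 := S4_zero hD (by omega)
  have e0 := id0 hD X
  have e1 := id1 hD X
  have e2 := id2 hD X
  have eb := card_blocks hD
  rw [h0, zero_add] at e0
  have e0' : (nb D X 1 : ℤ) + nb D X 2 + nb D X 3 = (D.ncard : ℤ) := by exact_mod_cast e0
  rw [eb] at e0'
  rw [hX] at e1 e2
  have h3 : ((nb D X 3 : ℕ) : ℤ) = (Fintype.card F : ℤ) ^ 2 + 1 := by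
    have h : (((Fintype.card F : ℤ) ^ 3 - Fintype.card F) * ((Fintype.card F : ℤ) ^ 3 - (Fintype.card F : ℤ) ^ 2)) *
        ((nb D X 3 : ℕ) : ℤ) = (((Fintype.card F : ℤ) ^ 3 - Fintype.card F) *
          ((Fintype.card F : ℤ) ^ 3 - (Fintype.card F : ℤ) ^ 2)) * ((Fintype.card F : ℤ) ^ 2 + 1) := by
      linear_combination e2 - ((Fintype.card F : ℤ) ^ 2 - 1) * e1 +
        ((Fintype.card F : ℤ) ^ 2 - 1) * ((Fintype.card F : ℤ) - 1) * e0'
    exact mul_left_cancel₀ (mul_ne_zero (S4_ne31 hq) (S4_ne32 hq)) h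
  have h2 : ((nb D X 2 : ℕ) : ℤ) = ((Fintype.card F : ℤ) ^ 2 + 1) *
      ((Fintype.card F : ℤ) ^ 4 + (Fintype.card F : ℤ) ^ 3) := by
    have h : ((Fintype.card F : ℤ) ^ 2 - Fintype.card F) * ((nb D X 2 : ℕ) : ℤ) =
        ((Fintype.card F : ℤ) ^ 2 - Fintype.card F) * (((Fintype.card F : ℤ) ^ 2 + 1) *
          ((Fintype.card F : ℤ) ^ 4 + (Fintype.card F : ℤ) ^ 3)) := by
      linear_combination e1 - ((Fintype.card F : ℤ) - 1) * e0' -
        ((Fintype.card F : ℤ) ^ 3 - Fintype.card F) * h3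
    exact mul_left_cancel₀ (S4_ne2 hq) h
  exact ⟨by exact_mod_cast h3, by exact_mod_cast h2⟩

theorem dim6 {D : Set (Submodule F V)} (hD : IsFano D) {X : Submodule F V} (hX : finrank F X = 6) :
    nb D X 3 = (Fintype.card F ^ 3 + 1) * (Fintype.card F ^ 2 + 1) ∧
      nb D X 2 = (Fintype.card F ^ 4 + Fintype.card F ^ 2 + 1) * Fintype.card F ^ 4 := by
  have hq := S4_q F
  have h0 : nb D X 0 = 0 := S4_zero hD (by omega)
  have h1 : nb D X 1 = 0 := S4_zero hD (by omega)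
  have e0 := id0 hD X
  have e1 := id1 hD X
  have eb := card_blocks hD
  rw [h0, h1, zero_add, zero_add] at e0
  have e0' : (nb D X 2 : ℤ) + nb D X 3 = (D.ncard : ℤ) := by exact_mod_cast e0
  rw [eb] at e0'
  rw [hX, h1] at e1
  push_cast at e1
  have h3 : ((nb D X 3 : ℕ) : ℤ) = ((Fintype.card F : ℤ) ^ 3 + 1) * ((Fintype.card F : ℤ) ^ 2 + 1) := by
    have h : ((Fintype.card F : ℤ) ^ 3 - (Fintype.card F : ℤ) ^ 2) * ((nb D X 3 : ℕ) : ℤ) =
        ((Fintype.card F : ℤ) ^ 3 - (Fintype.card F : ℤ) ^ 2) *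
          (((Fintype.card F : ℤ) ^ 3 + 1) * ((Fintype.card F : ℤ) ^ 2 + 1)) := by
      linear_combination e1 - ((Fintype.card F : ℤ) ^ 2 - 1) * e0'
    exact mul_left_cancel₀ (S4_ne32 hq) h
  have h2 : ((nb D X 2 : ℕ) : ℤ) = ((Fintype.card F : ℤ) ^ 4 + (Fintype.card F : ℤ) ^ 2 + 1) *
      (Fintype.card F : ℤ) ^ 4 := by
    linear_combination e0' - h3
  exact ⟨by exact_mod_cast h3, by exact_mod_cast h2⟩

theorem dim4 {D : Set (Submodule F V)} (hD : IsFano D) {X : Submodule F V} (hX : finrank F X = 4) :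
    nb D X 3 ≤ 1 ∧ nb D X 2 + (Fintype.card F ^ 2 + Fintype.card F + 1) * nb D X 3 =
      (Fintype.card F ^ 2 + 1) * (Fintype.card F ^ 2 + Fintype.card F + 1) := by
  have hq := S4_q F
  constructor
  · unfold nb
    refine Set.ncard_le_one_iff_subsingleton.2 ?_
    rintro B ⟨hB, hBX⟩ B' ⟨hB', hBX'⟩
    by_contra hne
    have h1 := inf_le hD hB hB' hne
    have hBle := (dim_inf hD (X := X) hB).2.2.1 hBX
    have hBle' := (dim_inf hD (X := X) hB').2.2.1 hBX'
    have h2 := Submodule.finrank_sup_add_finrank_inf_eq B B'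
    have h3 : finrank F (B ⊔ B' : Submodule F V) ≤ 4 := by
      rw [← hX]
      exact Submodule.finrank_mono (sup_le hBle hBle')
    have h4 := hD.three B hB
    have h5 := hD.three B' hB'
    omega
  · have e2 := id2 hD X
    rw [hX] at e2
    have h : ((nb D X 2 : ℕ) : ℤ) + ((Fintype.card F : ℤ) ^ 2 + (Fintype.card F : ℤ) + 1) * ((nb D X 3 : ℕ) : ℤ) =
        ((Fintype.card F : ℤ) ^ 2 + 1) * ((Fintype.card F : ℤ) ^ 2 + (Fintype.card F : ℤ) + 1) := by
      have h' : (((Fintype.card F : ℤ) ^ 2 - 1) * ((Fintype.card F : ℤ) ^ 2 - Fintype.card F)) *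
          (((nb D X 2 : ℕ) : ℤ) + ((Fintype.card F : ℤ) ^ 2 + (Fintype.card F : ℤ) + 1) * ((nb D X 3 : ℕ) : ℤ)) =
          (((Fintype.card F : ℤ) ^ 2 - 1) * ((Fintype.card F : ℤ) ^ 2 - Fintype.card F)) *
          (((Fintype.card F : ℤ) ^ 2 + 1) * ((Fintype.card F : ℤ) ^ 2 + (Fintype.card F : ℤ) + 1)) := by
        linear_combination e2
      exact mul_left_cancel₀ (mul_ne_zero (S4_ne21 hq) (S4_ne2 hq)) h'
    exact_mod_cast h

theorem dim3 {D : Set (Submodule F V)} (hD : IsFano D) {X : Submodule F V} (hX : finrank F X = 3) :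
    (X ∈ D ∧ nb D X 3 = 1 ∧ nb D X 2 = 0) ∨
      (X ∉ D ∧ nb D X 3 = 0 ∧ nb D X 2 = Fintype.card F ^ 2 + Fintype.card F + 1) := by
  have hq := S4_q F
  have e2 := id2 hD X
  rw [hX] at e2
  have key : ∀ B ∈ D, finrank F (B ⊓ X : Submodule F V) = 3 → B = X := by
    intro B hB h
    have hle := (dim_inf hD (X := X) hB).2.2.1 h
    exact Submodule.eq_of_le_of_finrank_eq hle (by rw [hD.three B hB, hX])
  by_cases hXD : X ∈ D
  · left
    have h3 : nb D X 3 = 1 := by
      unfold nb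
      rw [Set.ncard_eq_one]
      refine ⟨X, ?_⟩
      ext B
      simp only [Set.mem_setOf_eq, Set.mem_singleton_iff]
      constructor
      · rintro ⟨hB, h⟩
        exact key B hB h
      · rintro rfl
        exact ⟨hXD, by rw [inf_idem, hX]⟩
    refine ⟨hXD, h3, ?_⟩
    rw [h3] at e2
    push_cast at e2
    have h : (((Fintype.card F : ℤ) ^ 2 - 1) * ((Fintype.card F : ℤ) ^ 2 - Fintype.card F)) *
        ((nb D X 2 : ℕ) : ℤ) = 0 := by
      linear_combination e2
    have h' := (mul_eq_zero.1 h).resolve_left (mul_ne_zero (S4_ne21 hq) (S4_ne2 hq))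
    exact_mod_cast h'
  · right
    have h3 : nb D X 3 = 0 := by
      unfold nb
      have : {B | B ∈ D ∧ finrank F (B ⊓ X : Submodule F V) = 3} = ∅ := by
        ext B
        simp only [Set.mem_setOf_eq, Set.mem_empty_iff_false, iff_false, not_and]
        intro hB h
        exact hXD (key B hB h ▸ hB)
      rw [this, Set.ncard_empty]
    refine ⟨hXD, h3, ?_⟩
    rw [h3] at e2
    push_cast at e2
    have h : ((nb D X 2 : ℕ) : ℤ) = (Fintype.card F : ℤ) ^ 2 + (Fintype.card F : ℤ) + 1 := by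
      have h' : (((Fintype.card F : ℤ) ^ 2 - 1) * ((Fintype.card F : ℤ) ^ 2 - Fintype.card F)) *
          ((nb D X 2 : ℕ) : ℤ) = (((Fintype.card F : ℤ) ^ 2 - 1) * ((Fintype.card F : ℤ) ^ 2 - Fintype.card F)) *
          ((Fintype.card F : ℤ) ^ 2 + (Fintype.card F : ℤ) + 1) := by
        linear_combination e2
      exact mul_left_cancel₀ (mul_ne_zero (S4_ne21 hq) (S4_ne2 hq)) h'
    exact_mod_cast h

theorem dim2 {D : Set (Submodule F V)} (hD : IsFano D) {X : Submodule F V} (hX : finrank F X = 2) :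
    nb D X 3 = 0 ∧ nb D X 2 = 1 := by
  have hq := S4_q F
  have e2 := id2 hD X
  rw [hX] at e2
  have h3 : nb D X 3 = 0 := by
    unfold nb
    have : {B | B ∈ D ∧ finrank F (B ⊓ X : Submodule F V) = 3} = ∅ := by
      ext B
      simp only [Set.mem_setOf_eq, Set.mem_empty_iff_false, iff_false, not_and]
      intro hB h
      have h1 : finrank F (B ⊓ X : Submodule F V) ≤ finrank F X := Submodule.finrank_mono inf_le_right
      omega
    rw [this, Set.ncard_empty]
  refine ⟨h3, ?_⟩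
  rw [h3] at e2
  push_cast at e2
  have h : ((nb D X 2 : ℕ) : ℤ) = 1 := by
    have h' : (((Fintype.card F : ℤ) ^ 2 - 1) * ((Fintype.card F : ℤ) ^ 2 - Fintype.card F)) *
        ((nb D X 2 : ℕ) : ℤ) = (((Fintype.card F : ℤ) ^ 2 - 1) * ((Fintype.card F : ℤ) ^ 2 - Fintype.card F)) * 1 := by
      linear_combination e2
    exact mul_left_cancel₀ (mul_ne_zero (S4_ne21 hq) (S4_ne2 hq)) h'
  exact_mod_cast h

end Pool.Agent.LibQF86
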