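import Pool.Agent.LibQF86.A3
import Pool.Agent.LibQF86.A4
import Pool.Agent.LibQF86.A5
import Pool.Agent.LibQF86.S4

/-!
[QF86 A6] `k₁ = dim Fx u ≥ 3`, `u ≠ 1`, `q = card F`. `t2 D u c ≤ q ^ (k₁ - 2)` (`loc`), so `t2_upper`: `(q - 1) nb 2 ≤ (q ^ (k₂ - k₁) - 1) q ^ (k₁ - 2)`. `k₂ ≤ 7`, so `k₂ - k₁ ≤ 7 - k₁`; `k₂ > k₁` (`kk_conv`, `kk_top`: otherwise `k₁ = 7`, `eq_one_iff`).
`k₁ = 6`: `(q - 1) (q ^ 4 + q ^ 2 + 1) q ^ 4 ≤ (q - 1) q ^ 4` (`dim6`), false. `k₁ = 5`: `(q - 1) (q ^ 2 + 1) (q ^ 4 + q ^ 3) ≤ (q ^ 2 - 1) q ^ 3` (`dim5`), false. `k₁ = 4`: `nb 2 ≥ q ^ 2 (q ^ 2 + q + 1)` (`dim4`), so `q ^ 3 - 1 ≤ q ^ (k₂ - 4) - 1`, `k₂ = 7`.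
`k₁ = 3`: `dim3`: `nb 2 ∈ {0, q ^ 2 + q + 1}`. If `k₂ - k₁ ≤ 2`: `(q - 1) nb 2 ≤ (q ^ 2 - 1) q < (q - 1) (q ^ 2 + q + 1)`, so `nb 2 = 0`; but for `c ≠ 0` in `Fx u ⊓ Wx u` (`inf_wx`): `q t3 ≤ q ^ 2 < q ^ 3` (`t3_le`), so `t2 > 0` by `loc`, contradiction to `t2_le`.
If `k₂ - k₁ ≥ 3`: `k₂ = 6` (`kk_conv` with `kk_zero`: `k₂ ≤ 6`), `k₃ = 7`, for `c ∉ range N ^ 2`: `t3 = 0`, `t2 = q` (`loc`), `t2_lower`: `(q ^ 3 - q) q ≤ (q - 1) nb 2 ≤ q ^ 3 - 1`, false.
-/

open Module Polynomial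

namespace Pool.Agent.LibQF86

variable {F V : Type} [Field F] [Fintype F] [AddCommGroup V] [Module F V] [Finite V] [FiniteDimensional F V]

private theorem A6_pow {q a b : ℕ} (hq : 2 ≤ q) (h : a ≤ b) : q ^ a ≤ q ^ b :=
  Nat.pow_le_pow_right (by omega) h

theorem big {D : Set (Submodule F V)} (hD : IsFano D) {u : V ≃ₗ[F] V} (hp : Pres D u) (hu : Unip u) (h1 : u ≠ 1)
    (h3 : 3 ≤ kk u 1) : kk u 1 = 4 ∧ kk u 2 = 7 := by
  have hq : 2 ≤ Fintype.card F := two_le_q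
  have h7 : finrank F V = 7 := hD.dim
  have hne : kk u 1 ≠ 7 := fun h => h1 ((eq_one_iff u).2 (by rw [h, h7]))
  have l1 : kk u 1 ≤ 7 := by have := kk_le u 1; omega
  have l2 : kk u 2 ≤ 7 := by have := kk_le u 2; omega
  have l3 : kk u 3 ≤ 7 := by have := kk_le u 3; omega
  have t7 : kk u 7 = 7 := by rw [kk_top hu le_rfl, h7]
  have z0 := kk_zero u
  have c0 := kk_conv u 0
  have c1 := kk_conv u 1
  have c2 := kk_conv u 2
  have c3 := kk_conv u 3
  have c4 := kk_conv u 4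
  have c5 := kk_conv u 5
  norm_num at c0 c1 c2 c3 c4 c5
  have hk2 : kk u 1 < kk u 2 := by
    have := kk_mono u (show 1 ≤ 2 by norm_num)
    by_contra hc
    omega
  have hFx : finrank F (Fx u) = kk u 1 := (kk_one u).symm
  have hloc : ∀ c, c ∈ Fx u → c ∈ Wx u → c ≠ 0 →
      Fintype.card F ^ kk u 1 = Fintype.card F ^ 2 * t2 D u c + Fintype.card F * t3 D u c :=
    fun c hcF hcW hc0 => loc hD hp hu hc0 hcF hcW
  have hup := t2_upper hD hp hu (Fintype.card F ^ (kk u 1 - 2)) (by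
    intro c hcF hcW hc0
    have h := hloc c hcF hcW hc0
    have h2 : Fintype.card F ^ kk u 1 = Fintype.card F ^ 2 * Fintype.card F ^ (kk u 1 - 2) := by
      rw [← pow_add]
      congr 1
      omega
    have h4 : Fintype.card F ^ 2 * t2 D u c ≤ Fintype.card F ^ 2 * Fintype.card F ^ (kk u 1 - 2) := by
      rw [← h2, h]
      exact Nat.le_add_right _ _
    exact Nat.le_of_mul_le_mul_left h4 (by positivity))
  obtain ⟨r, hr⟩ : ∃ r, Fintype.card F = r + 1 := ⟨Fintype.card F - 1, by omega⟩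
  have hr1 : 1 ≤ r := by omega
  have hq1 : Fintype.card F - 1 = r := by omega
  rw [hq1] at hup
  generalize hQ : Fintype.card F = q at *
  have hcases : kk u 1 = 6 ∨ kk u 1 = 5 ∨ kk u 1 = 4 ∨ kk u 1 = 3 := by omega
  rcases hcases with h | h | h | h
  · -- dimension 6
    exfalso
    have hnb := (dim6 hD (hFx.trans h)).2
    rw [hQ] at hnb
    have h22 : kk u 2 = 7 := by omega
    rw [hnb, h, h22] at hup
    norm_num at hup
    have e1 : q - 1 = r := by omega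
    rw [e1] at hup
    have hr4 : 0 < r * q ^ 4 := by positivity
    have e2 : r * ((q ^ 4 + q ^ 2 + 1) * q ^ 4) = r * q ^ 4 * (q ^ 4 + q ^ 2) + r * q ^ 4 := by ring
    have e3 : 0 < r * q ^ 4 * (q ^ 4 + q ^ 2) := by positivity
    omega
  · -- dimension 5
    exfalso
    have hnb := (dim5 hD (hFx.trans h)).2
    rw [hQ] at hnb
    rw [hnb, h] at hup
    have e1 : q ^ (kk u 2 - 5) - 1 ≤ r * (q + 1) := by
      have e2 : q ^ (kk u 2 - 5) ≤ q ^ 2 := A6_pow hq (by omega)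
      have e3 : q ^ 2 = r * (q + 1) + 1 := by rw [hr]; ring
      omega
    have e4 := hup.trans (Nat.mul_le_mul_right _ e1)
    norm_num at e4
    have e5 : r * ((q ^ 2 + 1) * (q ^ 4 + q ^ 3)) =
        r * (q + 1) * q ^ 3 + r * (q + 1) * q ^ 3 * q ^ 2 := by ring
    have e6 : 0 < r * (q + 1) * q ^ 3 * q ^ 2 := by positivity
    omega
  · -- dimension 4
    refine ⟨h, ?_⟩
    obtain ⟨d1, d2⟩ := dim4 hD (hFx.trans h)
    rw [hQ] at d2
    have e1 : q ^ 2 * (q ^ 2 + q + 1) ≤ nb D (Fx u) 2 := by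
      have e2 : (q ^ 2 + q + 1) * nb D (Fx u) 3 ≤ (q ^ 2 + q + 1) * 1 := Nat.mul_le_mul_left _ d1
      have e3 : (q ^ 2 + 1) * (q ^ 2 + q + 1) = q ^ 2 * (q ^ 2 + q + 1) + (q ^ 2 + q + 1) := by ring
      omega
    rw [h] at hup
    norm_num at hup
    have e4 : r * (q ^ 2 * (q ^ 2 + q + 1)) ≤ (q ^ (kk u 2 - 4) - 1) * q ^ 2 :=
      (Nat.mul_le_mul_left _ e1).trans hup
    have e5 : r * (q ^ 2 * (q ^ 2 + q + 1)) = r * (q ^ 2 + q + 1) * q ^ 2 := by ring
    rw [e5] at e4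
    have e6 : r * (q ^ 2 + q + 1) ≤ q ^ (kk u 2 - 4) - 1 :=
      Nat.le_of_mul_le_mul_right e4 (by positivity)
    have e7 : q ^ 3 = r * (q ^ 2 + q + 1) + 1 := by rw [hr]; ring
    have e8 : 1 ≤ q ^ (kk u 2 - 4) := Nat.one_le_pow _ _ (by omega)
    have e9 : q ^ 3 ≤ q ^ (kk u 2 - 4) := by omega
    have e10 : 3 ≤ kk u 2 - 4 := (Nat.pow_le_pow_iff_right (by omega)).1 e9
    omega
  · -- dimension 3
    exfalso
    have hnb : nb D (Fx u) 2 = 0 ∨ nb D (Fx u) 2 = q ^ 2 + q + 1 := by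
      rcases dim3 hD (hFx.trans h) with ⟨-, -, h5⟩ | ⟨-, -, h5⟩
      · exact Or.inl h5
      · exact Or.inr (by rw [h5, hQ])
    rw [h] at hup
    norm_num at hup
    by_cases hk : kk u 2 ≤ 5
    · have e1 : q ^ (kk u 2 - 3) - 1 ≤ r * (q + 1) := by
        have e2 : q ^ (kk u 2 - 3) ≤ q ^ 2 := A6_pow hq (by omega)
        have e3 : q ^ 2 = r * (q + 1) + 1 := by rw [hr]; ring
        omega
      have e4 := hup.trans (Nat.mul_le_mul_right _ e1)
      have hz : nb D (Fx u) 2 = 0 := by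
        rcases hnb with h5 | h5
        · exact h5
        · exfalso
          rw [h5] at e4
          have e5 : r * (q ^ 2 + q + 1) = r * (q + 1) * q + r := by ring
          omega
      obtain ⟨c, hc, hc0⟩ : ∃ c ∈ (Fx u ⊓ Wx u : Submodule F V), c ≠ 0 := by
        apply Submodule.exists_mem_ne_zero_of_ne_bot
        intro hbot
        have h5 := inf_wx u
        rw [hbot, finrank_bot] at h5
        omega
      have e5 := hloc c hc.1 hc.2 hc0
      have e6 : t2 D u c = 0 := by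
        have := t2_le (D := D) u c
        omega
      have e7 := t3_le hD hu hc0 hc.1
      rw [hQ] at e7
      rw [e6, mul_zero, zero_add, h] at e5
      rw [← e5, h] at e7
      have e8 : 3 ≤ kk u 2 - 3 := (Nat.pow_le_pow_iff_right (by omega)).1 e7
      omega
    · have hk2' : kk u 2 = 6 := by omega
      have hk3 : kk u 3 = 7 := by
        have := kk_mono u (show 2 ≤ 3 by norm_num)
        by_contra hc
        omega
      have hlow := t2_lower hD hp hu q (by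
        intro c hcF hcW hc
        have hc0 : c ≠ 0 := fun h5 => hc (by rw [h5]; exact Submodule.zero_mem _)
        have e5 := hloc c hcF hcW hc0
        rw [t3_zero hD hu hc0 hc hcF, mul_zero, add_zero, h] at e5
        have e6 : q ^ 2 * q = q ^ 2 * t2 D u c := by rw [← e5]; ring
        exact (Nat.eq_of_mul_eq_mul_left (by positivity) e6).le)
      rw [hQ, hk2', hk3, h] at hlow
      norm_num at hlow
      have e1 : q - 1 = r := by omega
      rw [e1] at hlow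
      have e2 : r * nb D (Fx u) 2 ≤ r * (q ^ 2 + q + 1) := by
        apply Nat.mul_le_mul_left
        rcases hnb with h5 | h5 <;> omega
      have e3 : (q ^ 3 - q) * q ≤ r * (q ^ 2 + q + 1) := hlow.trans e2
      have e4 : q ^ 3 = r * (q ^ 2 + q + 1) + 1 := by rw [hr]; ring
      have e5 : q ^ 3 - q = q * (q ^ 2 - 1) := by
        rw [Nat.mul_sub]
        congr 1
        · ring
        · ring
      have e6 : q ^ 2 = r * (q + 1) + 1 := by rw [hr]; ring
      have e7 : q ^ 2 - 1 = r * (q + 1) := by omega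
      rw [e5, e7] at e3
      have e8 : q * (r * (q + 1)) * q = r * (q ^ 2 * (q + 1)) := by ring
      rw [e8] at e3
      have e9 : q ^ 2 * (q + 1) ≤ q ^ 2 + q + 1 := Nat.le_of_mul_le_mul_left e3 hr1
      nlinarith

end Pool.Agent.LibQF86
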