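import Pool.Agent.LibQF86.A3
import Pool.Agent.LibQF86.A4
import Pool.Agent.LibQF86.A5
import Pool.Agent.LibQF86.S4

/-!
[QF86 A7] `k₁ = dim Fx u = 2`, `q = card F`, `nb D (Fx u) 2 = 1` (`dim2`): the block `B₀ ≥ Fx u`. `k₂ ∈ {3, 4}` (`kk_conv`, `kk_zero`, `kk_top`).
`k₂ = 3`: `Fx u ⊓ Wx u = span {c}` (`inf_wx`). `N B₀ ≤ Fx u ⊓ Wx u` (`ty2`), so `t2 D u c = 1`, so `t3 D u c = 0` (`loc`). Every invariant block is `B₀`: `dim (B ⊓ Fx u) ∈ {1, 2}` (`ty_pos`; `≤ 2 = dim Fx u`); if `1`: `ty3`: `B ⊓ Fx u = N N B ≤ Fx u ⊓ Wx u`, so `c ∈ B`, `t3 D u c > 0`. `mod_count` with `S = {B ∈ D, B ≤ Wx u}`, `ℓ = p`, `a = 3` (`unip_order`):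
`S.ncard = q ^ 2 + 1 ≡ 1` mod `p` (`dim5`, `rank_wx`: `dim Wx u = 5`; `p ∣ q`), so there is an invariant block `≤ Wx u`, it is `B₀`, so `Fx u ≤ Wx u`, `dim (Fx u ⊓ Wx u) = 2`, contradiction.
`k₂ = 4`: `Fx u ≤ Wx u`. `k₃ - k₂ ≤ 2` (`kk_conv`), `k₃ > k₂`. If `k₃ = 5`: for `c ∈ Fx u`, `c ∉ range N ^ 2`: `t3 = 0`, `t2 = 1` (`loc`), `t2_lower`: `q ^ 2 - q ≤ q - 1`, false. So `k₃ = 6` and `k₄ = 7` (`kk_conv`, `kk_top`, `kk_le`).
-/

open Module Polynomial

namespace Pool.Agent.LibQF86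

variable {F V : Type} [Field F] [Fintype F] [AddCommGroup V] [Module F V] [Finite V] [FiniteDimensional F V]

omit [Fintype F] [Finite V] [FiniteDimensional F V] in
private theorem A7_inv_fx (u : V ≃ₗ[F] V) : ∀ v ∈ Fx u, u v ∈ Fx u := by
  intro v hv
  have h : u v = v := by
    have h1 : (u : V →ₗ[F] V) v - v = 0 := hv
    exact sub_eq_zero.1 h1
  rw [h]
  exact hv

omit [Fintype F] [Finite V] [FiniteDimensional F V] in
private theorem A7_inv_wx (u : V ≃ₗ[F] V) : ∀ v ∈ Wx u, u v ∈ Wx u := by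
  rintro _ ⟨w, rfl⟩
  refine ⟨u w, ?_⟩
  show u (u w) - u w = u (u w - w)
  rw [map_sub]

omit [Fintype F] [Finite V] in
private theorem A7_line {I : Submodule F V} (hI : finrank F I = 1) {c : V} (hc : c ∈ I) (hc0 : c ≠ 0) :
    Submodule.span F {c} = I := by
  apply Submodule.eq_of_le_of_finrank_eq
  · exact (Submodule.span_singleton_le_iff_mem c I).2 hc
  · rw [finrank_span_singleton hc0, hI]

omit [Fintype F] [Finite V] [FiniteDimensional F V] in
private theorem A7_ex {I : Submodule F V} (hI : finrank F I = 1) : ∃ c ∈ I, c ≠ 0 := by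
  apply Submodule.exists_mem_ne_zero_of_ne_bot
  intro h
  rw [h, finrank_bot] at hI
  exact one_ne_zero hI.symm

private theorem A7_three {D : Set (Submodule F V)} (hD : IsFano D) {u : V ≃ₗ[F] V} (hp : Pres D u) (hu : Unip u)
    (h2 : kk u 1 = 2) (h3 : kk u 2 = 3) : False := by
  have hq : 2 ≤ Fintype.card F := Fintype.one_lt_card
  have hFx : finrank F (Fx u) = 2 := by rw [← kk_one, h2]
  have hI : finrank F (Fx u ⊓ Wx u : Submodule F V) = 1 := by
    have := inf_wx u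
    omega
  have hW : finrank F (Wx u) = 5 := by
    have := rank_wx u
    rw [hD.dim] at this
    omega
  obtain ⟨c, hcI, hc0⟩ := A7_ex hI
  have hspan := A7_line hI hcI hc0
  -- the block through `Fx u`
  have hnb : {B | B ∈ D ∧ finrank F (B ⊓ Fx u : Submodule F V) = 2}.ncard = 1 := (dim2 hD hFx).2
  obtain ⟨B₀, hB₀⟩ := Set.ncard_eq_one.1 hnb
  have hB₀' : B₀ ∈ D ∧ finrank F (B₀ ⊓ Fx u : Submodule F V) = 2 := by
    have : B₀ ∈ {B | B ∈ D ∧ finrank F (B ⊓ Fx u : Submodule F V) = 2} := by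
      rw [hB₀]
      exact rfl
    exact this
  have hle₀ : Fx u ≤ B₀ := by
    have : B₀ ⊓ Fx u = Fx u := Submodule.eq_of_le_of_finrank_eq inf_le_right (by rw [hB₀'.2, hFx])
    rw [← this]
    exact inf_le_left
  have hinv₀ : Inv u B₀ :=
    inv_block hD hp (inv_iff.2 (A7_inv_fx u)) (by rw [hFx]) hB₀'.1 hle₀
  obtain ⟨hn1, hn2, hn3⟩ := ty2 hu (hD.three B₀ hB₀'.1) hinv₀ hB₀'.2
  have hNB : B₀.map (Nm u) = Submodule.span F {c} := by
    rw [hspan]
    apply Submodule.eq_of_le_of_finrank_eq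
    · exact le_inf (hn2.trans inf_le_right) hn3
    · rw [hn1, hI]
  have ht2 : 1 ≤ t2 D u c := by
    rw [t2, Nat.one_le_iff_ne_zero, ← Nat.pos_iff_ne_zero, Set.ncard_pos (Set.toFinite _)]
    exact ⟨B₀, hB₀'.1, hinv₀, hB₀'.2, hNB⟩
  have hloc := loc hD hp hu hc0 hcI.1 hcI.2
  rw [h2] at hloc
  have ht3 : t3 D u c = 0 := by
    by_contra h
    have h4 : 1 ≤ t3 D u c := Nat.one_le_iff_ne_zero.2 h
    have h5 : Fintype.card F ^ 2 * 1 ≤ Fintype.card F ^ 2 * t2 D u c := Nat.mul_le_mul_left _ ht2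
    have h6 : Fintype.card F * 1 ≤ Fintype.card F * t3 D u c := Nat.mul_le_mul_left _ h4
    omega
  -- every invariant block is `B₀`
  have hall : ∀ B ∈ D, Inv u B → B = B₀ := by
    intro B hB hBi
    have h4 := ty_pos hu (hD.three B hB) hBi
    have h5 : finrank F (B ⊓ Fx u : Submodule F V) ≤ 2 := by
      rw [← hFx]
      exact Submodule.finrank_mono inf_le_right
    have h6 : finrank F (B ⊓ Fx u : Submodule F V) = 1 ∨ finrank F (B ⊓ Fx u : Submodule F V) = 2 := by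
      omega
    rcases h6 with h6 | h6
    · exfalso
      obtain ⟨g1, g2, g3, g4⟩ := ty3 hu (hD.three B hB) hBi h6
      have hle : B ⊓ Fx u ≤ Fx u ⊓ Wx u := by
        refine le_inf inf_le_right ?_
        rw [← g3, wx_eq]
        exact LinearMap.map_le_range
      have heq : B ⊓ Fx u = Fx u ⊓ Wx u :=
        Submodule.eq_of_le_of_finrank_eq hle (by rw [h6, hI])
      have hcB : c ∈ B := by
        have : c ∈ B ⊓ Fx u := by
          rw [heq]
          exact hcI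
        exact this.1
      have : t3 D u c ≠ 0 := by
        rw [t3, ← Nat.pos_iff_ne_zero, Set.ncard_pos (Set.toFinite _)]
        exact ⟨B, hB, hBi, h6, hcB⟩
      exact this ht3
    · have : B ∈ {B | B ∈ D ∧ finrank F (B ⊓ Fx u : Submodule F V) = 2} := ⟨hB, h6⟩
      rw [hB₀] at this
      exact this
  -- the count
  obtain ⟨p, hpc⟩ := CharP.exists F
  obtain ⟨n, hpp, hcard⟩ := FiniteField.card F p
  have hord := unip_order hu hpp
  have hSm : ∀ B ∈ {B | B ∈ D ∧ B ≤ Wx u}, B.map (u : V →ₗ[F] V) ∈ {B | B ∈ D ∧ B ≤ Wx u} := by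
    rintro B ⟨hB, hBW⟩
    refine ⟨hp B hB, ?_⟩
    rintro _ ⟨v, hv, rfl⟩
    exact A7_inv_wx u v (hBW hv)
  have hcount := mod_count hpp hord {B | B ∈ D ∧ B ≤ Wx u} hSm
  have hS : {B | B ∈ D ∧ B ≤ Wx u}.ncard = Fintype.card F ^ 2 + 1 := by
    rw [← (dim5 hD hW).1, nb]
    congr 1
    ext B
    constructor
    · rintro ⟨hB, hBW⟩
      exact ⟨hB, (dim_inf hD hB).2.2.2 hBW⟩
    · rintro ⟨hB, hBW⟩
      exact ⟨hB, (dim_inf hD hB).2.2.1 hBW⟩
  have hpq : p ∣ Fintype.card F := by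
    rw [hcard]
    exact dvd_pow_self p n.pos.ne'
  have hne : {B | B ∈ {B | B ∈ D ∧ B ≤ Wx u} ∧ Inv u B}.ncard ≠ 0 := by
    intro h0
    rw [hS, h0] at hcount
    have h1 : p ∣ Fintype.card F ^ 2 + 1 := (Nat.modEq_zero_iff_dvd).1 hcount
    have h2 : p ∣ Fintype.card F ^ 2 := dvd_pow hpq two_ne_zero
    have h3 : p ∣ 1 := (Nat.dvd_add_right h2).1 h1
    exact hpp.one_lt.ne' (Nat.dvd_one.1 h3)
  obtain ⟨B, ⟨hBD, hBW⟩, hBi⟩ := (Set.ncard_pos (Set.toFinite _)).1 (Nat.pos_of_ne_zero hne)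
  rw [hall B hBD hBi] at hBW
  have h4 : Fx u ⊓ Wx u = Fx u := inf_eq_left.2 (hle₀.trans hBW)
  rw [h4, hFx] at hI
  omega

theorem small {D : Set (Submodule F V)} (hD : IsFano D) {u : V ≃ₗ[F] V} (hp : Pres D u) (hu : Unip u)
    (h2 : kk u 1 = 2) : kk u 2 = 4 ∧ kk u 3 = 6 ∧ kk u 4 = 7 := by
  have hq : 2 ≤ Fintype.card F := Fintype.one_lt_card
  have hFx : finrank F (Fx u) = 2 := by rw [← kk_one, h2]
  have c0 := kk_conv u 0
  have c1 := kk_conv u 1
  have c2 := kk_conv u 2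
  have c3 := kk_conv u 3
  have c4 := kk_conv u 4
  have c5 := kk_conv u 5
  have k0 := kk_zero u
  have k7 := kk_top hu (le_refl 7)
  rw [hD.dim] at k7
  have m2 : kk u 1 ≤ kk u 2 := kk_mono u (by norm_num)
  have m3 : kk u 2 ≤ kk u 3 := kk_mono u (by norm_num)
  have m4 : kk u 3 ≤ kk u 4 := kk_mono u (by norm_num)
  have l4 := kk_le u 4
  rw [hD.dim] at l4
  have h3 : kk u 2 ≠ 3 := fun h => A7_three hD hp hu h2 h
  norm_num at c0 c1 c2 c3 c4 c5
  have h4 : kk u 2 = 4 := by omega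
  have h5 : kk u 3 ≠ 5 := by
    intro h5
    have hI := inf_wx u
    have hFW : Fx u ⊓ Wx u = Fx u :=
      Submodule.eq_of_le_of_finrank_eq inf_le_left (by rw [hFx]; omega)
    have hlow := t2_lower hD hp hu 1 (by
      intro c hcF hcW hcR
      have hc0 : c ≠ 0 := by
        rintro rfl
        exact hcR (Submodule.zero_mem _)
      have h6 := t3_zero hD hu hc0 hcR hcF
      have h7 := loc hD hp hu hc0 hcF hcW
      rw [h6, h2, mul_zero, add_zero] at h7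
      rcases Nat.eq_zero_or_pos (t2 D u c) with h8 | h8
      · exfalso
        rw [h8, mul_zero] at h7
        exact (pow_pos (by omega : 0 < Fintype.card F) 2).ne' h7
      · exact h8)
    rw [(dim2 hD hFx).2, h4, h5, h2] at hlow
    norm_num at hlow
    have h9 : 2 * Fintype.card F ≤ Fintype.card F ^ 2 := by
      rw [pow_two]
      exact Nat.mul_le_mul_right _ hq
    omega
  refine ⟨h4, ?_, ?_⟩ <;> omega

end Pool.Agent.LibQF86
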