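import Pool.Agent.LibQF86.A6
import Pool.Agent.LibQF86.A7

/-!
[QF86 A8] Assembly of part (A). `kk u 1 ≥ 1` (nilpotent); `big`, `small`. Powers: `p` the characteristic. `p = 3`, second case: `kk (u ^ 3) 1 = kk u 3 = 6` (`kk_pow`), `u ^ 3 ≠ 1` (`eq_one_iff`), `Pres D (u ^ 3)`, contradiction to `big`. Third case (`kk_chain`): `p = 3`: `kk (u ^ 3) 1 = 3`; `p = 5`: `kk (u ^ 5) 1 = 5`: contradiction to `big`.
-/

open Module Polynomial

namespace Pool.Agent.LibQF86

variable {F V : Type} [Field F] [Fintype F] [AddCommGroup V] [Module F V] [Finite V] [FiniteDimensional F V]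

omit [Fintype F] [Finite V] [FiniteDimensional F V] in
theorem A8_pres {D : Set (Submodule F V)} {u : V ≃ₗ[F] V} (hp : Pres D u) (n : ℕ) :
    Pres D (u ^ n) := by
  induction n with
  | zero =>
    intro B hB
    have h1 : (((u ^ 0 : V ≃ₗ[F] V)) : V →ₗ[F] V) = LinearMap.id := by
      ext v
      simp
    rw [h1, Submodule.map_id]
    exact hB
  | succ n ih =>
    intro B hB
    have h1 : (((u ^ (n + 1) : V ≃ₗ[F] V)) : V →ₗ[F] V) =
        ((u ^ n : V ≃ₗ[F] V) : V →ₗ[F] V) ∘ₗ (u : V →ₗ[F] V) := by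
      ext v
      rw [pow_succ]
      rfl
    rw [h1, Submodule.map_comp]
    exact ih _ (hp B hB)

/-- the power `u ^ p` is not covered by `big` -/
theorem A8_pow {D : Set (Submodule F V)} (hD : IsFano D) {u : V ≃ₗ[F] V} (hp : Pres D u)
    (hu : Unip u) {p k : ℕ} (hpp : p.Prime) (hc : ringChar F = p) (hk : kk u p = k)
    (h3 : 3 ≤ k) (h4 : k ≠ 4) (h7 : k ≠ 7) : False := by
  have : CharP F p := ringChar.of_eq hc
  have h1 : kk (u ^ p) 1 = k := by rw [kk_pow hpp 1, mul_one, hk]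
  have h2 : u ^ p ≠ 1 := by
    intro h
    rw [eq_one_iff, h1, hD.dim] at h
    exact h7 h
  have h5 := big hD (A8_pres hp p) (unip_pow hu hpp) h2 (by rw [h1]; exact h3)
  exact h4 (h1.symm.trans h5.1)

theorem partA {D : Set (Submodule F V)} (hD : IsFano D) {u : V ≃ₗ[F] V} (hp : Pres D u) (h1 : u ≠ 1)
    (hu : Unip u) :
    (kk u 1 = 4 ∧ kk u 2 = 7) ∨
    (ringChar F ≠ 3 ∧ kk u 1 = 2 ∧ kk u 2 = 4 ∧ kk u 3 = 6 ∧ kk u 4 = 7) ∨
    (ringChar F ≠ 3 ∧ ringChar F ≠ 5 ∧ kk u 1 = 1) := by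
  by_cases hb : 3 ≤ kk u 1
  · exact Or.inl (big hD hp hu h1 hb)
  by_cases h2 : kk u 1 = 2
  · obtain ⟨e2, e3, e4⟩ := small hD hp hu h2
    refine Or.inr (Or.inl ⟨fun hc => ?_, h2, e2, e3, e4⟩)
    exact A8_pow hD hp hu Nat.prime_three hc e3 (by norm_num) (by norm_num) (by norm_num)
  by_cases h0 : kk u 1 = 1
  · refine Or.inr (Or.inr ⟨fun hc => ?_, fun hc => ?_, h0⟩)
    · exact A8_pow hD hp hu Nat.prime_three hc (kk_chain hu hD.dim h0 (by norm_num)) (by norm_num)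
        (by norm_num) (by norm_num)
    · exact A8_pow hD hp hu Nat.prime_five hc (kk_chain hu hD.dim h0 (by norm_num)) (by norm_num)
        (by norm_num) (by norm_num)
  exfalso
  have hz : kk u 1 = 0 := by omega
  have c0 := kk_conv u 0
  have c1 := kk_conv u 1
  have c2 := kk_conv u 2
  have c3 := kk_conv u 3
  have c4 := kk_conv u 4
  have c5 := kk_conv u 5
  have h7 : kk u 7 = 7 := by rw [kk_top hu le_rfl, hD.dim]
  norm_num at c0 c1 c2 c3 c4 c5
  omega

end Pool.Agent.LibQF86
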