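import Pool.Agent.LibQF86.G1

/-!
[QF86 B1] Eigenspaces. `eg_inv`: every subspace of an eigenspace is invariant (the eigenvalue is nonzero because `u` is injective, or `X` is `⊥`). `eg_disj`: `Eg u a ⊓ Eg u b = ⊥`. `eg_sum`: for an invariant `X` the sum of the dimensions of the `X ⊓ Eg u a` is `dim X`:
`Eg u a = Module.End.eigenspace (u : V →ₗ[F] V) a` (`Module.End.mem_eigenspace_iff`), `Submodule.inf_iSup_genEigenspace` (or `Module.End.inf_iSup_genEigenspace`), `Module.End.eigenspaces_iSupIndep`, and the dimension of an independent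
sum (`DirectSum.IsInternal`, `Submodule.finrank_iSup..`, or induction). `eg_zero`: `Eg u 0 = ⊥`. `eg_card`: the nonzero eigenvalues `a ≠ 0` with `Eg u a ≠ ⊥`: at most `q - 1`.
-/

open Module Polynomial

namespace Pool.Agent.LibQF86

variable {F V : Type} [Field F] [Fintype F] [AddCommGroup V] [Module F V] [Finite V] [FiniteDimensional F V]

theorem mem_eg {u : V ≃ₗ[F] V} {a : F} {v : V} : v ∈ Eg u a ↔ u v = a • v := by
  rw [Eg, LinearMap.mem_ker, LinearMap.sub_apply, LinearMap.smul_apply, LinearMap.id_apply, sub_eq_zero]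
  rfl

private theorem B1_zero (u : V ≃ₗ[F] V) : Eg u 0 = ⊥ := by
  rw [Submodule.eq_bot_iff]
  intro v hv
  rw [mem_eg, zero_smul] at hv
  exact (map_eq_zero_iff u u.injective).1 hv

theorem eg_inv {u : V ≃ₗ[F] V} {a : F} {X : Submodule F V} (h : X ≤ Eg u a) : Inv u X := by
  by_cases ha : a = 0
  · rw [ha, B1_zero, le_bot_iff] at h
    rw [Inv, h, Submodule.map_bot]
  · apply le_antisymm
    · rintro _ ⟨x, hx, rfl⟩
      have h1 : u x = a • x := mem_eg.1 (h hx)
      change u x ∈ X
      rw [h1]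
      exact X.smul_mem a hx
    · intro x hx
      refine ⟨a⁻¹ • x, X.smul_mem _ hx, ?_⟩
      have h1 : u x = a • x := mem_eg.1 (h hx)
      change u (a⁻¹ • x) = x
      rw [map_smul, h1, smul_smul, inv_mul_cancel₀ ha, one_smul]

theorem eg_disj {u : V ≃ₗ[F] V} {a b : F} (h : a ≠ b) : Eg u a ⊓ Eg u b = ⊥ := by
  rw [Submodule.eq_bot_iff]
  rintro v ⟨h1, h2⟩
  have h3 : u v = a • v := mem_eg.1 h1
  have h4 : u v = b • v := mem_eg.1 h2
  have h5 : (a - b) • v = 0 := by
    rw [sub_smul, ← h3, ← h4, sub_self]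
  exact (smul_eq_zero.1 h5).resolve_left (sub_ne_zero.2 h)

theorem eg_zero (u : V ≃ₗ[F] V) : Eg u 0 = ⊥ := B1_zero u

private theorem B1_eg (u : V ≃ₗ[F] V) (a : F) : Eg u a = Module.End.eigenspace (u : V →ₗ[F] V) a := by
  ext v
  rw [mem_eg, Module.End.mem_eigenspace_iff]
  rfl

private theorem B1_fin (p : F → Submodule F V) (h : iSupIndep p) :
    finrank F (⨆ i, p i : Submodule F V) = ∑ i, finrank F (p i) := by
  classical
  have h1 := LinearMap.finrank_range_of_inj
    (f := (DFinsupp.lsum ℕ fun i => (p i).subtype : (Π₀ i, p i) →ₗ[F] V)) h.dfinsupp_lsum_injective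
  rw [← Submodule.iSup_eq_range_dfinsupp_lsum] at h1
  rw [h1]
  exact Module.finrank_directSum (R := F) (fun i => (p i : Type))

private theorem B1_indep (u : V ≃ₗ[F] V) : iSupIndep fun a : F => Eg u a := by
  have h := Module.End.eigenspaces_iSupIndep (u : V →ₗ[F] V)
  have h1 : (fun a : F => Eg u a) = Module.End.eigenspace (u : V →ₗ[F] V) := by
    funext a
    exact B1_eg u a
  rw [h1]
  exact h

theorem eg_sum {u : V ≃ₗ[F] V} (hu : Diag u) {X : Submodule F V} (hX : Inv u X) :
    ∑ a : F, finrank F (X ⊓ Eg u a : Submodule F V) = finrank F X := by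
  have h1 : ∀ x ∈ X, (u : V →ₗ[F] V) x ∈ X := by
    intro x hx
    have h2 : (u : V →ₗ[F] V) x ∈ X.map (u : V →ₗ[F] V) := Submodule.mem_map_of_mem hx
    rwa [hX] at h2
  have h2 := Submodule.inf_iSup_genEigenspace (p := X) (f := (u : V →ₗ[F] V)) h1 1
  have h3 : (fun a : F => Eg u a) = fun a => Module.End.genEigenspace (u : V →ₗ[F] V) a 1 := by
    funext a
    exact B1_eg u a
  have h4 : ⨆ a, Module.End.genEigenspace (u : V →ₗ[F] V) a 1 = ⊤ := by
    rw [← hu]
    exact (congrArg iSup h3).symm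
  have h5 : (fun a : F => X ⊓ Eg u a) = fun a => X ⊓ Module.End.genEigenspace (u : V →ₗ[F] V) a 1 := by
    funext a
    exact congrArg (fun Z => X ⊓ Z) (B1_eg u a)
  have h6 : ⨆ a, X ⊓ Eg u a = X := by
    have h7 : ⨆ a, X ⊓ Eg u a = ⨆ a, X ⊓ Module.End.genEigenspace (u : V →ₗ[F] V) a 1 := congrArg iSup h5
    rw [h7, ← h2, h4, inf_top_eq]
  rw [← B1_fin (fun a => X ⊓ Eg u a) ((B1_indep u).mono fun a => inf_le_right), h6]

theorem eg_sum_top {u : V ≃ₗ[F] V} (hu : Diag u) : ∑ a : F, finrank F (Eg u a) = finrank F V := by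
  rw [← B1_fin (fun a => Eg u a) (B1_indep u)]
  have h : (⨆ a : F, Eg u a) = ⊤ := hu
  rw [h, finrank_top]

/-- a non-scalar diagonalisable `u` has proper eigenspaces -/
theorem eg_lt {D : Set (Submodule F V)} (hD : IsFano D) {u : V ≃ₗ[F] V} (hn : NonScalar u) (a : F) :
    finrank F (Eg u a) < 7 := by
  have h1 := Submodule.finrank_le (Eg u a)
  rw [hD.dim] at h1
  refine lt_of_le_of_ne h1 ?_
  intro h2
  have h3 : Eg u a = ⊤ := Submodule.eq_top_of_finrank_eq (by rw [h2, hD.dim])
  apply hn a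
  intro v
  have h4 : v ∈ Eg u a := by
    rw [h3]
    exact Submodule.mem_top
  exact mem_eg.1 h4

theorem card_eigDims (u : V ≃ₗ[F] V) : Multiset.card (eigDims u) + 1 ≤ Fintype.card F := by
  classical
  rw [eigDims, Multiset.filter_map, Multiset.card_map]
  have h1 : (0 : F) ∉ (Finset.univ : Finset F).filter ((fun n => n ≠ 0) ∘ fun a => finrank F (Eg u a)) := by
    rw [Finset.mem_filter, not_and]
    intro _ h
    apply h
    show finrank F (Eg u 0) = 0
    rw [B1_zero, finrank_bot]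
  have h2 := Finset.card_lt_univ_of_notMem h1
  rw [Finset.card_def, Finset.filter_val] at h2
  exact h2

private theorem B1_msum (s : Multiset ℕ) : (s.filter fun n => n ≠ 0).sum = s.sum := by
  induction s using Multiset.induction_on with
  | empty => rfl
  | cons a s ih =>
    by_cases ha : a = 0
    · rw [Multiset.filter_cons_of_neg (p := fun n : ℕ => n ≠ 0) s (not_not.2 ha), ih, Multiset.sum_cons, ha,
        zero_add]
    · rw [Multiset.filter_cons_of_pos (p := fun n : ℕ => n ≠ 0) s ha, Multiset.sum_cons, Multiset.sum_cons, ih]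

theorem sum_eigDims {u : V ≃ₗ[F] V} (hu : Diag u) : (eigDims u).sum = finrank F V := by
  rw [eigDims, B1_msum, ← eg_sum_top hu]
  rfl

end Pool.Agent.LibQF86
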