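import Pool.Agent.LibQF86.B3

/-!
[QF86 B6] Eigenspaces of dimension `3`, with at least three eigenvalues. `u` has three nonzero eigenspaces, so `q ≥ 4` (`eg_zero`: the eigenvalues are `≠ 0`; `Fintype.card F ≥ 4`). Let `n_a = 3`, `b ≠ a` with `n_b` maximal among the others, `z ∈ Eg u b`, `z ≠ 0`. `out_id` and `one_line`:
`(q - 1) nbv 1 ≥ q ^ 3 - 1 - (q ^ 2 - 1) = q ^ 3 - q ^ 2`, so `nbv 1 ≥ q ^ 2`. `few`: the other dimensions (without `a`) are `(3, 1)`, `(2, 2)`, `(2, 1, 1)`, `(1, 1, 1, 1)` (the sum is `4`, and `≥ 2` of them are nonzero):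
`(q - 1) nbv 1 ≤ (q ^ 2 - 1) + (q - 1)`, `(q - 1) + (q ^ 2 - 1)`, `(q - 1) + 2 (q - 1)`, `0 + 3 (q - 1)`; in all cases `≤ q ^ 2 + q - 2`, so `q ^ 2 ≤ q + 2`, `q ≤ 2`. Contradiction.
-/

open Module Polynomial

namespace Pool.Agent.LibQF86

variable {F V : Type} [Field F] [Fintype F] [AddCommGroup V] [Module F V] [Finite V] [FiniteDimensional F V]

private theorem B6_superadd {ι : Type} (s : Finset ι) (n : ι → ℕ) (q : ℤ) (hq : 1 ≤ q) :
    ∑ c ∈ s, (q ^ n c - 1) ≤ q ^ (∑ c ∈ s, n c) - 1 := by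
  classical
  induction s using Finset.induction_on with
  | empty => simp
  | insert x s hx ih =>
    rw [Finset.sum_insert hx, Finset.sum_insert hx, pow_add]
    have h1 : 1 ≤ q ^ n x := one_le_pow₀ hq
    have h2 : 1 ≤ q ^ (∑ c ∈ s, n c) := one_le_pow₀ hq
    nlinarith [mul_nonneg (sub_nonneg.mpr h1) (sub_nonneg.mpr h2)]

private theorem B6_one {ι : Type} (s : Finset ι) (n : ι → ℕ) (q : ℤ) (h : ∀ c ∈ s, n c ≤ 1) :
    ∑ c ∈ s, (q ^ n c - 1) = (q - 1) * ((∑ c ∈ s, n c : ℕ) : ℤ) := by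
  rw [Nat.cast_sum, Finset.mul_sum]
  refine Finset.sum_congr rfl fun c hc => ?_
  rcases Nat.le_one_iff_eq_zero_or_eq_one.mp (h c hc) with h0 | h0 <;> simp [h0]

theorem three {D : Set (Submodule F V)} (hD : IsFano D) {u : V ≃ₗ[F] V} (hp : Pres D u) (hu : Diag u) (a b c : F)
    (ha : finrank F (Eg u a) = 3) (hab : a ≠ b) (hac : a ≠ c) (hbc : b ≠ c) (hb : finrank F (Eg u b) ≠ 0)
    (hc : finrank F (Eg u c) ≠ 0) : False := by
  classical
  have hne0 : ∀ x : F, finrank F (Eg u x) ≠ 0 → x ≠ 0 := by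
    rintro x hx rfl
    exact hx (by rw [eg_zero]; exact finrank_bot F V)
  have ha0 := hne0 a (by omega)
  have hb0 := hne0 b hb
  have hc0 := hne0 c hc
  have hq : 4 ≤ Fintype.card F := by
    have h4 : ({0, a, b, c} : Finset F).card = 4 := by
      rw [Finset.card_insert_of_notMem, Finset.card_insert_of_notMem, Finset.card_insert_of_notMem,
        Finset.card_singleton]
      · simpa using hbc
      · simpa using ⟨hab, hac⟩
      · simpa using ⟨ha0.symm, hb0.symm, hc0.symm⟩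
    calc 4 = ({0, a, b, c} : Finset F).card := h4.symm
      _ ≤ _ := Finset.card_le_univ _
  obtain ⟨d, hd, hmax⟩ := Finset.exists_max_image ((Finset.univ : Finset F).erase a)
    (fun x => finrank F (Eg u x)) ⟨b, by simp [hab.symm]⟩
  have hda : d ≠ a := (Finset.mem_erase.mp hd).1
  have hsum := eg_sum_top hu
  rw [hD.dim, ← Finset.add_sum_erase _ _ (Finset.mem_univ a), ha, ← Finset.add_sum_erase _ _ hd] at hsum
  have hdb : finrank F (Eg u b) ≤ finrank F (Eg u d) := hmax b (by simp [hab.symm])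
  have hr : 1 ≤ ∑ x ∈ ((Finset.univ : Finset F).erase a).erase d, finrank F (Eg u x) := by
    by_cases hbd : b = d
    · have hm : c ∈ ((Finset.univ : Finset F).erase a).erase d := by
        simp only [Finset.mem_erase, Finset.mem_univ, and_true]
        exact ⟨fun h => hbc (hbd.trans h.symm), hac.symm⟩
      have h5 := Finset.single_le_sum (f := fun x => finrank F (Eg u x)) (fun _ _ => Nat.zero_le _) hm
      omega
    · have hm : b ∈ ((Finset.univ : Finset F).erase a).erase d := by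
        simp only [Finset.mem_erase, Finset.mem_univ, and_true]
        exact ⟨hbd, hab.symm⟩
      have h5 := Finset.single_le_sum (f := fun x => finrank F (Eg u x)) (fun _ _ => Nat.zero_le _) hm
      omega
  have hd1 : 1 ≤ finrank F (Eg u d) := by omega
  obtain ⟨z, hz, hz0⟩ : ∃ z ∈ Eg u d, z ≠ 0 := by
    by_contra h
    push Not at h
    have h6 : Eg u d = ⊥ := (Submodule.eq_bot_iff _).mpr h
    rw [h6, finrank_bot] at hd1
    omega
  have hza : z ∉ Eg u a := by
    intro hza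
    have h7 : z ∈ Eg u a ⊓ Eg u d := ⟨hza, hz⟩
    rw [eg_disj hda.symm, Submodule.mem_bot] at h7
    exact hz0 h7
  have h1 := out_id hD hza
  have h2 := one_line hD hza ha.le
  have h3 := few hD hp hu hda.symm hz hz0
  rw [ha] at h1
  have hq' : (4 : ℤ) ≤ (Fintype.card F : ℤ) := by exact_mod_cast hq
  have h2' : (nbv D z (Eg u a) 2 : ℤ) ≤ 1 := by exact_mod_cast h2
  have hS := B6_superadd (((Finset.univ : Finset F).erase a).erase d) (fun x => finrank F (Eg u x))
    (Fintype.card F : ℤ) (by linarith)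
  have hO : finrank F (Eg u d) = 1 →
      ∑ x ∈ ((Finset.univ : Finset F).erase a).erase d, ((Fintype.card F : ℤ) ^ finrank F (Eg u x) - 1) =
        ((Fintype.card F : ℤ) - 1) *
          ((∑ x ∈ ((Finset.univ : Finset F).erase a).erase d, finrank F (Eg u x) : ℕ) : ℤ) := by
    intro h8
    refine B6_one _ (fun x => finrank F (Eg u x)) _ fun x hx => ?_
    have := hmax x (Finset.mem_of_mem_erase hx)
    omega
  set S : ℤ := ∑ x ∈ ((Finset.univ : Finset F).erase a).erase d,
    ((Fintype.card F : ℤ) ^ finrank F (Eg u x) - 1) with hSdef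
  set r : ℕ := ∑ x ∈ ((Finset.univ : Finset F).erase a).erase d, finrank F (Eg u x) with hrdef
  set q : ℤ := (Fintype.card F : ℤ) with hqdef
  set n1 : ℤ := (nbv D z (Eg u a) 1 : ℤ)
  set n2 : ℤ := (nbv D z (Eg u a) 2 : ℤ)
  have hkey : (q - 1) * n1 ≤ q ^ 2 + q - 2 := by
    have hcases : (finrank F (Eg u d) = 1 ∧ r = 3) ∨ (finrank F (Eg u d) = 2 ∧ r = 2) ∨
        (finrank F (Eg u d) = 3 ∧ r = 1) := by omega
    rcases hcases with ⟨e1, e2⟩ | ⟨e1, e2⟩ | ⟨e1, e2⟩
    · have h9 := hO e1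
      rw [e2] at h9
      rw [e1, h9] at h3
      norm_num at h3
      nlinarith
    · have hS' : S ≤ q ^ r - 1 := hS
      rw [e2] at hS'
      rw [e1] at h3
      norm_num at h3
      linarith
    · have hS' : S ≤ q ^ r - 1 := hS
      rw [e2] at hS'
      rw [e1] at h3
      norm_num at h3
      linarith
  have h10 : (q ^ 2 - 1) * n2 ≤ q ^ 2 - 1 := by
    have : 0 ≤ q ^ 2 - 1 := by nlinarith
    nlinarith
  nlinarith

end Pool.Agent.LibQF86
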