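import Pool.Agent.LibQF86.B3
import Pool.Agent.LibQF86.S4

/-!
[QF86 B7] Eigenspaces of dimension `2` when there are at least five (nonzero) eigenspaces, all of dimension `≤ 2`; so `q ≥ 6`. Let `n_a = 2`, `B₀` the block of `Eg u a`. `z ∈ Eg u b`, `b ≠ a`, `z ∉ B₀`: no block through `z` contains `Eg u a`, `nbv D z (Eg u a) 2 = 0`, so `nbv 1 = q + 1` (`out_id`).
The other dimensions are `(2, 1, 1, 1)` or `(1, 1, 1, 1, 1)` (sum `5`, at least four nonzero, each `≤ 2`). First case: `b` with `n_b = 2`; `B₀ ⊓ Eg u b` has dimension `≤ 1` so `z` exists; `few`: `(q - 1) (q + 1) ≤ (q - 1) + 3 (q - 1)`, `q ≤ 3`. Second case: `B₀ ⊇ Eg u a` has dimension `3`, so it contains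
`Eg u b` for at most one `b ≠ a` (independence); take another `b`; `few`: `(q - 1) (q + 1) ≤ 0 + 4 (q - 1)`. Contradiction to `q ≥ 6`.
-/

open Module Polynomial

namespace Pool.Agent.LibQF86

variable {F V : Type} [Field F] [Fintype F] [AddCommGroup V] [Module F V] [Finite V] [FiniteDimensional F V]

private theorem B7_core {D : Set (Submodule F V)} (hD : IsFano D) {u : V ≃ₗ[F] V} (hp : Pres D u) (hu : Diag u) {a : F}
    (ha : finrank F (Eg u a) = 2) {b : F} (hba : b ≠ a) {B₀ : Submodule F V} (hB₀ : B₀ ∈ D) (hle : Eg u a ≤ B₀)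
    {z : V} (hz : z ∈ Eg u b) (hzB : z ∉ B₀) (hb2 : finrank F (Eg u b) ≤ 2)
    (h1 : ∀ c, c ≠ a → c ≠ b → finrank F (Eg u c) ≤ 1) (hq : 6 ≤ Fintype.card F) : False := by
  classical
  have hz0 : z ≠ 0 := by
    rintro rfl
    exact hzB B₀.zero_mem
  have hza : z ∉ Eg u a := fun h => hzB (hle h)
  have e0 : nbv D z (Eg u a) 2 = 0 := by
    have : {B | B ∈ D ∧ z ∈ B ∧ finrank F (B ⊓ Eg u a : Submodule F V) = 2} = ∅ := by
      rw [Set.eq_empty_iff_forall_notMem]
      rintro B ⟨hB, hzB', h2⟩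
      have h3 : (B ⊓ Eg u a : Submodule F V) = Eg u a :=
        Submodule.eq_of_le_of_finrank_eq inf_le_right (by rw [h2, ha])
      have h4 : Eg u a ≤ B := by
        rw [← h3]; exact inf_le_left
      have h5 : B = B₀ := eqB hD (T := Eg u a) (by omega) hB hB₀ h4 hle
      rw [h5] at hzB'
      exact hzB hzB'
    rw [nbv, this, Set.ncard_empty]
  have h2 := out_id hD hza
  rw [e0, ha] at h2
  have h3 := few hD hp hu hba.symm hz hz0
  have h4 := eg_sum_top hu
  rw [hD.dim, ← Finset.add_sum_erase Finset.univ _ (Finset.mem_univ a), ha,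
    ← Finset.add_sum_erase (Finset.univ.erase a) _ (Finset.mem_erase.2 ⟨hba, Finset.mem_univ b⟩)] at h4
  have hnb : 1 ≤ finrank F (Eg u b) := by
    have hL1 : finrank F (Submodule.span F {z} : Submodule F V) = 1 := finrank_span_singleton hz0
    rw [← hL1]
    refine Submodule.finrank_mono ?_
    rw [Submodule.span_singleton_le_iff_mem]; exact hz
  obtain ⟨q, hq'⟩ : ∃ q : ℤ, q = (Fintype.card F : ℤ) := ⟨_, rfl⟩
  have hq6 : (6 : ℤ) ≤ q := by
    rw [hq']; exact_mod_cast hq
  rw [← hq'] at h2 h3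
  have h5 : ∑ c ∈ (Finset.univ.erase a).erase b, (q ^ finrank F (Eg u c) - 1) =
      (∑ c ∈ (Finset.univ.erase a).erase b, ((finrank F (Eg u c) : ℕ) : ℤ)) * (q - 1) := by
    rw [Finset.sum_mul]
    refine Finset.sum_congr rfl fun c hc => ?_
    rw [Finset.mem_erase, Finset.mem_erase] at hc
    have h6 := h1 c hc.2.1 hc.1
    rcases Nat.le_one_iff_eq_zero_or_eq_one.1 h6 with h | h
    · rw [h]; simp
    · rw [h]; simp
  have h6 : q ^ (finrank F (Eg u b) - 1) - 1 = ((finrank F (Eg u b) : ℤ) - 1) * (q - 1) := by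
    have : finrank F (Eg u b) = 1 ∨ finrank F (Eg u b) = 2 := by omega
    rcases this with h | h
    · rw [h]; simp
    · rw [h]; norm_num
  have h7 : ((finrank F (Eg u b) : ℕ) : ℤ) + ∑ c ∈ (Finset.univ.erase a).erase b, ((finrank F (Eg u c) : ℕ) : ℤ) = 5 := by
    have h8 : finrank F (Eg u b) + ∑ c ∈ (Finset.univ.erase a).erase b, finrank F (Eg u c) = 5 := by omega
    exact_mod_cast h8
  rw [h5, h6] at h3
  have h8 : ((finrank F (Eg u b) : ℤ) - 1) * (q - 1) +
      (∑ c ∈ (Finset.univ.erase a).erase b, ((finrank F (Eg u c) : ℕ) : ℤ)) * (q - 1) = 4 * (q - 1) := by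
    rw [← add_mul]
    congr 1
    linarith
  rw [h8] at h3
  push_cast at h2
  nlinarith

theorem two {D : Set (Submodule F V)} (hD : IsFano D) {u : V ≃ₗ[F] V} (hp : Pres D u) (hu : Diag u) (a : F)
    (ha : finrank F (Eg u a) = 2) (hle : ∀ b, finrank F (Eg u b) ≤ 2)
    (h5 : 5 ≤ (Finset.univ.filter fun b : F => finrank F (Eg u b) ≠ 0).card) : False := by
  classical
  have hq : 6 ≤ Fintype.card F := by
    have h1 : (Finset.univ.filter fun b : F => finrank F (Eg u b) ≠ 0) ⊆ Finset.univ.erase 0 := by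
      intro b hb
      rw [Finset.mem_filter] at hb
      rw [Finset.mem_erase]
      refine ⟨?_, Finset.mem_univ b⟩
      rintro rfl
      apply hb.2
      rw [eg_zero, finrank_bot]
    have h2 := Finset.card_le_card h1
    rw [Finset.card_erase_of_mem (Finset.mem_univ _), Finset.card_univ] at h2
    omega
  obtain ⟨B₀, ⟨hB₀, hle₀⟩, _⟩ := hD.uniq (Eg u a) ha
  have hInv : Inv u B₀ := inv_block hD hp (eg_inv le_rfl) (by omega) hB₀ hle₀
  have h3 := eg_sum hu hInv
  have h3a : finrank F (B₀ ⊓ Eg u a : Submodule F V) = 2 := by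
    rw [inf_eq_right.2 hle₀, ha]
  rw [hD.three B₀ hB₀, ← Finset.add_sum_erase Finset.univ _ (Finset.mem_univ a), h3a] at h3
  have h4 := eg_sum_top hu
  rw [hD.dim, ← Finset.add_sum_erase Finset.univ _ (Finset.mem_univ a), ha] at h4
  have hz : ∀ b, finrank F (B₀ ⊓ Eg u b : Submodule F V) < finrank F (Eg u b) → ∃ z ∈ Eg u b, z ∉ B₀ := by
    intro b hb
    by_contra hcon
    push Not at hcon
    have : (B₀ ⊓ Eg u b : Submodule F V) = Eg u b := inf_eq_right.2 fun z hz => hcon z hz
    rw [this] at hb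
    exact lt_irrefl _ hb
  by_cases hcase : ∃ b, b ≠ a ∧ finrank F (Eg u b) = 2
  · obtain ⟨b, hba, hb⟩ := hcase
    have hbm : b ∈ Finset.univ.erase a := Finset.mem_erase.2 ⟨hba, Finset.mem_univ b⟩
    have h5 := Finset.single_le_sum (f := fun c => finrank F (B₀ ⊓ Eg u c : Submodule F V)) (s := Finset.univ.erase a)
      (fun _ _ => Nat.zero_le _) hbm
    obtain ⟨z, hz1, hz2⟩ := hz b (by
      have h6 : finrank F (B₀ ⊓ Eg u b : Submodule F V) ≤ ∑ c ∈ Finset.univ.erase a, finrank F (B₀ ⊓ Eg u c : Submodule F V) := h5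
      omega)
    refine B7_core hD hp hu ha hba hB₀ hle₀ hz1 hz2 (by omega) ?_ hq
    intro c hca hcb
    by_contra hcon
    rw [← Finset.add_sum_erase (Finset.univ.erase a) _ hbm, hb] at h4
    have hcm : c ∈ (Finset.univ.erase a).erase b :=
      Finset.mem_erase.2 ⟨hcb, Finset.mem_erase.2 ⟨hca, Finset.mem_univ c⟩⟩
    rw [← Finset.add_sum_erase ((Finset.univ.erase a).erase b) _ hcm] at h4
    have h6 : (Finset.univ.filter fun b : F => finrank F (Eg u b) ≠ 0) ⊆
        insert a (insert b (insert c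
          ((((Finset.univ.erase a).erase b).erase c).filter fun d => finrank F (Eg u d) ≠ 0))) := by
      intro d hd
      rw [Finset.mem_filter] at hd
      simp only [Finset.mem_insert, Finset.mem_filter, Finset.mem_erase, Finset.mem_univ, and_true]
      by_cases e1 : d = a
      · exact Or.inl e1
      by_cases e2 : d = b
      · exact Or.inr (Or.inl e2)
      by_cases e3 : d = c
      · exact Or.inr (Or.inr (Or.inl e3))
      exact Or.inr (Or.inr (Or.inr ⟨⟨e3, e2, e1⟩, hd.2⟩))
    have h7 := Finset.card_le_card h6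
    have h8 := Finset.card_insert_le a (insert b (insert c
          ((((Finset.univ.erase a).erase b).erase c).filter fun d => finrank F (Eg u d) ≠ 0)))
    have h9 := Finset.card_insert_le b (insert c
          ((((Finset.univ.erase a).erase b).erase c).filter fun d => finrank F (Eg u d) ≠ 0))
    have h10 := Finset.card_insert_le c
          ((((Finset.univ.erase a).erase b).erase c).filter fun d => finrank F (Eg u d) ≠ 0)
    have h11 : ((((Finset.univ.erase a).erase b).erase c).filter fun d => finrank F (Eg u d) ≠ 0).card ≤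
        ∑ d ∈ ((Finset.univ.erase a).erase b).erase c, finrank F (Eg u d) := by
      rw [Finset.card_filter]
      refine Finset.sum_le_sum fun d _ => ?_
      split_ifs with h
      · exact Nat.one_le_iff_ne_zero.2 h
      · exact Nat.zero_le _
    omega
  · have hcase' : ∀ b, b ≠ a → finrank F (Eg u b) ≤ 1 := by
      intro b hb
      have h5 := hle b
      have h6 : finrank F (Eg u b) ≠ 2 := fun h => hcase ⟨b, hb, h⟩
      omega
    have h5 : ∑ c ∈ Finset.univ.erase a, finrank F (B₀ ⊓ Eg u c : Submodule F V) <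
        ∑ c ∈ Finset.univ.erase a, finrank F (Eg u c) := by omega
    obtain ⟨b, hbm, hb⟩ := Finset.exists_lt_of_sum_lt h5
    have hba : b ≠ a := (Finset.mem_erase.1 hbm).1
    obtain ⟨z, hz1, hz2⟩ := hz b hb
    exact B7_core hD hp hu ha hba hB₀ hle₀ hz1 hz2 (hle b) (fun c hca _ => hcase' c hca) hq

end Pool.Agent.LibQF86
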