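import Pool.Agent.LibQF86.Defs

/-!
[QF86 B8] Pure combinatorics (only Mathlib): multisets of positive integers with the sum `7`. For instance: sort, and check the fifteen partitions (`Nat.Partition 7` is a `Fintype`; `decide`, or by hand: take out a maximal element and split).
`h4`: a `4` comes with a `3`; `h3`: if `3` occurs then there are at most two elements; `h2`: if `2` occurs and all are `≤ 2` then there are at most four elements.
-/

namespace Pool.Agent.LibQF86

private theorem B8_rep (m : Multiset ℕ) (h0 : ∀ x ∈ m, 0 < x) (hle : ∀ x ∈ m, x ≤ 4) :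
    m = Multiset.replicate (m.count 1) 1 + Multiset.replicate (m.count 2) 2 +
      Multiset.replicate (m.count 3) 3 + Multiset.replicate (m.count 4) 4 := by
  ext x
  simp only [Multiset.count_add, Multiset.count_replicate]
  by_cases hx : x ∈ m
  · have h1 := h0 x hx
    have h2 := hle x hx
    interval_cases x <;> simp
  · by_cases h1 : x = 1
    · subst h1; simp
    by_cases h2 : x = 2
    · subst h2; simp
    by_cases h3 : x = 3
    · subst h3; simp
    by_cases h4 : x = 4
    · subst h4; simp
    rw [Multiset.count_eq_zero_of_notMem hx, if_neg (fun h => h1 h.symm),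
      if_neg (fun h => h2 h.symm), if_neg (fun h => h3 h.symm), if_neg (fun h => h4 h.symm)]

theorem parts7 (m : Multiset ℕ) (h0 : ∀ x ∈ m, 0 < x) (hs : m.sum = 7) (hle : ∀ x ∈ m, x ≤ 4)
    (h4 : 4 ∈ m → 3 ∈ m) (h3 : 3 ∈ m → Multiset.card m ≤ 2)
    (h2 : 2 ∈ m → (∀ x ∈ m, x ≤ 2) → Multiset.card m ≤ 4) :
    m = {4, 3} ∨ m = {2, 2, 2, 1} ∨ m = {1, 1, 1, 1, 1, 1, 1} := by
  have hm := B8_rep m h0 hle
  have hsum : m.count 1 + m.count 2 * 2 + m.count 3 * 3 + m.count 4 * 4 = 7 := by
    have h := hs
    rw [hm] at h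
    simpa using h
  have hcard : Multiset.card m = m.count 1 + m.count 2 + m.count 3 + m.count 4 := by
    have h := congrArg Multiset.card hm
    simpa using h
  have h4' : m.count 4 ≠ 0 → m.count 3 ≠ 0 := by
    intro h
    rw [Ne, Multiset.count_eq_zero, not_not] at h ⊢
    exact h4 h
  have h3' : m.count 3 ≠ 0 → Multiset.card m ≤ 2 := by
    intro h
    rw [Ne, Multiset.count_eq_zero, not_not] at h
    exact h3 h
  have h2' : m.count 2 ≠ 0 → m.count 3 = 0 → m.count 4 = 0 → Multiset.card m ≤ 4 := by
    intro h h5 h6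
    rw [Ne, Multiset.count_eq_zero, not_not] at h
    rw [Multiset.count_eq_zero] at h5 h6
    refine h2 h ?_
    intro x hx
    have h7 := hle x hx
    have h8 : x ≠ 3 := fun h9 => h5 (h9 ▸ hx)
    have h9 : x ≠ 4 := fun h9 => h6 (h9 ▸ hx)
    omega
  rw [hcard] at h3' h2'
  generalize m.count 1 = a at *
  generalize m.count 2 = b at *
  generalize m.count 3 = c at *
  generalize m.count 4 = d at *
  have hcases : (a = 0 ∧ b = 0 ∧ c = 1 ∧ d = 1) ∨ (a = 1 ∧ b = 3 ∧ c = 0 ∧ d = 0) ∨
      (a = 7 ∧ b = 0 ∧ c = 0 ∧ d = 0) := by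
    by_cases hc : c = 0
    · have hd : d = 0 := by
        by_contra hd
        exact h4' hd hc
      by_cases hb : b = 0
      · omega
      · have := h2' hb hc hd
        omega
    · have := h3' hc
      omega
  rcases hcases with ⟨rfl, rfl, rfl, rfl⟩ | ⟨rfl, rfl, rfl, rfl⟩ | ⟨rfl, rfl, rfl, rfl⟩
  · left
    rw [hm]
    decide
  · right
    left
    rw [hm]
    decide
  · right
    right
    rw [hm]
    decide

end Pool.Agent.LibQF86
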