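import Pool.Agent.LibQF86.B1
import Pool.Agent.LibQF86.S4

/-!
[QF86 B9] Eigenspaces `Eg u a`, `Eg u b` of dimensions `4` and `3` (so `V` is their sum): count the pairs `(x, y)` of nonzero vectors `x ∈ Eg u a`, `y ∈ Eg u b`. The block of `x, y` is invariant (`inv_block`; the line is spanned by eigenvectors), so (`eg_sum`) `(dim (B ⊓ Eg u a), dim (B ⊓ Eg u b))` is `(2, 1)` or `(1, 2)`.
Conversely a block with `dim (B ⊓ Eg u a) = 2` is invariant with dimensions `(2, 1)`, and it contains `(q ^ 2 - 1) (q - 1)` pairs; the same for `Eg u b`. So `(q ^ 4 - 1) (q ^ 3 - 1) = (q ^ 2 - 1) (q - 1) (nb D (Eg u a) 2 + nb D (Eg u b) 2)`.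
With `dim4`, `dim3`: `nb D (Eg u a) 2 = (q ^ 2 + q + 1) (q ^ 2 + 1 - α)`, `nb D (Eg u b) 2 = (q ^ 2 + q + 1) (1 - β)`, `α = nb D (Eg u a) 3`, `β = nb D (Eg u b) 3`: `α + β = 1`. The blocks in an eigenspace `Eg u c` (all other eigenspaces are `⊥`) are those with `dim (B ⊓ Eg u c) = 3`.
-/

open Module Polynomial

namespace Pool.Agent.LibQF86

variable {F V : Type} [Field F] [Fintype F] [AddCommGroup V] [Module F V] [Finite V] [FiniteDimensional F V]

open scoped Classical in
/-- the number of nonzero vectors of a subspace -/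
private theorem B9_card [Fintype V] (X : Submodule F V) :
    (Finset.univ.filter fun x : V => x ∈ X ∧ x ≠ 0).card = Fintype.card F ^ finrank F X - 1 := by
  have h1 : (Finset.univ.filter fun x : V => x ∈ X ∧ x ≠ 0) =
      (Finset.univ.filter fun x : V => x ∈ X).erase 0 := by
    ext x
    simp only [Finset.mem_filter, Finset.mem_univ, true_and, Finset.mem_erase]
    tauto
  have h2 : (Finset.univ.filter fun x : V => x ∈ X).card = Nat.card X := by
    rw [Nat.card_eq_fintype_card, Fintype.card_subtype]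
  rw [h1, Finset.card_erase_of_mem (by simp), h2, card_pow]

/-- the other eigenspaces are zero -/
private theorem B9_other (hV : finrank F V = 7) {u : V ≃ₗ[F] V} (hu : Diag u) {a b : F} (hab : a ≠ b)
    (ha : finrank F (Eg u a) = 4) (hb : finrank F (Eg u b) = 3) (c : F) (hca : c ≠ a) (hcb : c ≠ b) :
    Eg u c = ⊥ := by
  classical
  have h1 := eg_sum_top hu
  rw [hV, ← Finset.add_sum_erase _ _ (Finset.mem_univ a),
    ← Finset.add_sum_erase _ _ (Finset.mem_erase.2 ⟨hab.symm, Finset.mem_univ b⟩),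
    ← Finset.add_sum_erase _ _ (Finset.mem_erase.2 ⟨hcb, Finset.mem_erase.2 ⟨hca, Finset.mem_univ c⟩⟩),
    ha, hb] at h1
  exact Submodule.finrank_eq_zero.1 (by omega)

/-- the dimensions of an invariant block -/
private theorem B9_sum (hV : finrank F V = 7) {u : V ≃ₗ[F] V} (hu : Diag u) {a b : F} (hab : a ≠ b)
    (ha : finrank F (Eg u a) = 4) (hb : finrank F (Eg u b) = 3) {X : Submodule F V} (hX : Inv u X) :
    finrank F (X ⊓ Eg u a : Submodule F V) + finrank F (X ⊓ Eg u b : Submodule F V) = finrank F X := by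
  classical
  rw [← eg_sum hu hX, ← Finset.add_sum_erase _ _ (Finset.mem_univ a),
    ← Finset.add_sum_erase _ _ (Finset.mem_erase.2 ⟨hab.symm, Finset.mem_univ b⟩)]
  have h1 : ∑ c ∈ (Finset.univ.erase a).erase b, finrank F (X ⊓ Eg u c : Submodule F V) = 0 := by
    refine Finset.sum_eq_zero fun c hc => ?_
    rw [Finset.mem_erase, Finset.mem_erase] at hc
    rw [B9_other hV hu hab ha hb c hc.2.1 hc.1, inf_bot_eq, finrank_bot]
  rw [h1, add_zero]

/-- the double count -/
private theorem B9_count {D : Set (Submodule F V)} (hD : IsFano D) {u : V ≃ₗ[F] V} (hp : Pres D u) (hu : Diag u)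
    {a b : F} (hab : a ≠ b) (ha : finrank F (Eg u a) = 4) (hb : finrank F (Eg u b) = 3) :
    (Fintype.card F ^ 4 - 1) * (Fintype.card F ^ 3 - 1) =
      (nb D (Eg u a) 2 + nb D (Eg u b) 2) * ((Fintype.card F ^ 2 - 1) * (Fintype.card F ^ 1 - 1)) := by
  classical
  let _ : Fintype V := Fintype.ofFinite V
  have hfin : Finite (Submodule F V) := inferInstance
  set A := Eg u a with hA
  set E := Eg u b with hE
  have hAE : A ⊓ E = ⊥ := eg_disj hab
  have hinv : ∀ B ∈ D, ∀ x ∈ A, ∀ y ∈ E, x ≠ 0 → y ≠ 0 → x ∈ B → y ∈ B → Inv u B := by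
    intro B hB x hx y hy hx0 hy0 hxB hyB
    have hT : Inv u (Submodule.span F {x} ⊔ Submodule.span F {y}) := by
      refine inv_sup (eg_inv (a := a) ?_) (eg_inv (a := b) ?_)
      · rw [Submodule.span_singleton_le_iff_mem]
        exact hx
      · rw [Submodule.span_singleton_le_iff_mem]
        exact hy
    refine inv_block hD hp hT ?_ hB ?_
    · have h1 := Submodule.finrank_sup_add_finrank_inf_eq (Submodule.span F {x}) (Submodule.span F {y})
      have h2 : Submodule.span F {x} ⊓ Submodule.span F {y} = (⊥ : Submodule F V) := by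
        rw [eq_bot_iff, ← hAE]
        refine _root_.inf_le_inf ?_ ?_
        · rw [Submodule.span_singleton_le_iff_mem]
          exact hx
        · rw [Submodule.span_singleton_le_iff_mem]
          exact hy
      rw [h2, finrank_bot, finrank_span_singleton hx0, finrank_span_singleton hy0] at h1
      omega
    · refine sup_le ?_ ?_
      · rw [Submodule.span_singleton_le_iff_mem]
        exact hxB
      · rw [Submodule.span_singleton_le_iff_mem]
        exact hyB
  have hsum : ∀ B ∈ D, Inv u B → finrank F (B ⊓ A : Submodule F V) + finrank F (B ⊓ E : Submodule F V) = 3 := by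
    intro B hB hI
    rw [B9_sum hD.dim hu hab ha hb hI, hD.three B hB]
  -- the blocks with a line in one of the spaces are invariant
  have hline : ∀ B ∈ D, ∀ c, finrank F (B ⊓ Eg u c : Submodule F V) = 2 → Inv u B := fun B hB c h =>
    inv_block hD hp (T := B ⊓ Eg u c) (eg_inv (a := c) inf_le_right) h.ge hB inf_le_left
  set SA : Set (Submodule F V) := {B | B ∈ D ∧ finrank F (B ⊓ A : Submodule F V) = 2} with hSA
  set SE : Set (Submodule F V) := {B | B ∈ D ∧ finrank F (B ⊓ E : Submodule F V) = 2} with hSE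
  have hdisj : Disjoint SA SE := by
    rw [Set.disjoint_left]
    rintro B ⟨h1, h2⟩ ⟨_, h3⟩
    have h4 := hsum B h1 (hline B h1 a h2)
    omega
  have hST : (SA ∪ SE).ncard = nb D A 2 + nb D E 2 :=
    Set.ncard_union_eq hdisj (Set.toFinite _) (Set.toFinite _)
  set P : Finset (V × V) := (Finset.univ.filter fun x : V => x ∈ A ∧ x ≠ 0) ×ˢ
    (Finset.univ.filter fun x : V => x ∈ E ∧ x ≠ 0) with hP
  have hPc : P.card = (Fintype.card F ^ 4 - 1) * (Fintype.card F ^ 3 - 1) := by
    rw [hP, Finset.card_product, B9_card, B9_card, ha, hb]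
  set T : Finset (Submodule F V) := (SA ∪ SE).toFinite.toFinset with hT
  have hTc : T.card = nb D A 2 + nb D E 2 := by
    rw [← hST, hT, Set.ncard_eq_toFinset_card]
  let r : V × V → Submodule F V → Prop := fun p B => p.1 ∈ B ∧ p.2 ∈ B
  have hdc := Finset.sum_card_bipartiteAbove_eq_sum_card_bipartiteBelow (s := P) (t := T) r
  have hleft : ∀ p ∈ P, (T.bipartiteAbove r p).card = 1 := by
    rintro ⟨x, y⟩ hpm
    simp only [hP, Finset.mem_product, Finset.mem_filter, Finset.mem_univ, true_and] at hpm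
    obtain ⟨⟨hx, hx0⟩, hy, hy0⟩ := hpm
    have hyx : y ∉ Submodule.span F {x} := by
      intro h
      have h1 : Submodule.span F {x} ≤ A := by
        rw [Submodule.span_singleton_le_iff_mem]
        exact hx
      have h2 : y ∈ A ⊓ E := ⟨h1 h, hy⟩
      rw [hAE, Submodule.mem_bot] at h2
      exact hy0 h2
    obtain ⟨B, ⟨hB, hxB, hyB⟩, huniq⟩ := pairB hD hx0 hyx
    rw [Finset.card_eq_one]
    refine ⟨B, ?_⟩
    ext B'
    simp only [Finset.mem_bipartiteAbove, Finset.mem_singleton, hT, Set.Finite.mem_toFinset, r]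
    constructor
    · rintro ⟨h1, h2, h3⟩
      refine huniq B' ⟨?_, h2, h3⟩
      rcases h1 with h1 | h1
      · exact h1.1
      · exact h1.1
    · rintro rfl
      refine ⟨?_, hxB, hyB⟩
      have h1 := hsum B' hB (hinv B' hB x hx y hy hx0 hy0 hxB hyB)
      have h2 : finrank F (B' ⊓ A : Submodule F V) ≠ 0 := by
        intro h0
        have h3 : x ∈ B' ⊓ A := ⟨hxB, hx⟩
        rw [Submodule.finrank_eq_zero.1 h0, Submodule.mem_bot] at h3
        exact hx0 h3
      have h3 : finrank F (B' ⊓ E : Submodule F V) ≠ 0 := by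
        intro h0
        have h3 : y ∈ B' ⊓ E := ⟨hyB, hy⟩
        rw [Submodule.finrank_eq_zero.1 h0, Submodule.mem_bot] at h3
        exact hy0 h3
      by_cases h4 : finrank F (B' ⊓ A : Submodule F V) = 2
      · exact Or.inl ⟨hB, h4⟩
      · exact Or.inr ⟨hB, by omega⟩
  have hright : ∀ B ∈ T, (P.bipartiteBelow r B).card =
      (Fintype.card F ^ 2 - 1) * (Fintype.card F ^ 1 - 1) := by
    intro B hB
    have h1 : P.bipartiteBelow r B = (Finset.univ.filter fun x : V => x ∈ B ⊓ A ∧ x ≠ 0) ×ˢ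
        (Finset.univ.filter fun x : V => x ∈ B ⊓ E ∧ x ≠ 0) := by
      ext ⟨x, y⟩
      simp only [Finset.mem_bipartiteBelow, hP, Finset.mem_product, Finset.mem_filter,
        Finset.mem_univ, true_and, Submodule.mem_inf, r]
      tauto
    rw [h1, Finset.card_product, B9_card, B9_card]
    rw [hT, Set.Finite.mem_toFinset] at hB
    rcases hB with ⟨h2, h3⟩ | ⟨h2, h3⟩
    · have h4 := hsum B h2 (hline B h2 a h3)
      have h5 : finrank F (B ⊓ E : Submodule F V) = 1 := by omega
      rw [h3, h5]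
    · have h4 := hsum B h2 (hline B h2 b h3)
      have h5 : finrank F (B ⊓ A : Submodule F V) = 1 := by omega
      rw [h3, h5, mul_comm]
  rw [Finset.sum_congr rfl hleft, Finset.sum_congr rfl hright, Finset.sum_const, Finset.sum_const,
    smul_eq_mul, smul_eq_mul, mul_one, hPc, hTc] at hdc
  exact hdc

private theorem B9_arith {q n : ℕ} (hq : 2 ≤ q)
    (h : (q ^ 4 - 1) * (q ^ 3 - 1) = n * ((q ^ 2 - 1) * (q ^ 1 - 1))) :
    n = (q ^ 2 + 1) * (q ^ 2 + q + 1) := by
  obtain ⟨m, rfl⟩ : ∃ m, q = m + 1 := ⟨q - 1, by omega⟩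
  have e4 : (m + 1) ^ 4 - 1 = m * (m + 2) * (m ^ 2 + 2 * m + 2) := by
    have : (m + 1) ^ 4 = m * (m + 2) * (m ^ 2 + 2 * m + 2) + 1 := by ring
    omega
  have e3 : (m + 1) ^ 3 - 1 = m * (m ^ 2 + 3 * m + 3) := by
    have : (m + 1) ^ 3 = m * (m ^ 2 + 3 * m + 3) + 1 := by ring
    omega
  have e2 : (m + 1) ^ 2 - 1 = m * (m + 2) := by
    have : (m + 1) ^ 2 = m * (m + 2) + 1 := by ring
    omega
  have e1 : (m + 1) ^ 1 - 1 = m := by simp
  rw [e4, e3, e2, e1] at h
  have hm : 0 < m * (m + 2) * m := by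
    have : 0 < m := by omega
    positivity
  refine Nat.eq_of_mul_eq_mul_right hm ?_
  rw [← h]
  ring

theorem one_block {D : Set (Submodule F V)} (hD : IsFano D) {u : V ≃ₗ[F] V} (hp : Pres D u) (hu : Diag u) {a b : F}
    (hab : a ≠ b) (ha : finrank F (Eg u a) = 4) (hb : finrank F (Eg u b) = 3) :
    ∃! B, B ∈ D ∧ ∃ c, B ≤ Eg u c := by
  classical
  have hfin : Finite (Submodule F V) := inferInstance
  have hcount := B9_count hD hp hu hab ha hb
  have hq := two_le_q (F := F)
  obtain ⟨h41, h42⟩ := dim4 hD ha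
  set q := Fintype.card F with hqd
  set NA := nb D (Eg u a) 2 with hNA
  set NE := nb D (Eg u b) 2 with hNE
  set α := nb D (Eg u a) 3 with hα
  have hsum : NA + NE = (q ^ 2 + 1) * (q ^ 2 + q + 1) := B9_arith hq hcount
  have hle : ∀ B ∈ D, ∀ c, B ≤ Eg u c → finrank F (B ⊓ Eg u c : Submodule F V) = 3 := fun B hB c h =>
    ((dim_inf hD hB).2.2).2 h
  -- the possible eigenvalues of a block in an eigenspace
  have hc : ∀ B ∈ D, ∀ c, B ≤ Eg u c → c = a ∨ c = b := by
    intro B hB c h
    by_contra hcon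
    push Not at hcon
    rw [B9_other hD.dim hu hab ha hb c hcon.1 hcon.2, le_bot_iff] at h
    have h1 := hD.three B hB
    rw [h, finrank_bot] at h1
    omega
  rcases dim3 hD hb with ⟨h1, h2, h3⟩ | ⟨h1, h2, h3⟩
  · -- the block is `Eg u b`
    have hα0 : α = 0 := by
      rw [← hNE] at h3
      rw [h3, add_zero] at hsum
      rw [hsum] at h42
      have h4 : (q ^ 2 + q + 1) * α = 0 := by omega
      rcases Nat.mul_eq_zero.1 h4 with h5 | h5
      · omega
      · exact h5
    have hemp : {B | B ∈ D ∧ finrank F (B ⊓ Eg u a : Submodule F V) = 3} = ∅ :=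
      (Set.ncard_eq_zero (Set.toFinite _)).1 hα0
    refine ⟨Eg u b, ⟨h1, b, le_rfl⟩, ?_⟩
    rintro B ⟨hB, c, hBc⟩
    rcases hc B hB c hBc with rfl | rfl
    · have h5 : B ∈ {B | B ∈ D ∧ finrank F (B ⊓ Eg u c : Submodule F V) = 3} := ⟨hB, hle B hB c hBc⟩
      rw [hemp] at h5
      exact absurd h5 (Set.notMem_empty B)
    · exact Submodule.eq_of_le_of_finrank_eq hBc (by rw [hD.three B hB, hb])
  · -- the block is in `Eg u a`
    have hα1 : α = 1 := by
      rw [← hNE, ← hqd] at h3
      rw [h3] at hsum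
      have h4 : (q ^ 2 + q + 1) * α = (q ^ 2 + q + 1) * 1 := by omega
      exact Nat.eq_of_mul_eq_mul_left (by positivity) h4
    obtain ⟨B₀, hB₀⟩ := Set.ncard_eq_one.1 hα1
    have hB₁ : B₀ ∈ D ∧ finrank F (B₀ ⊓ Eg u a : Submodule F V) = 3 := by
      have h5 : B₀ ∈ {B | B ∈ D ∧ finrank F (B ⊓ Eg u a : Submodule F V) = 3} := by
        rw [hB₀]
        exact Set.mem_singleton _
      exact h5
    refine ⟨B₀, ⟨hB₁.1, a, ((dim_inf hD hB₁.1).2.2).1 hB₁.2⟩, ?_⟩
    rintro B ⟨hB, c, hBc⟩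
    rcases hc B hB c hBc with rfl | rfl
    · have h5 : B ∈ {B | B ∈ D ∧ finrank F (B ⊓ Eg u c : Submodule F V) = 3} := ⟨hB, hle B hB c hBc⟩
      rw [hB₀] at h5
      exact h5
    · exact absurd (Submodule.eq_of_le_of_finrank_eq hBc (by rw [hD.three B hB, hb]) ▸ hB) h1

end Pool.Agent.LibQF86
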