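import Pool.Agent.LibQF86.B5
import Pool.Agent.LibQF86.B6
import Pool.Agent.LibQF86.B7
import Pool.Agent.LibQF86.B8
import Pool.Agent.LibQF86.B9

/-!
[QF86 B10] Assembly of part (B): `parts7` for `eigDims u` (`sum_eigDims`, `hD.dim`); `le4`, `four`, `three` (three elements of the multiset give three different eigenvalues), `two` (`card (eigDims u)` is the number of nonzero eigenspaces). `{4, 3}`: `one_block`. The last two: `card_eigDims`: `4 + 1 ≤ q`, `7 + 1 ≤ q`.
-/

open Module Polynomial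

namespace Pool.Agent.LibQF86

variable {F V : Type} [Field F] [Fintype F] [AddCommGroup V] [Module F V] [Finite V] [FiniteDimensional F V]

theorem partB {D : Set (Submodule F V)} (hD : IsFano D) {u : V ≃ₗ[F] V} (hp : Pres D u) (hn : NonScalar u)
    (hu : Diag u) :
    (eigDims u = {4, 3} ∧ ∃! B, B ∈ D ∧ ∃ c, B ≤ Eg u c) ∨
    (eigDims u = {2, 2, 2, 1} ∧ 5 ≤ Fintype.card F) ∨
    (eigDims u = {1, 1, 1, 1, 1, 1, 1} ∧ 8 ≤ Fintype.card F) := by
  classical
  have hmem : ∀ x, x ∈ eigDims u ↔ x ≠ 0 ∧ ∃ a : F, finrank F (Eg u a) = x := by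
    intro x
    unfold eigDims
    rw [Multiset.mem_filter, Multiset.mem_map]
    constructor
    · rintro ⟨⟨a, -, ha⟩, hx⟩
      exact ⟨hx, a, ha⟩
    · rintro ⟨hx, a, ha⟩
      exact ⟨⟨a, Finset.mem_univ _, ha⟩, hx⟩
  have hcard : Multiset.card (eigDims u) = (Finset.univ.filter fun b : F => finrank F (Eg u b) ≠ 0).card := by
    unfold eigDims
    rw [Multiset.filter_map, Multiset.card_map]
    rfl
  have hq := card_eigDims u
  have h7 : (eigDims u).sum = 7 := by rw [sum_eigDims hu, hD.dim]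
  have hle : ∀ x ∈ eigDims u, x ≤ 4 := by
    intro x hx
    obtain ⟨-, a, rfl⟩ := (hmem x).mp hx
    exact le4 hD hp hu hn a
  have h0 : ∀ x ∈ eigDims u, 0 < x := fun x hx => Nat.pos_of_ne_zero ((hmem x).mp hx).1
  have h4 : 4 ∈ eigDims u → 3 ∈ eigDims u := by
    intro h
    obtain ⟨-, a, ha⟩ := (hmem 4).mp h
    obtain ⟨b, -, hb⟩ := four hD hp hu hn a ha
    exact (hmem 3).mpr ⟨by norm_num, b, hb⟩
  have h3 : 3 ∈ eigDims u → Multiset.card (eigDims u) ≤ 2 := by
    intro h
    obtain ⟨-, a, ha⟩ := (hmem 3).mp h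
    by_contra hc
    rw [hcard] at hc
    have hamem : a ∈ Finset.univ.filter fun b : F => finrank F (Eg u b) ≠ 0 := by
      rw [Finset.mem_filter]
      exact ⟨Finset.mem_univ _, by rw [ha]; norm_num⟩
    have h1 : 1 < ((Finset.univ.filter fun b : F => finrank F (Eg u b) ≠ 0).erase a).card := by
      rw [Finset.card_erase_of_mem hamem]
      omega
    obtain ⟨b, hb, c, hc', hbc⟩ := Finset.one_lt_card.mp h1
    rw [Finset.mem_erase, Finset.mem_filter] at hb hc'
    exact three hD hp hu a b c ha hb.1.symm hc'.1.symm hbc hb.2.2 hc'.2.2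
  have h2 : 2 ∈ eigDims u → (∀ x ∈ eigDims u, x ≤ 2) → Multiset.card (eigDims u) ≤ 4 := by
    intro h hall
    obtain ⟨-, a, ha⟩ := (hmem 2).mp h
    by_contra hc
    rw [hcard] at hc
    refine two hD hp hu a ha ?_ (by omega)
    intro b
    by_cases hb : finrank F (Eg u b) = 0
    · omega
    · exact hall _ ((hmem _).mpr ⟨hb, b, rfl⟩)
  rcases parts7 (eigDims u) h0 h7 hle h4 h3 h2 with h | h | h
  · left
    refine ⟨h, ?_⟩
    obtain ⟨-, a, ha⟩ := (hmem 4).mp (by rw [h]; decide)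
    obtain ⟨-, b, hb⟩ := (hmem 3).mp (by rw [h]; decide)
    refine one_block hD hp hu (a := a) (b := b) ?_ ha hb
    intro hab
    rw [hab, hb] at ha
    norm_num at ha
  · right
    left
    refine ⟨h, ?_⟩
    rw [h] at hq
    exact hq
  · right
    right
    refine ⟨h, ?_⟩
    rw [h] at hq
    exact hq

end Pool.Agent.LibQF86
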