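import Pool.Agent.LibQF86.S2

/-!
[QF86 B2] `z ∉ X`, `z ≠ 0`: every `x ∈ X`, `x ≠ 0`, is in exactly one block through `z` (`pairB`: `x ∉ span {z}`), and a block through `z` contains `q ^ j - 1` such `x`, `j = dim (B ⊓ X) ≤ 2` (`j = 3` would mean `B ≤ X`). Double counting as in `local_id`.
`one_line`: for `dim X ≤ 3` there is at most one block through `z` with `dim (B ⊓ X) = 2`: two such planes of `X` meet in a line or more, `dim (B ⊓ B') ≥ 2`.
-/

open Module Polynomial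

namespace Pool.Agent.LibQF86

variable {F V : Type} [Field F] [Fintype F] [AddCommGroup V] [Module F V] [Finite V] [FiniteDimensional F V]

omit [Fintype F] [FiniteDimensional F V] in
private theorem B2_finSub : Finite (Submodule F V) :=
  Finite.of_injective (fun X : Submodule F V => (X : Set V)) SetLike.coe_injective

/-- the number of nonzero vectors of a subspace -/
private theorem B2_nz (Y : Submodule F V) (Q : Finset V) (hQ : ∀ v, v ∈ Q ↔ v ∈ Y ∧ v ≠ 0) :
    (Q.card : ℤ) = (Fintype.card F : ℤ) ^ finrank F Y - 1 := by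
  classical
  have h0 : (0 : V) ∉ Q := fun h => ((hQ 0).1 h).2 rfl
  have h1 : ((insert 0 Q : Finset V) : Set V) = (Y : Set V) := by
    ext v
    simp only [Finset.coe_insert, Set.mem_insert_iff, Finset.mem_coe, SetLike.mem_coe, hQ]
    constructor
    · rintro (h | h)
      · rw [h]
        exact Y.zero_mem
      · exact h.1
    · intro h
      by_cases hv : v = 0
      · exact Or.inl hv
      · exact Or.inr ⟨h, hv⟩
  have h2 : (insert 0 Q : Finset V).card = Nat.card Y := by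
    rw [← Set.ncard_coe_finset, h1]
    rfl
  rw [Finset.card_insert_of_notMem h0, card_pow] at h2
  have h3 : ((Q.card : ℤ) + 1) = (Fintype.card F : ℤ) ^ finrank F Y := by exact_mod_cast h2
  linarith

/-- double counting of the pairs of a vector and a block through `z` -/
private theorem B2_dc (D : Set (Submodule F V)) (X : Submodule F V) (z : V) (j : ℕ) (P : Finset V)
    (hP : ∀ v, v ∈ P ↔ v ∈ X ∧ v ≠ 0) :
    ∑ v ∈ P, (({B | B ∈ D ∧ z ∈ B ∧ v ∈ B ∧ finrank F (B ⊓ X : Submodule F V) = j}.ncard : ℕ) : ℤ) =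
      ((Fintype.card F : ℤ) ^ j - 1) * nbv D z X j := by
  classical
  haveI : Finite (Submodule F V) := B2_finSub
  have hTfin : {B | B ∈ D ∧ z ∈ B ∧ finrank F (B ⊓ X : Submodule F V) = j}.Finite := Set.toFinite _
  have h := Finset.sum_card_bipartiteAbove_eq_sum_card_bipartiteBelow (s := P)
    (t := hTfin.toFinset) (fun (v : V) (B : Submodule F V) => v ∈ B)
  have h1 : ∀ v, (hTfin.toFinset.bipartiteAbove (fun (v : V) (B : Submodule F V) => v ∈ B) v).card =
      {B | B ∈ D ∧ z ∈ B ∧ v ∈ B ∧ finrank F (B ⊓ X : Submodule F V) = j}.ncard := by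
    intro v
    rw [← Set.ncard_coe_finset]
    congr 1
    ext B
    simp only [Finset.bipartiteAbove, Finset.coe_filter, Set.Finite.mem_toFinset,
      Set.mem_setOf_eq]
    tauto
  have h2 : ∀ B ∈ hTfin.toFinset,
      ((P.bipartiteBelow (fun (v : V) (B : Submodule F V) => v ∈ B) B).card : ℤ) =
      (Fintype.card F : ℤ) ^ j - 1 := by
    intro B hB
    rw [Set.Finite.mem_toFinset] at hB
    rw [← hB.2.2]
    apply B2_nz
    intro v
    simp only [Finset.bipartiteBelow, Finset.mem_filter, hP, Submodule.mem_inf]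
    tauto
  have h3 : (hTfin.toFinset.card : ℤ) = nbv D z X j := by
    unfold nbv
    rw [← Set.ncard_coe_finset, Set.Finite.coe_toFinset]
  have h4 : ((∑ v ∈ P, {B | B ∈ D ∧ z ∈ B ∧ v ∈ B ∧ finrank F (B ⊓ X : Submodule F V) = j}.ncard : ℕ) : ℤ) =
      ∑ B ∈ hTfin.toFinset,
      ((P.bipartiteBelow (fun (v : V) (B : Submodule F V) => v ∈ B) B).card : ℤ) := by
    rw [← Nat.cast_sum, ← h]
    congr 1
    exact Finset.sum_congr rfl fun v _ => (h1 v).symm
  rw [Nat.cast_sum] at h4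
  rw [h4, Finset.sum_congr rfl h2, Finset.sum_const, nsmul_eq_mul, h3]
  ring

private theorem B2_P (X : Submodule F V) : ∃ P : Finset V, ∀ v, v ∈ P ↔ v ∈ X ∧ v ≠ 0 :=
  ⟨(Set.toFinite {v : V | v ∈ X ∧ v ≠ 0}).toFinset, fun v => by
    rw [Set.Finite.mem_toFinset]
    rfl⟩

private theorem B2_span {X : Submodule F V} {z x : V} (hz : z ∉ X) (hx : x ∈ X) (hx0 : x ≠ 0) :
    x ∉ Submodule.span F {z} := by
  intro h
  rw [Submodule.mem_span_singleton] at h
  obtain ⟨c, hc⟩ := h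
  by_cases hc0 : c = 0
  · rw [hc0, zero_smul] at hc
    exact hx0 hc.symm
  · apply hz
    have : z = c⁻¹ • x := by
      rw [← hc, smul_smul, inv_mul_cancel₀ hc0, one_smul]
    rw [this]
    exact X.smul_mem _ hx

private theorem B2_split {D : Set (Submodule F V)} (hD : IsFano D) (X : Submodule F V) {z v : V}
    (hz : z ∉ X) (hv : v ∈ X) (hv0 : v ≠ 0) :
    1 = {B | B ∈ D ∧ z ∈ B ∧ v ∈ B ∧ finrank F (B ⊓ X : Submodule F V) = 1}.ncard +
      {B | B ∈ D ∧ z ∈ B ∧ v ∈ B ∧ finrank F (B ⊓ X : Submodule F V) = 2}.ncard := by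
  classical
  haveI : Finite (Submodule F V) := B2_finSub
  have hz0 : z ≠ 0 := fun h => hz (h ▸ X.zero_mem)
  obtain ⟨B₀, ⟨hB₀, hzB₀, hvB₀⟩, huniq⟩ := pairB hD hz0 (B2_span hz hv hv0)
  rw [← Set.ncard_union_eq]
  · refine (Set.ncard_singleton B₀).symm.trans ?_
    congr 1
    ext B
    simp only [Set.mem_setOf_eq, Set.mem_union, Set.mem_singleton_iff]
    constructor
    · intro hBB
      rw [hBB]
      have h1 := dim_inf hD (X := X) hB₀
      have h2 : 0 < finrank F (B₀ ⊓ X : Submodule F V) := by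
        rw [Module.finrank_pos_iff_exists_ne_zero]
        exact ⟨⟨v, hvB₀, hv⟩, fun h => hv0 (congrArg Subtype.val h)⟩
      have h3 : finrank F (B₀ ⊓ X : Submodule F V) ≠ 3 := fun h => hz (h1.2.2.1 h hzB₀)
      have h4 := h1.2.1
      have h5 : finrank F (B₀ ⊓ X : Submodule F V) = 1 ∨ finrank F (B₀ ⊓ X : Submodule F V) = 2 := by
        omega
      rcases h5 with h5 | h5
      · exact Or.inl ⟨hB₀, hzB₀, hvB₀, h5⟩
      · exact Or.inr ⟨hB₀, hzB₀, hvB₀, h5⟩
    · rintro (⟨h1, h2, h3, _⟩ | ⟨h1, h2, h3, _⟩)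
      · exact huniq B ⟨h1, h2, h3⟩
      · exact huniq B ⟨h1, h2, h3⟩
  · rw [Set.disjoint_left]
    rintro B ⟨_, _, _, h⟩ ⟨_, _, _, h'⟩
    omega

theorem out_id {D : Set (Submodule F V)} (hD : IsFano D) {z : V} {X : Submodule F V} (hz : z ∉ X) :
    ((Fintype.card F : ℤ) - 1) * nbv D z X 1 + ((Fintype.card F : ℤ) ^ 2 - 1) * nbv D z X 2 =
      (Fintype.card F : ℤ) ^ finrank F X - 1 := by
  obtain ⟨P, hP⟩ := B2_P X
  have h1 := B2_dc D X z 1 P hP
  have h2 := B2_dc D X z 2 P hP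
  have h4 : ∀ v ∈ P, (({B | B ∈ D ∧ z ∈ B ∧ v ∈ B ∧ finrank F (B ⊓ X : Submodule F V) = 1}.ncard : ℕ) : ℤ) +
      (({B | B ∈ D ∧ z ∈ B ∧ v ∈ B ∧ finrank F (B ⊓ X : Submodule F V) = 2}.ncard : ℕ) : ℤ) = 1 := by
    intro v hv
    rw [hP] at hv
    have h5 := B2_split hD X hz hv.1 hv.2
    exact_mod_cast h5.symm
  have h5 := Finset.sum_congr (rfl : P = P) h4
  rw [Finset.sum_add_distrib, h1, h2, Finset.sum_const, nsmul_eq_mul,
    B2_nz X P hP, pow_one] at h5
  linarith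

theorem one_line {D : Set (Submodule F V)} (hD : IsFano D) {z : V} {X : Submodule F V} (hz : z ∉ X)
    (hX : finrank F X ≤ 3) : nbv D z X 2 ≤ 1 := by
  classical
  haveI : Finite (Submodule F V) := B2_finSub
  have hz0 : z ≠ 0 := fun h => hz (h ▸ X.zero_mem)
  unfold nbv
  rw [Set.ncard_le_one_iff]
  rintro B B' ⟨hB, hzB, h2⟩ ⟨hB', hzB', h2'⟩
  have h3 := Submodule.finrank_sup_add_finrank_inf_eq (B ⊓ X) (B' ⊓ X)
  have h4 : finrank F ((B ⊓ X) ⊔ (B' ⊓ X) : Submodule F V) ≤ finrank F X :=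
    Submodule.finrank_mono (sup_le inf_le_right inf_le_right)
  have h5 : 0 < finrank F ((B ⊓ X) ⊓ (B' ⊓ X) : Submodule F V) := by omega
  rw [Module.finrank_pos_iff_exists_ne_zero] at h5
  obtain ⟨⟨w, hw⟩, hw0⟩ := h5
  have hw0' : w ≠ 0 := fun h => hw0 (Subtype.ext h)
  obtain ⟨B₀, _, huniq⟩ := pairB hD hz0 (B2_span hz hw.1.2 hw0')
  rw [huniq B ⟨hB, hzB, hw.1.1⟩, huniq B' ⟨hB', hzB', hw.2.1⟩]

end Pool.Agent.LibQF86
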