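import Pool.Agent.LibQF86.B1
import Pool.Agent.LibQF86.B2

/-!
[QF86 B3] `u` diagonalisable, `a ≠ b`, `z ∈ Eg u b`, `z ≠ 0`. A block `B ∋ z` with `dim (B ⊓ Eg u a) = 1` contains the line spanned by `z` and a vector of `B ⊓ Eg u a`, both eigenvectors, so it is invariant (`inv_block`), and by `eg_sum` the dimensions of the `B ⊓ Eg u c` add up to `3`; `1` for `c = a`, `≥ 1` for `c = b`.
So either `dim (B ⊓ Eg u b) = 2`, and `B` contains `q ^ 2 - q` vectors of `Eg u b` outside `span {z}`, or `dim (B ⊓ Eg u c) = 1` for exactly one `c ≠ a, b`, and `B` contains `q - 1` nonzero vectors of `Eg u c`. All these vectors are different for different `B` (they are not in `span {z}`; `pairB`).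
So with `m₁` blocks of the first kind and `m₂` of the second: `(q ^ 2 - q) m₁ ≤ q ^ (n_b) - q`, `(q - 1) m₂ ≤ ∑_(c ≠ a, b) (q ^ (n_c) - 1)`, and `(q - 1) m₁ ≤ q ^ (n_b - 1) - 1`.
-/

open Module Polynomial

namespace Pool.Agent.LibQF86

variable {F V : Type} [Field F] [Fintype F] [AddCommGroup V] [Module F V] [Finite V] [FiniteDimensional F V]

private theorem B3_cardF [Fintype V] [DecidableEq V] (Z : Submodule F V) [DecidablePred (fun v : V => v ∈ Z)] :
    (Finset.univ.filter fun v : V => v ∈ Z).card = Fintype.card F ^ finrank F Z := by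
  rw [← card_pow Z, Nat.card_eq_fintype_card, ← Fintype.card_subtype]

private theorem B3_cov {D : Set (Submodule F V)} (hD : IsFano D) {z : V} (hz0 : z ≠ 0) (S : Finset (Submodule F V))
    (hS : ∀ B ∈ S, B ∈ D ∧ z ∈ B) (X : Submodule F V) :
    ∑ B ∈ S, ((Fintype.card F : ℤ) ^ finrank F (B ⊓ X : Submodule F V) -
      (Fintype.card F : ℤ) ^ finrank F (Submodule.span F {z} ⊓ X : Submodule F V)) ≤
      (Fintype.card F : ℤ) ^ finrank F X -
        (Fintype.card F : ℤ) ^ finrank F (Submodule.span F {z} ⊓ X : Submodule F V) := by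
  classical
  haveI : Fintype V := Fintype.ofFinite V
  have key : ∀ Y : Submodule F V, Submodule.span F {z} ≤ Y →
      (((Finset.univ.filter fun v : V => v ∈ Y ⊓ X ∧ v ∉ Submodule.span F {z}).card : ℕ) : ℤ) =
        (Fintype.card F : ℤ) ^ finrank F (Y ⊓ X : Submodule F V) -
          (Fintype.card F : ℤ) ^ finrank F (Submodule.span F {z} ⊓ X : Submodule F V) := by
    intro Y hY
    have h1 := Finset.card_filter_add_card_filter_not (s := Finset.univ.filter fun v : V => v ∈ Y ⊓ X)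
      (p := fun v : V => v ∈ Submodule.span F {z})
    rw [Finset.filter_filter, Finset.filter_filter, B3_cardF (Y ⊓ X)] at h1
    have h2 : (Finset.univ.filter fun v : V => v ∈ Y ⊓ X ∧ v ∈ Submodule.span F {z}) =
        Finset.univ.filter fun v : V => v ∈ Submodule.span F {z} ⊓ X := by
      ext v
      simp only [Finset.mem_filter, Finset.mem_univ, true_and, Submodule.mem_inf]
      constructor
      · rintro ⟨⟨h3, h4⟩, h5⟩
        exact ⟨h5, h4⟩
      · rintro ⟨h5, h4⟩
        exact ⟨⟨hY h5, h4⟩, h5⟩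
    rw [h2, B3_cardF] at h1
    have h3 : ((Fintype.card F ^ finrank F (Submodule.span F {z} ⊓ X : Submodule F V) +
      (Finset.univ.filter fun v : V => v ∈ Y ⊓ X ∧ v ∉ Submodule.span F {z}).card : ℕ) : ℤ) =
        ((Fintype.card F ^ finrank F (Y ⊓ X : Submodule F V) : ℕ) : ℤ) := by rw [h1]
    push_cast at h3
    linarith
  have h1 : ∑ B ∈ S, ((Fintype.card F : ℤ) ^ finrank F (B ⊓ X : Submodule F V) -
      (Fintype.card F : ℤ) ^ finrank F (Submodule.span F {z} ⊓ X : Submodule F V)) =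
      ∑ B ∈ S, (((Finset.univ.filter fun v : V => v ∈ B ⊓ X ∧ v ∉ Submodule.span F {z}).card : ℕ) : ℤ) := by
    refine Finset.sum_congr rfl fun B hB => ?_
    rw [key B]
    rw [Submodule.span_singleton_le_iff_mem]
    exact (hS B hB).2
  have h2 := key ⊤ le_top
  rw [top_inf_eq] at h2
  rw [h1, ← h2, ← Nat.cast_sum, Nat.cast_le, ← Finset.card_biUnion]
  · refine Finset.card_le_card ?_
    intro v hv
    simp only [Finset.mem_biUnion, Finset.mem_filter, Finset.mem_univ, true_and, Submodule.mem_inf] at hv ⊢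
    obtain ⟨B, hB, ⟨h3, h4⟩, h5⟩ := hv
    exact ⟨h4, h5⟩
  · intro B hB B' hB' hne
    rw [Function.onFun, Finset.disjoint_left]
    intro v hv hv'
    simp only [Finset.mem_filter, Finset.mem_univ, true_and, Submodule.mem_inf] at hv hv'
    obtain ⟨C, _, hC⟩ := pairB hD hz0 hv.2
    have e1 := hC B ⟨(hS B hB).1, (hS B hB).2, hv.1.1⟩
    have e2 := hC B' ⟨(hS B' hB').1, (hS B' hB').2, hv'.1.1⟩
    exact hne (e1.trans e2.symm)

private theorem B3_bern {q : ℤ} (hq : 1 ≤ q) (n : ℕ) : (n : ℤ) * (q - 1) ≤ q ^ n - 1 := by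
  have h := one_add_mul_le_pow (a := q - 1) (by linarith) n
  have e : (1 + (q - 1)) = q := by ring
  rw [e] at h
  linarith

private theorem B3_dims {D : Set (Submodule F V)} (hD : IsFano D) {u : V ≃ₗ[F] V} (hp : Pres D u) (hu : Diag u) {a b : F}
    (hab : a ≠ b) {z : V} (hz : z ∈ Eg u b) (hz0 : z ≠ 0) {B : Submodule F V} (hB : B ∈ D) (hzB : z ∈ B)
    (h1 : finrank F (B ⊓ Eg u a : Submodule F V) = 1) [DecidableEq F] :
    1 ≤ finrank F (B ⊓ Eg u b : Submodule F V) ∧
      finrank F (B ⊓ Eg u b : Submodule F V) +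
        ∑ c ∈ (Finset.univ.erase a).erase b, finrank F (B ⊓ Eg u c : Submodule F V) = 2 := by
  have hL : Submodule.span F {z} ≤ Eg u b := by
    rw [Submodule.span_singleton_le_iff_mem]; exact hz
  have hLB : Submodule.span F {z} ≤ B := by
    rw [Submodule.span_singleton_le_iff_mem]; exact hzB
  have hL1 : finrank F (Submodule.span F {z} : Submodule F V) = 1 := finrank_span_singleton hz0
  have hT : Inv u (Submodule.span F {z} ⊔ (B ⊓ Eg u a)) :=
    inv_sup (eg_inv hL) (eg_inv inf_le_right)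
  have h0 : (Submodule.span F {z} ⊓ (B ⊓ Eg u a) : Submodule F V) = ⊥ := by
    rw [eq_bot_iff, ← eg_disj (u := u) hab.symm]
    exact inf_le_inf hL inf_le_right
  have h2 := Submodule.finrank_sup_add_finrank_inf_eq (Submodule.span F {z}) (B ⊓ Eg u a)
  rw [h0, finrank_bot, hL1, h1] at h2
  have hI : Inv u B := inv_block hD hp hT (by omega) hB (sup_le hLB inf_le_left)
  have h3 := eg_sum hu hI
  rw [hD.three B hB, ← Finset.add_sum_erase Finset.univ _ (Finset.mem_univ a), h1,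
    ← Finset.add_sum_erase (Finset.univ.erase a) _ (Finset.mem_erase.2 ⟨hab.symm, Finset.mem_univ b⟩)] at h3
  constructor
  · rw [← hL1]
    exact Submodule.finrank_mono (le_inf hLB hL)
  · omega

theorem few {D : Set (Submodule F V)} (hD : IsFano D) {u : V ≃ₗ[F] V} (hp : Pres D u) (hu : Diag u) {a b : F}
    (hab : a ≠ b) {z : V} (hz : z ∈ Eg u b) (hz0 : z ≠ 0) [DecidableEq F] :
    ((Fintype.card F : ℤ) - 1) * nbv D z (Eg u a) 1 ≤
      (Fintype.card F : ℤ) ^ (finrank F (Eg u b) - 1) - 1 +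
        ∑ c ∈ (Finset.univ.erase a).erase b, ((Fintype.card F : ℤ) ^ finrank F (Eg u c) - 1) := by
  classical
  haveI : Finite (Submodule F V) := Finite.of_injective (fun X : Submodule F V => (X : Set V)) SetLike.coe_injective
  have hfin : {B | B ∈ D ∧ z ∈ B ∧ finrank F (B ⊓ Eg u a : Submodule F V) = 1}.Finite := Set.toFinite _
  obtain ⟨S, hSm, hSc⟩ : ∃ S : Finset (Submodule F V),
      (∀ B, B ∈ S ↔ B ∈ D ∧ z ∈ B ∧ finrank F (B ⊓ Eg u a : Submodule F V) = 1) ∧ nbv D z (Eg u a) 1 = S.card := by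
    refine ⟨hfin.toFinset, fun B => ?_, ?_⟩
    · rw [Set.Finite.mem_toFinset]; rfl
    · rw [nbv, Set.ncard_eq_toFinset_card _ hfin]
  obtain ⟨q, hq⟩ : ∃ q : ℤ, q = (Fintype.card F : ℤ) := ⟨_, rfl⟩
  have hq2 : (2 : ℤ) ≤ q := by
    rw [hq]; exact_mod_cast two_le_q (F := F)
  have hL : Submodule.span F {z} ≤ Eg u b := by
    rw [Submodule.span_singleton_le_iff_mem]; exact hz
  have hL1 : finrank F (Submodule.span F {z} : Submodule F V) = 1 := finrank_span_singleton hz0
  have hS : ∀ B ∈ S, B ∈ D ∧ z ∈ B := fun B hB => ⟨((hSm B).1 hB).1, ((hSm B).1 hB).2.1⟩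
  have hb := B3_cov hD hz0 S hS (Eg u b)
  rw [inf_eq_left.2 hL, hL1, ← hq] at hb
  have hc : ∀ c ∈ (Finset.univ.erase a).erase b,
      ∑ B ∈ S, (q ^ finrank F (B ⊓ Eg u c : Submodule F V) - 1) ≤ q ^ finrank F (Eg u c) - 1 := by
    intro c hc
    have hcb : c ≠ b := (Finset.mem_erase.1 hc).1
    have h1 := B3_cov hD hz0 S hS (Eg u c)
    have h0 : (Submodule.span F {z} ⊓ Eg u c : Submodule F V) = ⊥ := by
      rw [eq_bot_iff, ← eg_disj (u := u) hcb.symm]
      exact inf_le_inf hL le_rfl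
    rw [h0, finrank_bot, pow_zero, ← hq] at h1
    exact h1
  have hc2 := Finset.sum_le_sum hc
  rw [Finset.sum_comm] at hc2
  have hB : ∀ B ∈ S, q * (q - 1) ≤ (q ^ finrank F (B ⊓ Eg u b : Submodule F V) - q ^ 1) +
      q * ∑ c ∈ (Finset.univ.erase a).erase b, (q ^ finrank F (B ⊓ Eg u c : Submodule F V) - 1) := by
    intro B hB
    obtain ⟨hBD, hzB, hB1⟩ := (hSm B).1 hB
    obtain ⟨h1, h2⟩ := B3_dims hD hp hu hab hz hz0 hBD hzB hB1
    have h3 : ∑ c ∈ (Finset.univ.erase a).erase b, ((finrank F (B ⊓ Eg u c : Submodule F V) : ℕ) : ℤ) * (q - 1) ≤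
        ∑ c ∈ (Finset.univ.erase a).erase b, (q ^ finrank F (B ⊓ Eg u c : Submodule F V) - 1) :=
      Finset.sum_le_sum fun c _ => B3_bern (by linarith) _
    rw [← Finset.sum_mul] at h3
    obtain ⟨k, hk⟩ := Nat.exists_eq_add_of_le h1
    have h4 := B3_bern (q := q) (by linarith) k
    have h5 : (∑ c ∈ (Finset.univ.erase a).erase b, ((finrank F (B ⊓ Eg u c : Submodule F V) : ℕ) : ℤ)) = 1 - k := by
      have h6 : ((finrank F (B ⊓ Eg u b : Submodule F V) +
        ∑ c ∈ (Finset.univ.erase a).erase b, finrank F (B ⊓ Eg u c : Submodule F V) : ℕ) : ℤ) = ((2 : ℕ) : ℤ) := by rw [h2]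
      rw [hk] at h6
      push_cast at h6
      linarith
    rw [h5] at h3
    rw [hk, pow_add]
    nlinarith [mul_le_mul_of_nonneg_left h3 (by linarith : (0 : ℤ) ≤ q), mul_le_mul_of_nonneg_left h4 (by linarith : (0 : ℤ) ≤ q)]
  have hB2 := Finset.sum_le_sum hB
  rw [Finset.sum_const, nsmul_eq_mul, Finset.sum_add_distrib, ← Finset.mul_sum] at hB2
  have hnb : 1 ≤ finrank F (Eg u b) := by
    rw [← hL1]
    exact Submodule.finrank_mono hL
  obtain ⟨k, hk⟩ := Nat.exists_eq_add_of_le hnb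
  rw [hSc, ← hq]
  rw [hk] at hb ⊢
  rw [Nat.add_sub_cancel_left]
  rw [pow_add] at hb
  have hfin2 : q * ((q - 1) * (S.card : ℤ)) ≤
      q * (q ^ k - 1 + ∑ c ∈ (Finset.univ.erase a).erase b, (q ^ finrank F (Eg u c) - 1)) := by
    nlinarith [mul_le_mul_of_nonneg_left hc2 (by linarith : (0 : ℤ) ≤ q)]
  exact le_of_mul_le_mul_left hfin2 (by linarith)

end Pool.Agent.LibQF86
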