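import Pool.Agent.LibQF86.B1
import Pool.Agent.LibQF86.B2

/-!
[QF86 B4] Blocks with `dim (B ⊓ Eg u a) = 2`. Such a block is invariant (`inv_block`, `eg_inv`), and by `eg_sum` it meets exactly one other eigenspace, in dimension `1`. So it contains exactly `q - 1` nonzero vectors `z` of the other eigenspaces:
`(q - 1) nb D (Eg u a) 2 = ∑_(b ≠ a) ∑_(z ∈ Eg u b, z ≠ 0) nbv D z (Eg u a) 2`. `many` follows with the bound `m`. `many4`: `m = (q ^ n - 1) / (q ^ 2 - 1)` from `out_id` (written without division). `many3`: `m = 1` (`one_line`).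
-/

open Module Polynomial

namespace Pool.Agent.LibQF86

variable {F V : Type} [Field F] [Fintype F] [AddCommGroup V] [Module F V] [Finite V] [FiniteDimensional F V]

private theorem B4_card_nz [Fintype V] [DecidableEq V] (X : Submodule F V) [DecidablePred (fun z : V => z ∈ X ∧ z ≠ 0)] :
    ((Finset.univ.filter (fun z : V => z ∈ X ∧ z ≠ 0)).card : ℤ) = (Fintype.card F : ℤ) ^ finrank F X - 1 := by
  classical
  have h1 : (Finset.univ.filter (fun z : V => z ∈ X)).card = Fintype.card F ^ finrank F X := by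
    rw [← card_pow X, Nat.card_eq_fintype_card, ← Fintype.card_subtype]
  have h2 : Finset.univ.filter (fun z : V => z ∈ X ∧ z ≠ 0) =
      (Finset.univ.filter (fun z : V => z ∈ X)).erase 0 := by
    ext z
    simp only [Finset.mem_filter, Finset.mem_univ, true_and, Finset.mem_erase]
    tauto
  have h3 : (0 : V) ∈ Finset.univ.filter (fun z : V => z ∈ X) := by simp
  have h4 := Finset.card_erase_add_one h3
  rw [← h2, h1] at h4
  have h5 : ((Finset.univ.filter (fun z : V => z ∈ X ∧ z ≠ 0)).card : ℤ) + 1 = (Fintype.card F : ℤ) ^ finrank F X := by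
    exact_mod_cast h4
  linarith

private theorem B4_other {D : Set (Submodule F V)} (hD : IsFano D) {u : V ≃ₗ[F] V} (hp : Pres D u) (hu : Diag u) (a : F)
    {B : Submodule F V} (hB : B ∈ D) (h2 : finrank F (B ⊓ Eg u a : Submodule F V) = 2) :
    ∃ b : F, b ≠ a ∧ 1 ≤ finrank F (B ⊓ Eg u b : Submodule F V) := by
  classical
  have hi : Inv u B := inv_block hD hp (eg_inv (a := a) (X := B ⊓ Eg u a) inf_le_right) (le_of_eq h2.symm) hB inf_le_left
  have hs := eg_sum hu hi
  rw [hD.three B hB, ← Finset.add_sum_erase Finset.univ _ (Finset.mem_univ a), h2] at hs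
  by_contra hc
  push Not at hc
  have h0 : ∑ b ∈ Finset.univ.erase a, finrank F (B ⊓ Eg u b : Submodule F V) = 0 := by
    apply Finset.sum_eq_zero
    intro b hb
    have := hc b (Finset.ne_of_mem_erase hb)
    omega
  omega

private theorem B4_count {D : Set (Submodule F V)} (hD : IsFano D) {u : V ≃ₗ[F] V} (hp : Pres D u) (hu : Diag u) (a : F)
    [DecidableEq F] (f : ℤ) (m : ℤ) (hf : 0 ≤ f)
    (hm : ∀ b, b ≠ a → ∀ z ∈ Eg u b, z ≠ 0 → f * (nbv D z (Eg u a) 2 : ℤ) ≤ m) :
    f * (((Fintype.card F : ℤ) - 1) * nb D (Eg u a) 2) ≤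
      (∑ b ∈ Finset.univ.erase a, ((Fintype.card F : ℤ) ^ finrank F (Eg u b) - 1)) * m := by
  classical
  have : Fintype V := Fintype.ofFinite V
  have hfs : Finite (Submodule F V) := Finite.of_injective (fun X : Submodule F V => (X : Set V)) SetLike.coe_injective
  have : Fintype (Submodule F V) := Fintype.ofFinite _
  set S : Finset (Submodule F V) :=
    Finset.univ.filter (fun B => B ∈ D ∧ finrank F (B ⊓ Eg u a : Submodule F V) = 2) with hS
  set Z : Finset V := (Finset.univ.erase a).biUnion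
    (fun b => Finset.univ.filter (fun z : V => z ∈ Eg u b ∧ z ≠ 0)) with hZ
  have hnb : nb D (Eg u a) 2 = S.card := by
    unfold nb
    rw [← Set.ncard_coe_finset]
    congr 1
    ext B
    simp [hS]
  have hZc : (Z.card : ℤ) = ∑ b ∈ Finset.univ.erase a, ((Fintype.card F : ℤ) ^ finrank F (Eg u b) - 1) := by
    rw [hZ, Finset.card_biUnion]
    · push_cast
      apply Finset.sum_congr rfl
      intro b _
      exact B4_card_nz (Eg u b)
    · intro b _ c _ hbc
      refine Finset.disjoint_left.2 ?_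
      intro z hz hz'
      simp only [Finset.mem_filter, Finset.mem_univ, true_and] at hz hz'
      have h0 : z ∈ (⊥ : Submodule F V) := by
        rw [← eg_disj (u := u) hbc]
        exact ⟨hz.1, hz'.1⟩
      exact hz.2 ((Submodule.mem_bot F).1 h0)
  have hq : 1 ≤ (Fintype.card F : ℤ) := by
    have := two_le_q (F := F)
    have h2 : (2 : ℤ) ≤ Fintype.card F := by exact_mod_cast this
    linarith
  -- every block of S contains at least q - 1 elements of Z
  have hlow : ∀ B ∈ S, (Fintype.card F : ℤ) - 1 ≤ ((Z.filter (fun z => z ∈ B)).card : ℤ) := by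
    intro B hB
    simp only [hS, Finset.mem_filter, Finset.mem_univ, true_and] at hB
    obtain ⟨b, hba, hb1⟩ := B4_other hD hp hu a hB.1 hB.2
    have hsub : Finset.univ.filter (fun z : V => z ∈ (B ⊓ Eg u b : Submodule F V) ∧ z ≠ 0) ⊆
        Z.filter (fun z => z ∈ B) := by
      intro z hz
      simp only [Finset.mem_filter, Finset.mem_univ, true_and, Submodule.mem_inf] at hz
      simp only [hZ, Finset.mem_filter, Finset.mem_biUnion, Finset.mem_erase, Finset.mem_univ, true_and, and_true]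
      exact ⟨⟨b, hba, hz.1.2, hz.2⟩, hz.1.1⟩
    have hc := Finset.card_le_card hsub
    have hc' : ((Finset.univ.filter (fun z : V => z ∈ (B ⊓ Eg u b : Submodule F V) ∧ z ≠ 0)).card : ℤ) ≤
        ((Z.filter (fun z => z ∈ B)).card : ℤ) := by exact_mod_cast hc
    rw [B4_card_nz] at hc'
    have hpw : (Fintype.card F : ℤ) ^ 1 ≤ (Fintype.card F : ℤ) ^ finrank F (B ⊓ Eg u b : Submodule F V) :=
      pow_le_pow_right₀ hq hb1
    rw [pow_one] at hpw
    linarith
  have hnv : ∀ z : V, nbv D z (Eg u a) 2 = (S.filter (fun B => z ∈ B)).card := by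
    intro z
    unfold nbv
    rw [← Set.ncard_coe_finset]
    congr 1
    ext B
    simp only [hS, Set.mem_ofPred_eq, Finset.coe_filter, Finset.mem_filter, Finset.mem_univ, true_and]
    tauto
  have hdc : ∑ B ∈ S, ((Z.filter (fun z => z ∈ B)).card : ℤ) = ∑ z ∈ Z, ((S.filter (fun B => z ∈ B)).card : ℤ) := by
    have := Finset.sum_card_bipartiteAbove_eq_sum_card_bipartiteBelow (s := S) (t := Z) (fun (B : Submodule F V) (z : V) => z ∈ B)
    unfold Finset.bipartiteAbove Finset.bipartiteBelow at this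
    exact_mod_cast this
  have h1 : ((Fintype.card F : ℤ) - 1) * nb D (Eg u a) 2 ≤ ∑ z ∈ Z, (nbv D z (Eg u a) 2 : ℤ) := by
    have e1 : ∑ z ∈ Z, (nbv D z (Eg u a) 2 : ℤ) = ∑ z ∈ Z, ((S.filter (fun B => z ∈ B)).card : ℤ) := by
      apply Finset.sum_congr rfl
      intro z _
      rw [hnv z]
    rw [e1, ← hdc, hnb]
    have := Finset.sum_le_sum hlow
    rw [Finset.sum_const, nsmul_eq_mul] at this
    linarith [mul_comm ((Fintype.card F : ℤ) - 1) (S.card : ℤ)]
  have h2 : f * ∑ z ∈ Z, (nbv D z (Eg u a) 2 : ℤ) ≤ (Z.card : ℤ) * m := by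
    rw [Finset.mul_sum]
    have : ∀ z ∈ Z, f * (nbv D z (Eg u a) 2 : ℤ) ≤ m := by
      intro z hz
      simp only [hZ, Finset.mem_filter, Finset.mem_biUnion, Finset.mem_erase, Finset.mem_univ, true_and, and_true] at hz
      obtain ⟨b, hba, hzb, hz0⟩ := hz
      exact hm b hba z hzb hz0
    have h3 := Finset.sum_le_sum this
    rw [Finset.sum_const, nsmul_eq_mul] at h3
    exact h3
  rw [← hZc]
  exact le_trans (mul_le_mul_of_nonneg_left h1 hf) h2

theorem many {D : Set (Submodule F V)} (hD : IsFano D) {u : V ≃ₗ[F] V} (hp : Pres D u) (hu : Diag u) (a : F)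
    [DecidableEq F] (m : ℤ) (hm : ∀ b, b ≠ a → ∀ z ∈ Eg u b, z ≠ 0 → (nbv D z (Eg u a) 2 : ℤ) ≤ m) :
    ((Fintype.card F : ℤ) - 1) * nb D (Eg u a) 2 ≤
      (∑ b ∈ Finset.univ.erase a, ((Fintype.card F : ℤ) ^ finrank F (Eg u b) - 1)) * m := by
  have h := B4_count hD hp hu a 1 m zero_le_one (fun b hb z hz hz0 => by rw [one_mul]; exact hm b hb z hz hz0)
  rw [one_mul] at h
  exact h

theorem many4 {D : Set (Submodule F V)} (hD : IsFano D) {u : V ≃ₗ[F] V} (hp : Pres D u) (hu : Diag u) (a : F)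
    [DecidableEq F] :
    ((Fintype.card F : ℤ) ^ 2 - 1) * (((Fintype.card F : ℤ) - 1) * nb D (Eg u a) 2) ≤
      (∑ b ∈ Finset.univ.erase a, ((Fintype.card F : ℤ) ^ finrank F (Eg u b) - 1)) *
        ((Fintype.card F : ℤ) ^ finrank F (Eg u a) - 1) := by
  have hq : (2 : ℤ) ≤ Fintype.card F := by exact_mod_cast two_le_q (F := F)
  refine B4_count hD hp hu a _ _ (by nlinarith) ?_
  intro b hb z hz hz0
  have hza : z ∉ Eg u a := by
    intro h
    have h0 : z ∈ (⊥ : Submodule F V) := by
      rw [← eg_disj (u := u) hb]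
      exact ⟨hz, h⟩
    exact hz0 ((Submodule.mem_bot F).1 h0)
  have h := out_id hD hza
  have h1 : 0 ≤ ((Fintype.card F : ℤ) - 1) * nbv D z (Eg u a) 1 :=
    mul_nonneg (by linarith) (by positivity)
  linarith

end Pool.Agent.LibQF86
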