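import Pool.Agent.LibQF86.B4
import Pool.Agent.LibQF86.S4

/-!
[QF86 B5] Large eigenspaces, `q = card F`, `n = dim Eg u a ≤ 6` (`eg_lt`), the other dimensions have the sum `7 - n` (`eg_sum_top`). The sum `Σ = ∑_(b ≠ a) (q ^ (n_b) - 1)` is `≤ q ^ (7 - n) - 1` in general. `many4` and `S4`:
`n = 6`: `Σ = q - 1`: `(q ^ 4 + q ^ 2 + 1) q ^ 4 (q - 1) (q ^ 2 - 1) ≤ (q - 1) (q ^ 6 - 1)`, false. `n = 5`: `Σ ≤ q ^ 2 - 1`: `(q ^ 2 + 1) (q ^ 4 + q ^ 3) (q - 1) (q ^ 2 - 1) ≤ (q ^ 2 - 1) (q ^ 5 - 1)`, false.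
`n = 4`: if no other dimension is `3` then the others are `(2, 1)` or `(1, 1, 1)`, `Σ ≤ q ^ 2 + q - 2`: `q ^ 2 (q ^ 2 + q + 1) (q - 1) (q ^ 2 - 1) ≤ (q ^ 2 + q - 2) (q ^ 4 - 1)` (`dim4`: `nb 2 ≥ q ^ 2 (q ^ 2 + q + 1)`), false for `q ≥ 2`.
(For `Σ`: induct, or use `q ^ i - 1 + (q ^ j - 1) ≤ q ^ (i + j) - 1`.)
-/

open Module Polynomial

namespace Pool.Agent.LibQF86

variable {F V : Type} [Field F] [Fintype F] [AddCommGroup V] [Module F V] [Finite V] [FiniteDimensional F V]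

private theorem B5_sum {ι : Type} (s : Finset ι) (d : ι → ℕ) {Q : ℤ} (hQ : 1 ≤ Q) :
    ∑ b ∈ s, (Q ^ d b - 1) ≤ Q ^ (∑ b ∈ s, d b) - 1 := by
  classical
  induction s using Finset.induction_on with
  | empty => simp
  | insert b s hb ih =>
    rw [Finset.sum_insert hb, Finset.sum_insert hb, pow_add]
    have h1 : (1 : ℤ) ≤ Q ^ d b := one_le_pow₀ hQ
    have h2 : (1 : ℤ) ≤ Q ^ (∑ b ∈ s, d b) := one_le_pow₀ hQ
    nlinarith [mul_nonneg (sub_nonneg.2 h1) (sub_nonneg.2 h2)]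

private theorem B5_sum2 {ι : Type} [DecidableEq ι] (s : Finset ι) (d : ι → ℕ) {Q : ℤ} (hQ : 2 ≤ Q)
    (h3 : ∑ b ∈ s, d b = 3) (hd : ∀ b ∈ s, d b ≠ 3) :
    ∑ b ∈ s, (Q ^ d b - 1) ≤ Q ^ 2 + Q - 2 := by
  by_cases hex : ∃ b ∈ s, d b = 2
  · obtain ⟨b, hb, hb2⟩ := hex
    rw [← Finset.add_sum_erase s _ hb, hb2]
    rw [← Finset.add_sum_erase s _ hb, hb2] at h3
    have h4 : ∑ x ∈ s.erase b, d x = 1 := by omega
    have h5 := B5_sum (s.erase b) d (Q := Q) (by linarith)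
    rw [h4, pow_one] at h5
    linarith
  · push Not at hex
    have h1 : ∀ b ∈ s, d b ≤ 1 := by
      intro b hb
      have h4 : d b ≤ ∑ b ∈ s, d b := Finset.single_le_sum (fun _ _ => Nat.zero_le _) hb
      have h5 := hd b hb
      have h6 := hex b hb
      omega
    have h2 : ∀ b ∈ s, Q ^ d b - 1 = (Q - 1) * (d b : ℤ) := by
      intro b hb
      have h4 := h1 b hb
      interval_cases d b
      · norm_num
      · norm_num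
    rw [Finset.sum_congr rfl h2, ← Finset.mul_sum, ← Nat.cast_sum, h3]
    push_cast
    nlinarith

private theorem B5_rest [DecidableEq F] {D : Set (Submodule F V)} (hD : IsFano D) {u : V ≃ₗ[F] V}
    (hu : Diag u) (a : F) :
    finrank F (Eg u a) + ∑ b ∈ Finset.univ.erase a, finrank F (Eg u b) = 7 := by
  rw [Finset.add_sum_erase Finset.univ (fun b => finrank F (Eg u b)) (Finset.mem_univ a),
    eg_sum_top hu, hD.dim]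

private theorem B5_card : (2 : ℤ) ≤ (Fintype.card F : ℤ) := by
  exact_mod_cast Fintype.one_lt_card (α := F)

theorem le4 {D : Set (Submodule F V)} (hD : IsFano D) {u : V ≃ₗ[F] V} (hp : Pres D u) (hu : Diag u)
    (hn : NonScalar u) (a : F) : finrank F (Eg u a) ≤ 4 := by
  classical
  by_contra hcon
  have hlt := eg_lt hD hn a
  have hrest := B5_rest hD hu a
  have hQ : (2 : ℤ) ≤ (Fintype.card F : ℤ) := B5_card
  have hm := many4 hD hp hu a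
  have hs := B5_sum (Finset.univ.erase a) (fun b => finrank F (Eg u b)) (Q := (Fintype.card F : ℤ))
    (by linarith)
  have h56 : finrank F (Eg u a) = 5 ∨ finrank F (Eg u a) = 6 := by omega
  obtain ⟨Q, hQd⟩ : ∃ Q : ℤ, Q = (Fintype.card F : ℤ) := ⟨_, rfl⟩
  obtain ⟨S, hSd⟩ : ∃ S : ℤ, S = ∑ b ∈ Finset.univ.erase a, (Q ^ finrank F (Eg u b) - 1) := ⟨_, rfl⟩
  rw [← hQd] at hQ hm hs
  rw [← hSd] at hm
  have hs' : S ≤ Q ^ (∑ b ∈ Finset.univ.erase a, finrank F (Eg u b)) - 1 := by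
    rw [hSd]
    exact hs
  have hQ0 : (0 : ℤ) < Q := by linarith
  rcases h56 with h5 | h6
  · have hr : ∑ b ∈ Finset.univ.erase a, finrank F (Eg u b) = 2 := by omega
    have hnb : (nb D (Eg u a) 2 : ℤ) = (Q ^ 2 + 1) * (Q ^ 4 + Q ^ 3) := by
      rw [(dim5 hD h5).2, hQd]
      push_cast
      ring
    rw [hr] at hs'
    rw [hnb, h5] at hm
    have h1 : (0 : ℤ) ≤ Q ^ 5 - 1 := by
      have : (1 : ℤ) ≤ Q ^ 5 := one_le_pow₀ (by linarith)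
      linarith
    have h2 : S * (Q ^ 5 - 1) ≤ (Q ^ 2 - 1) * (Q ^ 5 - 1) := mul_le_mul_of_nonneg_right hs' h1
    have h3 : (Q ^ 2 - 1) * ((Q - 1) * ((Q ^ 2 + 1) * (Q ^ 4 + Q ^ 3))) ≤
        (Q ^ 2 - 1) * (Q ^ 5 - 1) := hm.trans h2
    have h4 : (0 : ℤ) < Q ^ 2 - 1 := by nlinarith
    have h6 := le_of_mul_le_mul_left h3 h4
    have h7 : (Q - 1) * ((Q ^ 2 + 1) * (Q ^ 4 + Q ^ 3)) = Q ^ 7 - Q ^ 3 := by ring
    rw [h7] at h6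
    have h8 : (4 : ℤ) ≤ Q ^ 2 := by nlinarith
    have h9 : (1 : ℤ) ≤ Q ^ 3 := one_le_pow₀ (by linarith)
    have h10 : Q ^ 5 = Q ^ 3 * Q ^ 2 := by ring
    have h11 : Q ^ 7 = Q ^ 3 * (Q ^ 2 * Q ^ 2) := by ring
    rw [h10, h11] at h6
    nlinarith [mul_nonneg (sub_nonneg.2 h9) (sub_nonneg.2 h8),
      mul_nonneg (mul_nonneg (by linarith : (0 : ℤ) ≤ Q ^ 3) (by linarith : (0 : ℤ) ≤ Q ^ 2))
        (sub_nonneg.2 h8)]
  · have hr : ∑ b ∈ Finset.univ.erase a, finrank F (Eg u b) = 1 := by omega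
    have hnb : (nb D (Eg u a) 2 : ℤ) = (Q ^ 4 + Q ^ 2 + 1) * Q ^ 4 := by
      rw [(dim6 hD h6).2, hQd]
      push_cast
      ring
    rw [hr, pow_one] at hs'
    rw [hnb, h6] at hm
    have h1 : (0 : ℤ) ≤ Q ^ 6 - 1 := by
      have : (1 : ℤ) ≤ Q ^ 6 := one_le_pow₀ (by linarith)
      linarith
    have h2 : S * (Q ^ 6 - 1) ≤ (Q - 1) * (Q ^ 6 - 1) := mul_le_mul_of_nonneg_right hs' h1
    have h3 := hm.trans h2
    have h4 : (0 : ℤ) < (Q ^ 2 - 1) * (Q - 1) * (Q ^ 4 + Q ^ 2 + 1) := by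
      have h5 : (0 : ℤ) < Q ^ 2 - 1 := by nlinarith
      have h5' : (0 : ℤ) < Q - 1 := by linarith
      positivity
    have h5 : (Q ^ 2 - 1) * (Q - 1) * (Q ^ 4 + Q ^ 2 + 1) * Q ^ 4 ≤
        (Q ^ 2 - 1) * (Q - 1) * (Q ^ 4 + Q ^ 2 + 1) * 1 := by
      calc (Q ^ 2 - 1) * (Q - 1) * (Q ^ 4 + Q ^ 2 + 1) * Q ^ 4 =
          (Q ^ 2 - 1) * ((Q - 1) * ((Q ^ 4 + Q ^ 2 + 1) * Q ^ 4)) := by ring
        _ ≤ (Q - 1) * (Q ^ 6 - 1) := h3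
        _ = (Q ^ 2 - 1) * (Q - 1) * (Q ^ 4 + Q ^ 2 + 1) * 1 := by ring
    have h7 := le_of_mul_le_mul_left h5 h4
    have h8 : (4 : ℤ) ≤ Q ^ 2 := by nlinarith
    have h9 : Q ^ 4 = Q ^ 2 * Q ^ 2 := by ring
    rw [h9] at h7
    nlinarith

theorem four {D : Set (Submodule F V)} (hD : IsFano D) {u : V ≃ₗ[F] V} (hp : Pres D u) (hu : Diag u)
    (hn : NonScalar u) (a : F) (ha : finrank F (Eg u a) = 4) : ∃ b, b ≠ a ∧ finrank F (Eg u b) = 3 := by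
  classical
  by_contra hcon
  push Not at hcon
  have hrest := B5_rest hD hu a
  have hQ : (2 : ℤ) ≤ (Fintype.card F : ℤ) := B5_card
  have hm := many4 hD hp hu a
  have h3 : ∑ b ∈ Finset.univ.erase a, finrank F (Eg u b) = 3 := by omega
  have hs := B5_sum2 (Finset.univ.erase a) (fun b => finrank F (Eg u b)) hQ h3
    (fun b hb => hcon b (Finset.ne_of_mem_erase hb))
  obtain ⟨hle, heq⟩ := dim4 hD ha
  have heqZ : (nb D (Eg u a) 2 : ℤ) +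
      ((Fintype.card F : ℤ) ^ 2 + (Fintype.card F : ℤ) + 1) * (nb D (Eg u a) 3 : ℤ) =
      ((Fintype.card F : ℤ) ^ 2 + 1) * ((Fintype.card F : ℤ) ^ 2 + (Fintype.card F : ℤ) + 1) := by
    exact_mod_cast heq
  have hleZ : (nb D (Eg u a) 3 : ℤ) ≤ 1 := by exact_mod_cast hle
  obtain ⟨Q, hQd⟩ : ∃ Q : ℤ, Q = (Fintype.card F : ℤ) := ⟨_, rfl⟩
  obtain ⟨S, hSd⟩ : ∃ S : ℤ, S = ∑ b ∈ Finset.univ.erase a, (Q ^ finrank F (Eg u b) - 1) := ⟨_, rfl⟩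
  obtain ⟨N, hN⟩ : ∃ N : ℤ, N = (nb D (Eg u a) 2 : ℤ) := ⟨_, rfl⟩
  obtain ⟨N3, hN3⟩ : ∃ N3 : ℤ, N3 = (nb D (Eg u a) 3 : ℤ) := ⟨_, rfl⟩
  rw [← hQd] at hQ hm hs heqZ
  rw [← hSd, ← hN, ha] at hm
  rw [← hN, ← hN3] at heqZ
  rw [← hN3] at hleZ
  have hs' : S ≤ Q ^ 2 + Q - 2 := by
    rw [hSd]
    exact hs
  have hQ1 : (0 : ℤ) < Q ^ 2 + Q + 1 := by positivity
  have hNge : Q ^ 2 * (Q ^ 2 + Q + 1) ≤ N := by
    have h1 : (Q ^ 2 + Q + 1) * N3 ≤ (Q ^ 2 + Q + 1) * 1 := mul_le_mul_of_nonneg_left hleZ hQ1.le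
    nlinarith
  have h4 : (0 : ℤ) ≤ Q ^ 4 - 1 := by
    have : (1 : ℤ) ≤ Q ^ 4 := one_le_pow₀ (by linarith)
    linarith
  have h5 : S * (Q ^ 4 - 1) ≤ (Q ^ 2 + Q - 2) * (Q ^ 4 - 1) := mul_le_mul_of_nonneg_right hs' h4
  have hp1 : (0 : ℤ) < Q ^ 2 - 1 := by nlinarith
  have hp2 : (0 : ℤ) < Q - 1 := by linarith
  have h6 : (Q ^ 2 - 1) * ((Q - 1) * (Q ^ 2 * (Q ^ 2 + Q + 1))) ≤ (Q ^ 2 - 1) * ((Q - 1) * N) :=
    mul_le_mul_of_nonneg_left (mul_le_mul_of_nonneg_left hNge hp2.le) hp1.le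
  have h7 : (Q ^ 2 - 1) * (Q - 1) * (Q ^ 2 * (Q ^ 2 + Q + 1)) ≤
      (Q ^ 2 - 1) * (Q - 1) * ((Q + 2) * (Q ^ 2 + 1)) := by
    calc (Q ^ 2 - 1) * (Q - 1) * (Q ^ 2 * (Q ^ 2 + Q + 1)) =
        (Q ^ 2 - 1) * ((Q - 1) * (Q ^ 2 * (Q ^ 2 + Q + 1))) := by ring
      _ ≤ (Q ^ 2 + Q - 2) * (Q ^ 4 - 1) := h6.trans (hm.trans h5)
      _ = (Q ^ 2 - 1) * (Q - 1) * ((Q + 2) * (Q ^ 2 + 1)) := by ring
  have h8 := le_of_mul_le_mul_left h7 (mul_pos hp1 hp2)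
  have h9 : (4 : ℤ) ≤ Q ^ 2 := by nlinarith
  nlinarith [mul_nonneg (by positivity : (0 : ℤ) ≤ Q ^ 2) (sub_nonneg.2 h9)]

end Pool.Agent.LibQF86
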