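import Pool.Agent.LibQF86.G1

/-!
[QF86 C1] `u ^ ℓ = 1`, `ℓ` prime, `ℓ ∤ q`. `free_dim`: `u` permutes the `q ^ n - 1` nonzero vectors of `X` without fixed points
(`Fx u ⊓ X = ⊥`), so `ℓ ∣ q ^ n - 1` (`Equiv.Perm.card_fixedPoints_modEq` for the permutation of `X`: `q ^ n ≡ 1` mod `ℓ`), `orderOf_dvd_of_pow_eq_one` in `ZMod ℓ`.
`fx_wx`: `ker (u - 1) ⊓ range (u - 1) = ⊥`: if `w = u v - v` and `u w = w` then `u ^ i v = v + i w`, so `ℓ w = 0`, `w = 0` (`(ℓ : F) ≠ 0`); dimensions add up to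
`finrank F V` (`LinearMap.finrank_range_add_finrank_ker`). `inv_split`: apply `fx_wx` to the restriction, or: the projection to `Fx u` along `Wx u` is
`(1/ℓ) ∑_(i < ℓ) u ^ i`, which maps `X` to `X`.
-/

open Module Polynomial

namespace Pool.Agent.LibQF86

variable {F V : Type} [Field F] [Fintype F] [AddCommGroup V] [Module F V] [Finite V] [FiniteDimensional F V]

omit [Fintype F] [Finite V] [FiniteDimensional F V] in
private theorem C1_fx {u : V ≃ₗ[F] V} {v : V} : v ∈ Fx u ↔ u v = v := by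
  unfold Fx
  rw [LinearMap.mem_ker, LinearMap.sub_apply, LinearMap.id_apply, sub_eq_zero]
  exact Iff.rfl

omit [Fintype F] [Finite V] [FiniteDimensional F V] in
private theorem C1_wx {u : V ≃ₗ[F] V} {v : V} : v ∈ Wx u ↔ ∃ w, u w - w = v := by
  unfold Wx
  rw [LinearMap.mem_range]
  rfl

omit [Fintype F] [Finite V] [FiniteDimensional F V] in
private theorem C1_pow_mem {u : V ≃ₗ[F] V} {X : Submodule F V} (hX : ∀ v ∈ X, u v ∈ X) (i : ℕ) (v : V)
    (hv : v ∈ X) : (u ^ i) v ∈ X := by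
  induction i with
  | zero => exact hv
  | succ i ih =>
    rw [pow_succ']
    exact hX _ ih

theorem free_dim {u : V ≃ₗ[F] V} {ℓ : ℕ} (hℓ : ℓ.Prime) (h : u ^ ℓ = 1) {X : Submodule F V} (hX : Inv u X)
    (h0 : X ⊓ Fx u = ⊥) : orderOf (Fintype.card F : ZMod ℓ) ∣ finrank F X := by
  classical
  have hX' := inv_iff.1 hX
  have : Fact ℓ.Prime := ⟨hℓ⟩
  have : Finite X := Subtype.finite
  let _ : Fintype X := Fintype.ofFinite X
  let f : Function.End X := fun x => ⟨u x, hX' x x.2⟩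
  have hpow : ∀ (i : ℕ) (x : X), (((f ^ i : Function.End X) x : X) : V) = (u ^ i) (x : V) := by
    intro i
    induction i with
    | zero => intro x; rfl
    | succ i ih =>
      intro x
      rw [pow_succ, pow_succ]
      exact ih (f x)
  have hf : f ^ ℓ ^ 1 = 1 := by
    funext x
    apply Subtype.ext
    rw [pow_one, hpow, h]
    rfl
  have h1 := Equiv.Perm.card_fixedPoints_modEq hf
  have h2 : Fintype.card (Function.fixedPoints f) = 1 := by
    rw [Fintype.card_eq_one_iff]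
    refine ⟨⟨0, ?_⟩, ?_⟩
    · apply Subtype.ext
      change u ((0 : X) : V) = ((0 : X) : V)
      rw [Submodule.coe_zero, map_zero]
    · rintro ⟨x, hx⟩
      apply Subtype.ext
      apply Subtype.ext
      have h3 : u (x : V) = x := congrArg Subtype.val hx
      have h4 : (x : V) ∈ X ⊓ Fx u := ⟨x.2, C1_fx.2 h3⟩
      rw [h0] at h4
      exact h4
  rw [h2] at h1
  have h5 : Fintype.card X = Fintype.card F ^ finrank F X := Module.card_eq_pow_finrank
  rw [h5] at h1
  apply orderOf_dvd_of_pow_eq_one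
  have h6 := (ZMod.natCast_eq_natCast_iff _ _ _).2 h1
  rw [Nat.cast_pow, Nat.cast_one] at h6
  exact h6

omit [Finite V] [FiniteDimensional F V] [AddCommGroup V] [Module F V] in
private theorem C1_cast {ℓ : ℕ} (hℓ : ℓ.Prime) (hq : ¬ ℓ ∣ Fintype.card F) : (ℓ : F) ≠ 0 := by
  intro h
  obtain ⟨p, hp⟩ := CharP.exists F
  obtain ⟨n, hpp, hn⟩ := FiniteField.card F p
  have h1 : p ∣ ℓ := (CharP.cast_eq_zero_iff F p ℓ).1 h
  have h2 : p = ℓ := (Nat.prime_dvd_prime_iff_eq hpp hℓ).1 h1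
  apply hq
  rw [hn, ← h2]
  exact dvd_pow_self p n.ne_zero

omit [Fintype F] [Finite V] [FiniteDimensional F V] in
private theorem C1_disj {u : V ≃ₗ[F] V} {ℓ : ℕ} (hl : (ℓ : F) ≠ 0) (h : u ^ ℓ = 1) :
    Disjoint (Fx u) (Wx u) := by
  rw [Submodule.disjoint_def]
  intro w hw hw'
  rw [C1_fx] at hw
  obtain ⟨v, hv⟩ := C1_wx.1 hw'
  have hi : ∀ i : ℕ, (u ^ i) v = v + (i : F) • w := by
    intro i
    induction i with
    | zero => rw [Nat.cast_zero, zero_smul, add_zero]; rfl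
    | succ i ih =>
      rw [pow_succ']
      change u ((u ^ i) v) = _
      rw [ih, map_add, map_smul, hw, Nat.cast_succ, add_smul, one_smul, ← hv]
      abel
  have h1 := hi ℓ
  rw [h] at h1
  have h2 : (ℓ : F) • w = 0 := by
    have h3 : v = v + (ℓ : F) • w := h1
    exact left_eq_add.1 h3
  exact (smul_eq_zero.1 h2).resolve_left hl

theorem fx_wx {u : V ≃ₗ[F] V} {ℓ : ℕ} (hℓ : ℓ.Prime) (hq : ¬ ℓ ∣ Fintype.card F) (h : u ^ ℓ = 1) :
    IsCompl (Fx u) (Wx u) := by
  have hd := C1_disj (C1_cast hℓ hq) h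
  refine ⟨hd, ?_⟩
  rw [codisjoint_iff]
  refine Submodule.eq_top_of_disjoint _ _ ?_ hd
  have h1 := LinearMap.finrank_range_add_finrank_ker ((u : V →ₗ[F] V) - LinearMap.id)
  unfold Fx Wx
  omega

theorem inv_of_le_fx {u : V ≃ₗ[F] V} {X : Submodule F V} (h : X ≤ Fx u) : Inv u X := by
  rw [inv_iff]
  intro v hv
  rw [C1_fx.1 (h hv)]
  exact hv

theorem inv_wx (u : V ≃ₗ[F] V) : Inv u (Wx u) := by
  rw [inv_iff]
  intro v hv
  obtain ⟨w, hw⟩ := C1_wx.1 hv
  exact C1_wx.2 ⟨u w, by rw [← hw, map_sub]⟩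

theorem inv_split {u : V ≃ₗ[F] V} {ℓ : ℕ} (hℓ : ℓ.Prime) (hq : ¬ ℓ ∣ Fintype.card F) (h : u ^ ℓ = 1)
    {X : Submodule F V} (hX : Inv u X) :
    (X ⊓ Fx u) ⊔ (X ⊓ Wx u) = X ∧
      finrank F X = finrank F (X ⊓ Fx u : Submodule F V) + finrank F (X ⊓ Wx u : Submodule F V) := by
  have hX' := inv_iff.1 hX
  have hl := C1_cast hℓ hq
  have hc := fx_wx hℓ hq h
  have h1 : (X ⊓ Fx u) ⊔ (X ⊓ Wx u) = X := by
    apply le_antisymm (sup_le inf_le_left inf_le_left)
    intro x hx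
    have hx' : x ∈ Fx u ⊔ Wx u := by
      rw [hc.sup_eq_top]
      exact Submodule.mem_top
    obtain ⟨a, ha, b, hb, hab⟩ := Submodule.mem_sup.1 hx'
    have hsa : ∑ i ∈ Finset.range ℓ, (u ^ i) a = (ℓ : F) • a := by
      have h2 : ∀ i : ℕ, (u ^ i) a = a := by
        intro i
        induction i with
        | zero => rfl
        | succ i ih =>
          rw [pow_succ']
          change u ((u ^ i) a) = a
          rw [ih]
          exact C1_fx.1 ha
      rw [Finset.sum_congr rfl fun i _ => h2 i, Finset.sum_const, Finset.card_range,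
        ← Nat.cast_smul_eq_nsmul F]
    have hsb : ∑ i ∈ Finset.range ℓ, (u ^ i) b = 0 := by
      obtain ⟨w, hw⟩ := C1_wx.1 hb
      have h2 : ∀ i : ℕ, (u ^ i) b = (u ^ (i + 1)) w - (u ^ i) w := by
        intro i
        rw [← hw, map_sub, pow_succ]
        rfl
      rw [Finset.sum_congr rfl fun i _ => h2 i, Finset.sum_range_sub (fun i => (u ^ i) w), h]
      exact sub_self w
    have hax : a ∈ X := by
      have h2 : ∑ i ∈ Finset.range ℓ, (u ^ i) x = (ℓ : F) • a := by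
        rw [← hab]
        simp only [map_add]
        rw [Finset.sum_add_distrib, hsa, hsb, add_zero]
      have h3 : (ℓ : F) • a ∈ X := by
        rw [← h2]
        exact Submodule.sum_mem _ fun i _ => C1_pow_mem hX' i x hx
      have h4 := X.smul_mem (ℓ : F)⁻¹ h3
      rwa [smul_smul, inv_mul_cancel₀ hl, one_smul] at h4
    have hbx : b ∈ X := by
      have h2 : b = x - a := by rw [← hab]; abel
      rw [h2]
      exact X.sub_mem hx hax
    exact Submodule.mem_sup.2 ⟨a, ⟨hax, ha⟩, b, ⟨hbx, hb⟩, hab⟩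
  refine ⟨h1, ?_⟩
  have h2 := Submodule.finrank_sup_add_finrank_inf_eq (X ⊓ Fx u) (X ⊓ Wx u)
  have h3 : (X ⊓ Fx u) ⊓ (X ⊓ Wx u) = ⊥ := by
    rw [eq_bot_iff]
    exact le_trans (inf_le_inf inf_le_right inf_le_right) hc.disjoint.le_bot
  rw [h1, h3, finrank_bot, add_zero] at h2
  exact h2

end Pool.Agent.LibQF86
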