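import Pool.Agent.LibQF86.S2

/-!
[QF86 C2] Subsystems. `X ≠ ⊤` and the block of every line (2-dimensional subspace) of `X` is in `X`. Let `x ∉ X`. For `v ∈ X`, `v ≠ 0`, the block through `v` and `x` meets
`X` only in `span {v}` (otherwise it contains a line `T` of `X`, so it is the block of `T`, `≤ X`, but `x ∉ X`). So the blocks through `x` contain pairwise different
points of `X`: `(q ^ n - 1) ≤ (q - 1) (q ^ 4 + q ^ 2 + 1)` (`card_through`), so `n ≤ 4`. `n = 2`: the block of `X` has dimension `3`. `n = 4`: `local_id` for `v ∈ X`: no block through `v`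
has `dim (B ⊓ X) = 2`, so `(q ^ 3 - q) m = q ^ 4 - q`, i.e. `(q ^ 2 - 1) m = q ^ 3 - 1`, `q ^ 2 - 1 ∣ q - 1`, contradiction (or: two blocks in a 4-space meet in a line). `n = 3`: the block of a line of `X` is `X`.
-/

open Module Polynomial

namespace Pool.Agent.LibQF86

variable {F V : Type} [Field F] [Fintype F] [AddCommGroup V] [Module F V] [Finite V] [FiniteDimensional F V]

omit [Fintype F] [FiniteDimensional F V] in
private theorem C2_finSub : Finite (Submodule F V) :=
  Finite.of_injective (fun X : Submodule F V => (X : Set V)) SetLike.coe_injective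

/-- the number of nonzero vectors of a subspace -/
private theorem C2_nz (Y : Submodule F V) (Q : Finset V) (hQ : ∀ v, v ∈ Q ↔ v ∈ Y ∧ v ≠ 0) :
    (Q.card : ℤ) = (Fintype.card F : ℤ) ^ finrank F Y - 1 := by
  classical
  have h0 : (0 : V) ∉ Q := fun h => ((hQ 0).1 h).2 rfl
  have h1 : ((insert 0 Q : Finset V) : Set V) = (Y : Set V) := by
    ext v
    simp only [Finset.coe_insert, Set.mem_insert_iff, Finset.mem_coe, SetLike.mem_coe, hQ]
    constructor
    · rintro (h | h)
      · rw [h]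
        exact Y.zero_mem
      · exact h.1
    · intro h
      by_cases hv : v = 0
      · exact Or.inl hv
      · exact Or.inr ⟨h, hv⟩
  have h2 : (insert 0 Q : Finset V).card = Nat.card Y := by
    rw [← Set.ncard_coe_finset, h1]
    rfl
  rw [Finset.card_insert_of_notMem h0, card_pow] at h2
  have h3 : ((Q.card : ℤ) + 1) = (Fintype.card F : ℤ) ^ finrank F Y := by exact_mod_cast h2
  linarith

private theorem C2_P (X : Submodule F V) : ∃ P : Finset V, ∀ v, v ∈ P ↔ v ∈ X ∧ v ≠ 0 :=
  ⟨(Set.toFinite {v : V | v ∈ X ∧ v ≠ 0}).toFinset, fun v => by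
    rw [Set.Finite.mem_toFinset]
    rfl⟩

private theorem C2_span {X : Submodule F V} {z x : V} (hz : z ∉ X) (hx : x ∈ X) (hx0 : x ≠ 0) :
    x ∉ Submodule.span F {z} := by
  intro h
  rw [Submodule.mem_span_singleton] at h
  obtain ⟨c, hc⟩ := h
  by_cases hc0 : c = 0
  · rw [hc0, zero_smul] at hc
    exact hx0 hc.symm
  · apply hz
    have : z = c⁻¹ • x := by
      rw [← hc, smul_smul, inv_mul_cancel₀ hc0, one_smul]
    rw [this]
    exact X.smul_mem _ hx

/-- no block meets `X` in a line -/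
private theorem C2_ne2 {D : Set (Submodule F V)} (hD : IsFano D) {X : Submodule F V}
    (h : ∀ T : Submodule F V, T ≤ X → finrank F T = 2 → ∀ B ∈ D, T ≤ B → B ≤ X)
    {B : Submodule F V} (hB : B ∈ D) : finrank F (B ⊓ X : Submodule F V) ≠ 2 := by
  intro h2
  have h3 := h (B ⊓ X) inf_le_right h2 B hB inf_le_left
  have h4 := (dim_inf hD (X := X) hB).2.2.2 h3
  omega

private theorem C2_count {D : Set (Submodule F V)} (hD : IsFano D) {X : Submodule F V} {z : V}
    (hz : z ∉ X) (h : ∀ T : Submodule F V, T ≤ X → finrank F T = 2 → ∀ B ∈ D, T ≤ B → B ≤ X) :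
    (Fintype.card F : ℤ) ^ finrank F X - 1 ≤
      ((Fintype.card F : ℤ) - 1) * ((Fintype.card F : ℤ) ^ 4 + (Fintype.card F : ℤ) ^ 2 + 1) := by
  classical
  haveI : Finite (Submodule F V) := C2_finSub
  have hz0 : z ≠ 0 := fun h => hz (h ▸ X.zero_mem)
  obtain ⟨P, hP⟩ := C2_P X
  have hex : ∀ v : V, ∃ B : Submodule F V, v ∈ P → (B ∈ D ∧ z ∈ B ∧ v ∈ B) := by
    intro v
    by_cases hv : v ∈ P
    · rw [hP] at hv
      obtain ⟨B₀, hB₀, _⟩ := pairB hD hz0 (C2_span hz hv.1 hv.2)
      exact ⟨B₀, fun _ => hB₀⟩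
    · exact ⟨⊥, fun h' => absurd h' hv⟩
  choose f hf using hex
  have hq := two_le_q (F := F)
  have hfib : ∀ B ∈ P.image f, (P.filter (fun v => f v = B)).card ≤ Fintype.card F - 1 := by
    intro B hB
    rw [Finset.mem_image] at hB
    obtain ⟨v₀, hv₀, rfl⟩ := hB
    have h1 := hf v₀ hv₀
    have h2 := dim_inf hD (X := X) h1.1
    have h3 : finrank F (f v₀ ⊓ X : Submodule F V) ≠ 3 := fun h' => hz (h2.2.2.1 h' h1.2.1)
    have h4 := C2_ne2 hD h h1.1
    have h5 : finrank F (f v₀ ⊓ X : Submodule F V) ≤ 1 := by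
      have := h2.2.1
      omega
    obtain ⟨Q, hQ⟩ := C2_P (f v₀ ⊓ X)
    have h6 := C2_nz _ Q hQ
    have h7 : (P.filter (fun v => f v = f v₀)) ⊆ Q := by
      intro v hv
      rw [Finset.mem_filter] at hv
      have h8 := hf v hv.1
      rw [hv.2] at h8
      have h9 := (hP v).1 hv.1
      exact (hQ v).2 ⟨⟨h8.2.2, h9.1⟩, h9.2⟩
    have h8 : (Q.card : ℤ) ≤ (Fintype.card F : ℤ) - 1 := by
      rw [h6]
      have h9 : (Fintype.card F : ℤ) ^ finrank F (f v₀ ⊓ X : Submodule F V) ≤
          (Fintype.card F : ℤ) ^ 1 :=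
        pow_le_pow_right₀ (by exact_mod_cast (by omega : 1 ≤ Fintype.card F)) h5
      rw [pow_one] at h9
      linarith
    have h9 := Finset.card_le_card h7
    omega
  have h1 := Finset.card_le_mul_card_image P (Fintype.card F - 1) hfib
  have h2 : (P.image f).card ≤ {B | B ∈ D ∧ z ∈ B}.ncard := by
    rw [← Set.ncard_coe_finset]
    apply Set.ncard_le_ncard _ (Set.toFinite _)
    intro B hB
    rw [Finset.mem_coe, Finset.mem_image] at hB
    obtain ⟨v, hv, rfl⟩ := hB
    exact ⟨(hf v hv).1, (hf v hv).2.1⟩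
  rw [card_through hD hz0] at h2
  have h3 := C2_nz X P hP
  rw [← h3]
  have h4 : P.card ≤ (Fintype.card F - 1) * (Fintype.card F ^ 4 + Fintype.card F ^ 2 + 1) :=
    le_trans h1 (Nat.mul_le_mul_left _ h2)
  have h5 : ((Fintype.card F - 1 : ℕ) : ℤ) = (Fintype.card F : ℤ) - 1 := by
    rw [Nat.cast_sub (by omega), Nat.cast_one]
  calc (P.card : ℤ) ≤ (((Fintype.card F - 1) * (Fintype.card F ^ 4 + Fintype.card F ^ 2 + 1) : ℕ) : ℤ) := by
        exact_mod_cast h4
    _ = ((Fintype.card F : ℤ) - 1) * ((Fintype.card F : ℤ) ^ 4 + (Fintype.card F : ℤ) ^ 2 + 1) := by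
        rw [Nat.cast_mul, h5]
        push_cast
        ring

theorem subsys {D : Set (Submodule F V)} (hD : IsFano D) {X : Submodule F V} (hX : X ≠ ⊤)
    (h : ∀ T : Submodule F V, T ≤ X → finrank F T = 2 → ∀ B ∈ D, T ≤ B → B ≤ X) :
    finrank F X = 0 ∨ finrank F X = 1 ∨ X ∈ D := by
  classical
  haveI : Finite (Submodule F V) := C2_finSub
  have hq := two_le_q (F := F)
  have hqz : (2 : ℤ) ≤ Fintype.card F := by exact_mod_cast hq
  obtain ⟨z, hz⟩ : ∃ z, z ∉ X := by
    by_contra hcon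
    push Not at hcon
    exact hX (Submodule.eq_top_iff'.2 hcon)
  have hcount := C2_count hD hz h
  have hle4 : finrank F X ≤ 4 := by
    by_contra hcon
    have h5 : (Fintype.card F : ℤ) ^ 5 ≤ (Fintype.card F : ℤ) ^ finrank F X :=
      pow_le_pow_right₀ (by linarith) (by omega)
    generalize (Fintype.card F : ℤ) = q at *
    have h6 : (q - 1) * (q ^ 4 + q ^ 2 + 1) = q ^ 5 - 1 - (q - 1) * (q ^ 3 + q) := by ring
    have h7 : 0 < (q - 1) * (q ^ 3 + q) := by
      have hq0 : 0 < q := by linarith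
      have hq1 : 0 < q - 1 := by linarith
      have hq3 : 0 < q ^ 3 + q := by positivity
      exact mul_pos hq1 hq3
    linarith
  by_cases h0 : finrank F X = 0
  · exact Or.inl h0
  by_cases h1 : finrank F X = 1
  · exact Or.inr (Or.inl h1)
  refine Or.inr (Or.inr ?_)
  obtain ⟨v, hv0⟩ : ∃ v : X, v ≠ 0 := by
    rw [← Module.finrank_pos_iff_exists_ne_zero (R := F)]
    omega
  have hv0' : (v : V) ≠ 0 := fun h' => hv0 (Subtype.ext h')
  have hloc := local_id hD hv0' v.2
  have hn2 : nbv D (v : V) X 2 = 0 := by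
    unfold nbv
    have : {B | B ∈ D ∧ (v : V) ∈ B ∧ finrank F (B ⊓ X : Submodule F V) = 2} =
        (∅ : Set (Submodule F V)) := by
      ext B
      simp only [Set.mem_setOf_eq, Set.mem_empty_iff_false, iff_false]
      rintro ⟨hB, _, h2⟩
      exact C2_ne2 hD h hB h2
    rw [this, Set.ncard_empty]
  rw [hn2] at hloc
  -- a block inside `X`
  have hn3 : 0 < nbv D (v : V) X 3 := by
    rcases Nat.eq_zero_or_pos (nbv D (v : V) X 3) with h3 | h3
    · exfalso
      rw [h3] at hloc
      have h5 : (Fintype.card F : ℤ) ^ 2 ≤ (Fintype.card F : ℤ) ^ finrank F X :=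
        pow_le_pow_right₀ (by linarith) (by omega)
      rw [Nat.cast_zero, mul_zero, mul_zero, add_zero] at hloc
      have h6 : 2 * (Fintype.card F : ℤ) ≤ (Fintype.card F : ℤ) ^ 2 := by
        rw [sq]
        exact mul_le_mul_of_nonneg_right hqz (by linarith)
      linarith
    · exact h3
  unfold nbv at hn3
  rw [Set.ncard_pos (Set.toFinite _)] at hn3
  obtain ⟨B, hB, hvB, hB3⟩ := hn3
  have hBX : B ≤ X := (dim_inf hD (X := X) hB).2.2.1 hB3
  have hdB := hD.three B hB
  have hd3 : 3 ≤ finrank F X := by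
    rw [← hdB]
    exact Submodule.finrank_mono hBX
  have hne4 : finrank F X ≠ 4 := by
    intro h4
    rw [h4] at hloc
    generalize (nbv D (v : V) X 3) = m at hloc
    generalize (Fintype.card F : ℤ) = q at *
    have h5 : (q * (q - 1)) * ((q + 1) * ((m : ℤ) - q)) = (q * (q - 1)) * 1 := by
      push_cast at hloc
      linear_combination hloc
    have h6 : q * (q - 1) ≠ 0 := by
      apply mul_ne_zero <;> intro h' <;> linarith
    have h7 := mul_left_cancel₀ h6 h5
    have h8 : (q + 1) ∣ 1 := ⟨_, h7.symm⟩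
    have h9 := Int.le_of_dvd one_pos h8
    linarith
  have hX3 : finrank F X = 3 := by omega
  have : B = X := Submodule.eq_of_le_of_finrank_eq hBX (by rw [hdB, hX3])
  rw [← this]
  exact hB

end Pool.Agent.LibQF86
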