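import Pool.Agent.LibQF86.C1
import Pool.Agent.LibQF86.S2

/-!
[QF86 C3] `u ^ ℓ = 1`, `ord_ℓ(q) = 2`: the fixed space is not a block. `q ^ 2 ≡ 1` mod `ℓ`, so the number of blocks through a vector `c ≠ 0` of `Fx u` is `≡ 3` mod `ℓ` (`card_through`, `mod_count`
with `S = {B ∈ D, c ∈ B}`), and `Fx u` is one of the invariant ones; `ℓ ≥ 3` (`ord_2(q) ≤ 1`). So there are `≥ 2` invariant blocks `B ≠ Fx u` through `c` (`ℓ = 3`: the number is `≡ 0` and `≥ 1`; `ℓ ≥ 5`: `≡ 3`).
For an invariant block `B ≠ Fx u`: `inv_split` and `free_dim` (`2 ∣ dim (B ⊓ Wx u)`): `dim (B ⊓ Fx u) = 1`, `dim (B ⊓ Wx u) = 2` (dimension 3 of `B ⊓ Fx u` means `B = Fx u`).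
Let `m` be the number of the invariant blocks `≠ Fx u`. Pairs `(c, B)`: `2 (q ^ 3 - 1) ≤ (q - 1) m`. Pairs `(w, B)`, `w ∈ B ⊓ Wx u`, `w ≠ 0`: every `w` is in at most one (an invariant subspace of `Wx u` which
contains `w` has even dimension, so `B ⊓ B'`, of dimension `≤ 1`, can not contain `w`: `(B ⊓ B') ⊓ Wx u` is invariant, dimension `≤ 1` and even): `(q ^ 2 - 1) m ≤ q ^ 4 - 1` (`dim Wx u = 4`). So `2 (q ^ 2 + q + 1) ≤ m ≤ q ^ 2 + 1`, contradiction.
-/

open Module Polynomial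

namespace Pool.Agent.LibQF86

variable {F V : Type} [Field F] [Fintype F] [AddCommGroup V] [Module F V] [Finite V] [FiniteDimensional F V]

open Classical in
private theorem C3_cnt [Fintype V] (X : Submodule F V) :
    (Finset.univ.filter fun v : V => v ∈ X ∧ v ≠ 0).card = Fintype.card F ^ finrank F X - 1 := by
  have h1 : (Finset.univ.filter fun v : V => v ∈ X ∧ v ≠ 0)
      = (Finset.univ.filter fun v : V => v ∈ X).erase 0 := by
    ext v
    simp [and_comm]
  have h2 : (Finset.univ.filter fun v : V => v ∈ X).card = Fintype.card F ^ finrank F X := by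
    rw [← card_pow X, Nat.card_eq_fintype_card, ← Fintype.card_subtype]
  rw [h1, Finset.card_erase_of_mem (by simp), h2]

private theorem C3_arith {q m : ℕ} (hq : 2 ≤ q) (h1 : (q ^ 3 - 1) * 2 ≤ m * (q - 1))
    (h2 : m * (q ^ 2 - 1) ≤ (q ^ 4 - 1) * 1) : False := by
  obtain ⟨a, rfl⟩ : ∃ a, q = a + 1 := ⟨q - 1, by omega⟩
  have e1 : (a + 1) ^ 3 - 1 = a * (a ^ 2 + 3 * a + 3) := by
    have : (a + 1) ^ 3 = a * (a ^ 2 + 3 * a + 3) + 1 := by ring
    omega
  have e2 : (a + 1) ^ 2 - 1 = a * (a + 2) := by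
    have : (a + 1) ^ 2 = a * (a + 2) + 1 := by ring
    omega
  have e3 : (a + 1) ^ 4 - 1 = a * (a + 2) * (a ^ 2 + 2 * a + 2) := by
    have : (a + 1) ^ 4 = a * (a + 2) * (a ^ 2 + 2 * a + 2) + 1 := by ring
    omega
  have ha : 0 < a := by omega
  rw [e1, Nat.add_sub_cancel] at h1
  rw [e2, e3, mul_one] at h2
  have h3 : (a ^ 2 + 3 * a + 3) * 2 ≤ m := by
    refine Nat.le_of_mul_le_mul_left ?_ ha
    calc a * ((a ^ 2 + 3 * a + 3) * 2) = a * (a ^ 2 + 3 * a + 3) * 2 := by ring
      _ ≤ m * a := h1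
      _ = a * m := mul_comm _ _
  have h4 : m ≤ a ^ 2 + 2 * a + 2 := by
    refine Nat.le_of_mul_le_mul_left ?_ (Nat.mul_pos ha (by omega : 0 < a + 2))
    calc a * (a + 2) * m = m * (a * (a + 2)) := mul_comm _ _
      _ ≤ _ := h2
  nlinarith

private theorem C3_even {u : V ≃ₗ[F] V} {ℓ : ℕ} (hℓ : ℓ.Prime)
    (hq : ¬ ℓ ∣ Fintype.card F) (h : u ^ ℓ = 1) (hd : orderOf (Fintype.card F : ZMod ℓ) = 2)
    {X : Submodule F V} (hX : Inv u X) (hW : X ≤ Wx u) : 2 ∣ finrank F X := by
  have h0 : X ⊓ Fx u = ⊥ := by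
    have := (fx_wx hℓ hq h).disjoint.eq_bot
    rw [eq_bot_iff, ← this]
    exact le_inf inf_le_right (inf_le_left.trans hW)
  have := free_dim hℓ h hX h0
  rwa [hd] at this

theorem ord2 {D : Set (Submodule F V)} (hD : IsFano D) {u : V ≃ₗ[F] V} (hu : Pres D u) {ℓ : ℕ} (hℓ : ℓ.Prime)
    (hq : ¬ ℓ ∣ Fintype.card F) (h : u ^ ℓ = 1) (hd : orderOf (Fintype.card F : ZMod ℓ) = 2) : Fx u ∉ D := by
  classical
  intro hF
  haveI : Fintype V := Fintype.ofFinite V
  haveI : Finite (Submodule F V) :=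
    Finite.of_injective (fun X : Submodule F V => (X : Set V)) SetLike.coe_injective
  haveI : Fintype (Submodule F V) := Fintype.ofFinite _
  have hcompl := fx_wx hℓ hq h
  have hF3 := hD.three _ hF
  have hW4 : finrank F (Wx u) = 4 := by
    have := Submodule.finrank_add_eq_of_isCompl hcompl
    rw [hD.dim, hF3] at this
    omega
  have hq2 : ((Fintype.card F : ℕ) : ZMod ℓ) ^ 2 = 1 := by
    rw [← hd]; exact pow_orderOf_eq_one _
  have hℓ2 : ℓ ≠ 2 := by
    rintro rfl
    have h1 : ((Fintype.card F : ℕ) : ZMod 2) = 1 := by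
      have h2 : Fintype.card F % 2 = 1 := by omega
      have h3 : ((Fintype.card F : ℕ) : ZMod 2) = ((1 : ℕ) : ZMod 2) :=
        (ZMod.natCast_eq_natCast_iff' _ _ 2).2 (by omega)
      rw [h3]; simp
    rw [h1, orderOf_one] at hd
    omega
  -- dimensions
  have hdim : ∀ B ∈ D, Inv u B → B ≠ Fx u →
      finrank F (B ⊓ Fx u : Submodule F V) = 1 ∧ finrank F (B ⊓ Wx u : Submodule F V) = 2 := by
    intro B hB hi hne
    have h1 := (inv_split hℓ hq h hi).2
    rw [hD.three B hB] at h1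
    have h2 : 2 ∣ finrank F (B ⊓ Wx u : Submodule F V) :=
      C3_even hℓ hq h hd (inv_inf hi (inv_wx u)) inf_le_right
    have h3 : finrank F (B ⊓ Fx u : Submodule F V) ≠ 3 := by
      intro h3
      have h4 : B ⊓ Fx u = B := Submodule.eq_of_le_of_finrank_eq inf_le_left
        (by rw [h3, hD.three B hB])
      have h5 : B ≤ Fx u := by rw [← h4]; exact inf_le_right
      exact hne (Submodule.eq_of_le_of_finrank_eq h5 (by rw [hD.three B hB, hF3]))
    omega
  set M : Finset (Submodule F V) := Finset.univ.filter fun B => (B ∈ D ∧ Inv u B) ∧ B ≠ Fx u with hM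
  have hMm : ∀ B ∈ M, (B ∈ D ∧ Inv u B) ∧ B ≠ Fx u := fun B hB => (Finset.mem_filter.1 hB).2
  -- first count
  have hc1 : (Fintype.card F ^ 3 - 1) * 2 ≤ M.card * (Fintype.card F - 1) := by
    have := Finset.card_mul_le_card_mul (s := Finset.univ.filter fun v : V => v ∈ Fx u ∧ v ≠ 0)
      (t := M) (r := fun c B => c ∈ B) (m := 2) (n := Fintype.card F - 1) ?_ ?_
    · rw [C3_cnt, hF3] at this
      exact this
    · intro c hc
      obtain ⟨hcF, hc0⟩ := (Finset.mem_filter.1 hc).2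
      have hmod := mod_count (u := u) (ℓ := ℓ) (a := 1) hℓ (by rw [pow_one]; exact h)
        {B | B ∈ D ∧ c ∈ B} (by
          rintro B ⟨hB, hcB⟩
          refine ⟨hu B hB, ?_⟩
          have h1 : u c = c := by
            have := hcF
            rw [Fx, LinearMap.mem_ker] at this
            exact sub_eq_zero.1 this
          exact ⟨c, hcB, h1⟩)
      rw [card_through hD hc0] at hmod
      set n := {B | B ∈ {B | B ∈ D ∧ c ∈ B} ∧ Inv u B}.ncard with hn
      have hn' : n = (Finset.univ.filter fun B : Submodule F V => (B ∈ D ∧ c ∈ B) ∧ Inv u B).card := by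
        rw [hn, Set.ncard_eq_toFinset_card']
        congr 1
        ext B
        simp
      have hmem : Fx u ∈ (Finset.univ.filter fun B : Submodule F V => (B ∈ D ∧ c ∈ B) ∧ Inv u B) := by
        refine Finset.mem_filter.2 ⟨Finset.mem_univ _, ⟨hF, hcF⟩, inv_of_le_fx le_rfl⟩
      have hsub : Finset.bipartiteAbove (fun c B => c ∈ B) M c
          = (Finset.univ.filter fun B : Submodule F V => (B ∈ D ∧ c ∈ B) ∧ Inv u B).erase (Fx u) := by
        ext B
        simp only [Finset.bipartiteAbove, hM, Finset.mem_filter, Finset.mem_univ, true_and,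
          Finset.mem_erase]
        tauto
      rw [hsub, Finset.card_erase_of_mem hmem, ← hn']
      have hn1 : 1 ≤ n := by
        rw [hn']; exact Finset.card_pos.2 ⟨_, hmem⟩
      have h3 : (3 : ℕ) ≡ n [MOD ℓ] := by
        have h4 := (ZMod.natCast_eq_natCast_iff _ _ ℓ).2 hmod
        refine (ZMod.natCast_eq_natCast_iff _ _ ℓ).1 ?_
        rw [← h4]
        push_cast
        have h5 : ((Fintype.card F : ℕ) : ZMod ℓ) ^ 4 = 1 := by
          calc ((Fintype.card F : ℕ) : ZMod ℓ) ^ 4 = (((Fintype.card F : ℕ) : ZMod ℓ) ^ 2) ^ 2 := by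
                ring
            _ = 1 := by rw [hq2, one_pow]
        rw [h5, hq2]
        norm_num
      by_contra hlt
      push Not at hlt
      have h6 : n ≤ 3 := by omega
      have h7 : ℓ ∣ 3 - n := (Nat.modEq_iff_dvd' h6).1 h3.symm
      have h8 := hℓ.two_le
      have h9 : 3 - n ≤ 2 ∧ 0 < 3 - n := by omega
      have h10 := Nat.le_of_dvd h9.2 h7
      exact hℓ2 (by omega)
    · intro B hB
      obtain ⟨⟨hBD, hi⟩, hne⟩ := hMm B hB
      have hsub : Finset.bipartiteBelow (fun c B => c ∈ B)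
          (Finset.univ.filter fun v : V => v ∈ Fx u ∧ v ≠ 0) B
          = Finset.univ.filter fun v : V => v ∈ B ⊓ Fx u ∧ v ≠ 0 := by
        ext v
        simp only [Finset.bipartiteBelow, Finset.mem_filter, Finset.mem_univ, true_and,
          Submodule.mem_inf]
        tauto
      rw [hsub, C3_cnt, (hdim B hBD hi hne).1, pow_one]
  -- second count
  have hc2 : M.card * (Fintype.card F ^ 2 - 1) ≤ (Fintype.card F ^ 4 - 1) * 1 := by
    have := Finset.card_mul_le_card_mul (s := M)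
      (t := Finset.univ.filter fun v : V => v ∈ Wx u ∧ v ≠ 0) (r := fun B w => w ∈ B)
      (m := Fintype.card F ^ 2 - 1) (n := 1) ?_ ?_
    · rw [C3_cnt, hW4] at this
      exact this
    · intro B hB
      obtain ⟨⟨hBD, hi⟩, hne⟩ := hMm B hB
      have hsub : Finset.bipartiteAbove (fun B w => w ∈ B)
          (Finset.univ.filter fun v : V => v ∈ Wx u ∧ v ≠ 0) B
          = Finset.univ.filter fun v : V => v ∈ B ⊓ Wx u ∧ v ≠ 0 := by
        ext v
        simp only [Finset.bipartiteAbove, Finset.mem_filter, Finset.mem_univ, true_and,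
          Submodule.mem_inf]
        tauto
      rw [hsub, C3_cnt, (hdim B hBD hi hne).2]
    · intro w hw
      obtain ⟨hwW, hw0⟩ := (Finset.mem_filter.1 hw).2
      rw [Finset.card_le_one]
      intro B hB B' hB'
      obtain ⟨hBM, hwB⟩ := Finset.mem_filter.1 hB
      obtain ⟨hBM', hwB'⟩ := Finset.mem_filter.1 hB'
      obtain ⟨⟨hBD, hi⟩, -⟩ := hMm B hBM
      obtain ⟨⟨hBD', hi'⟩, -⟩ := hMm B' hBM'
      by_contra hne
      have h1 := inf_le hD hBD hBD' hne
      have h2 : 2 ∣ finrank F ((B ⊓ B') ⊓ Wx u : Submodule F V) :=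
        C3_even hℓ hq h hd (inv_inf (inv_inf hi hi') (inv_wx u)) inf_le_right
      have h3 : finrank F ((B ⊓ B') ⊓ Wx u : Submodule F V) ≤ finrank F (B ⊓ B' : Submodule F V) :=
        Submodule.finrank_mono inf_le_left
      have h4 : finrank F ((B ⊓ B') ⊓ Wx u : Submodule F V) = 0 := by omega
      have h5 : ((B ⊓ B') ⊓ Wx u : Submodule F V) = ⊥ := Submodule.finrank_eq_zero.1 h4
      have h6 : w ∈ ((B ⊓ B') ⊓ Wx u : Submodule F V) := ⟨⟨hwB, hwB'⟩, hwW⟩
      rw [h5, Submodule.mem_bot] at h6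
      exact hw0 h6
  exact C3_arith two_le_q hc1 hc2

end Pool.Agent.LibQF86
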