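import Pool.Agent.LibQF86.S2

/-!
[QF86 S3] The global identities. `id1`: count the pairs `(v, B)`, `v ∈ X`, `v ≠ 0`, `v ∈ B ∈ D` (`card_through`). `id2`: sum `local_id` over the
`q ^ n - 1` vectors `v ∈ X`, `v ≠ 0`, and exchange the sums: a block with `dim (B ⊓ X) = j` is counted for `q ^ j - 1` vectors `v`
(`∑_v nbv D v X j = (q ^ j - 1) nb D X j`). `id0`: every block has `dim (B ⊓ X) = j` for exactly one `j ≤ 3`. `card_blocks`: `id1` for `X = ⊤`:
`(q ^ 3 - 1) b = (q ^ 7 - 1) (q ^ 4 + q ^ 2 + 1)`; cancel `q ^ 3 - 1` (`q ^ 4 + q ^ 2 + 1 = (q ^ 2 + q + 1) (q ^ 2 - q + 1)`).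
-/

open Module Polynomial

namespace Pool.Agent.LibQF86

variable {F V : Type} [Field F] [Fintype F] [AddCommGroup V] [Module F V] [Finite V] [FiniteDimensional F V]

omit [Fintype F] [FiniteDimensional F V] in
private theorem S3_finSub : Finite (Submodule F V) :=
  Finite.of_injective (fun X : Submodule F V => (X : Set V)) SetLike.coe_injective

/-- the number of nonzero vectors of a subspace -/
private theorem S3_nz (Y : Submodule F V) (Q : Finset V) (hQ : ∀ v, v ∈ Q ↔ v ∈ Y ∧ v ≠ 0) :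
    (Q.card : ℤ) = (Fintype.card F : ℤ) ^ finrank F Y - 1 := by
  classical
  have h0 : (0 : V) ∉ Q := fun h => ((hQ 0).1 h).2 rfl
  have h1 : ((insert 0 Q : Finset V) : Set V) = (Y : Set V) := by
    ext v
    simp only [Finset.coe_insert, Set.mem_insert_iff, Finset.mem_coe, SetLike.mem_coe, hQ]
    constructor
    · rintro (h | h)
      · rw [h]
        exact Y.zero_mem
      · exact h.1
    · intro h
      by_cases hv : v = 0
      · exact Or.inl hv
      · exact Or.inr ⟨h, hv⟩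
  have h2 : (insert 0 Q : Finset V).card = Nat.card Y := by
    rw [← Set.ncard_coe_finset, h1]
    rfl
  rw [Finset.card_insert_of_notMem h0, card_pow] at h2
  have h3 : ((Q.card : ℤ) + 1) = (Fintype.card F : ℤ) ^ finrank F Y := by exact_mod_cast h2
  linarith

/-- double counting of the pairs of a vector and a block -/
private theorem S3_dc (D : Set (Submodule F V)) (X : Submodule F V) (j : ℕ) (P : Finset V)
    (hP : ∀ v, v ∈ P ↔ v ∈ X ∧ v ≠ 0) :
    ∑ v ∈ P, (nbv D v X j : ℤ) = ((Fintype.card F : ℤ) ^ j - 1) * nb D X j := by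
  classical
  haveI : Finite (Submodule F V) := S3_finSub
  have hTfin : {B | B ∈ D ∧ finrank F (B ⊓ X : Submodule F V) = j}.Finite := Set.toFinite _
  have h := Finset.sum_card_bipartiteAbove_eq_sum_card_bipartiteBelow (s := P)
    (t := hTfin.toFinset) (fun (v : V) (B : Submodule F V) => v ∈ B)
  have h1 : ∀ v, (hTfin.toFinset.bipartiteAbove (fun (v : V) (B : Submodule F V) => v ∈ B) v).card =
      nbv D v X j := by
    intro v
    unfold nbv
    rw [← Set.ncard_coe_finset]
    congr 1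
    ext B
    simp only [Finset.bipartiteAbove, Finset.coe_filter, Set.Finite.mem_toFinset,
      Set.mem_setOf_eq]
    tauto
  have h2 : ∀ B ∈ hTfin.toFinset,
      ((P.bipartiteBelow (fun (v : V) (B : Submodule F V) => v ∈ B) B).card : ℤ) =
      (Fintype.card F : ℤ) ^ j - 1 := by
    intro B hB
    rw [Set.Finite.mem_toFinset] at hB
    rw [← hB.2]
    apply S3_nz
    intro v
    simp only [Finset.bipartiteBelow, Finset.mem_filter, hP, Submodule.mem_inf]
    tauto
  have h3 : (hTfin.toFinset.card : ℤ) = nb D X j := by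
    unfold nb
    rw [← Set.ncard_coe_finset, Set.Finite.coe_toFinset]
  have h4 : ((∑ v ∈ P, nbv D v X j : ℕ) : ℤ) = ∑ B ∈ hTfin.toFinset,
      ((P.bipartiteBelow (fun (v : V) (B : Submodule F V) => v ∈ B) B).card : ℤ) := by
    rw [← Nat.cast_sum, ← h]
    congr 1
    exact Finset.sum_congr rfl fun v _ => (h1 v).symm
  rw [Nat.cast_sum] at h4
  rw [h4, Finset.sum_congr rfl h2, Finset.sum_const, nsmul_eq_mul, h3]
  ring

private theorem S3_P (X : Submodule F V) : ∃ P : Finset V, ∀ v, v ∈ P ↔ v ∈ X ∧ v ≠ 0 :=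
  ⟨(Set.toFinite {v : V | v ∈ X ∧ v ≠ 0}).toFinset, fun v => by
    rw [Set.Finite.mem_toFinset]
    rfl⟩

private theorem S3_split {D : Set (Submodule F V)} (hD : IsFano D) (X : Submodule F V) {v : V}
    (hv : v ∈ X) (hv0 : v ≠ 0) :
    {B | B ∈ D ∧ v ∈ B}.ncard = nbv D v X 1 + nbv D v X 2 + nbv D v X 3 := by
  classical
  haveI : Finite (Submodule F V) := S3_finSub
  unfold nbv
  rw [← Set.ncard_union_eq, ← Set.ncard_union_eq]
  · congr 1
    ext B
    simp only [Set.mem_setOf_eq, Set.mem_union]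
    constructor
    · rintro ⟨hB, hvB⟩
      have h1 := (dim_inf hD (X := X) hB).2.1
      have h2 : 0 < finrank F (B ⊓ X : Submodule F V) := by
        rw [Module.finrank_pos_iff_exists_ne_zero]
        exact ⟨⟨v, hvB, hv⟩, fun h => hv0 (congrArg Subtype.val h)⟩
      have h3 : finrank F (B ⊓ X : Submodule F V) = 1 ∨ finrank F (B ⊓ X : Submodule F V) = 2 ∨
          finrank F (B ⊓ X : Submodule F V) = 3 := by omega
      tauto
    · tauto
  · rw [Set.disjoint_left]
    rintro B (⟨_, _, h⟩ | ⟨_, _, h⟩) ⟨_, _, h'⟩ <;> omega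
  · rw [Set.disjoint_left]
    rintro B ⟨_, _, h⟩ ⟨_, _, h'⟩
    omega

theorem id1 {D : Set (Submodule F V)} (hD : IsFano D) (X : Submodule F V) :
    ((Fintype.card F : ℤ) - 1) * nb D X 1 + ((Fintype.card F : ℤ) ^ 2 - 1) * nb D X 2 +
      ((Fintype.card F : ℤ) ^ 3 - 1) * nb D X 3 =
      ((Fintype.card F : ℤ) ^ finrank F X - 1) * ((Fintype.card F : ℤ) ^ 4 + (Fintype.card F : ℤ) ^ 2 + 1) := by
  obtain ⟨P, hP⟩ := S3_P X
  have h1 := S3_dc D X 1 P hP
  have h2 := S3_dc D X 2 P hP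
  have h3 := S3_dc D X 3 P hP
  have h4 : ∀ v ∈ P, ((nbv D v X 1 : ℤ) + nbv D v X 2 + nbv D v X 3) =
      (Fintype.card F : ℤ) ^ 4 + (Fintype.card F : ℤ) ^ 2 + 1 := by
    intro v hv
    rw [hP] at hv
    have h5 := card_through hD hv.2
    rw [S3_split hD X hv.1 hv.2] at h5
    exact_mod_cast h5
  have h5 := Finset.sum_congr (rfl : P = P) h4
  rw [Finset.sum_add_distrib, Finset.sum_add_distrib, h1, h2, h3, Finset.sum_const, nsmul_eq_mul,
    S3_nz X P hP, pow_one] at h5
  exact h5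

theorem id2 {D : Set (Submodule F V)} (hD : IsFano D) (X : Submodule F V) :
    ((Fintype.card F : ℤ) ^ 2 - 1) * ((Fintype.card F : ℤ) ^ 2 - Fintype.card F) * nb D X 2 +
      ((Fintype.card F : ℤ) ^ 3 - 1) * ((Fintype.card F : ℤ) ^ 3 - Fintype.card F) * nb D X 3 =
      ((Fintype.card F : ℤ) ^ finrank F X - 1) * ((Fintype.card F : ℤ) ^ finrank F X - Fintype.card F) := by
  obtain ⟨P, hP⟩ := S3_P X
  have h2 := S3_dc D X 2 P hP
  have h3 := S3_dc D X 3 P hP
  have h4 : ∀ v ∈ P, ((Fintype.card F : ℤ) ^ 2 - Fintype.card F) * nbv D v X 2 +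
      ((Fintype.card F : ℤ) ^ 3 - Fintype.card F) * nbv D v X 3 =
      (Fintype.card F : ℤ) ^ finrank F X - Fintype.card F := by
    intro v hv
    rw [hP] at hv
    exact local_id hD hv.2 hv.1
  have h5 := Finset.sum_congr (rfl : P = P) h4
  rw [Finset.sum_add_distrib, ← Finset.mul_sum, ← Finset.mul_sum, h2, h3, Finset.sum_const,
    nsmul_eq_mul, S3_nz X P hP] at h5
  linarith

theorem id0 {D : Set (Submodule F V)} (hD : IsFano D) (X : Submodule F V) :
    nb D X 0 + nb D X 1 + nb D X 2 + nb D X 3 = D.ncard := by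
  classical
  haveI : Finite (Submodule F V) := S3_finSub
  unfold nb
  rw [← Set.ncard_union_eq, ← Set.ncard_union_eq, ← Set.ncard_union_eq]
  · congr 1
    ext B
    simp only [Set.mem_setOf_eq, Set.mem_union]
    constructor
    · tauto
    · intro hB
      have h1 := (dim_inf hD (X := X) hB).2.1
      have h3 : finrank F (B ⊓ X : Submodule F V) = 0 ∨ finrank F (B ⊓ X : Submodule F V) = 1 ∨
          finrank F (B ⊓ X : Submodule F V) = 2 ∨
          finrank F (B ⊓ X : Submodule F V) = 3 := by omega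
      tauto
  · rw [Set.disjoint_left]
    rintro B ((⟨_, h⟩ | ⟨_, h⟩) | ⟨_, h⟩) ⟨_, h'⟩ <;> omega
  · rw [Set.disjoint_left]
    rintro B (⟨_, h⟩ | ⟨_, h⟩) ⟨_, h'⟩ <;> omega
  · rw [Set.disjoint_left]
    rintro B ⟨_, h⟩ ⟨_, h'⟩
    omega

/-- the number of blocks -/
theorem card_blocks {D : Set (Submodule F V)} (hD : IsFano D) :
    (D.ncard : ℤ) = ((Fintype.card F : ℤ) ^ 6 + (Fintype.card F : ℤ) ^ 5 + (Fintype.card F : ℤ) ^ 4 + (Fintype.card F : ℤ) ^ 3 +
      (Fintype.card F : ℤ) ^ 2 + (Fintype.card F : ℤ) + 1) * ((Fintype.card F : ℤ) ^ 2 - (Fintype.card F : ℤ) + 1) := by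
  have hin : ∀ B : Submodule F V, B ⊓ ⊤ = B := fun B => inf_top_eq B
  have h1 : nb D ⊤ 1 = 0 := by
    unfold nb
    have : {B | B ∈ D ∧ finrank F (B ⊓ ⊤ : Submodule F V) = 1} = (∅ : Set (Submodule F V)) := by
      ext B
      simp only [Set.mem_setOf_eq, Set.mem_empty_iff_false, iff_false]
      rintro ⟨hB, h⟩
      rw [hin, hD.three B hB] at h
      omega
    rw [this, Set.ncard_empty]
  have h2 : nb D ⊤ 2 = 0 := by
    unfold nb
    have : {B | B ∈ D ∧ finrank F (B ⊓ ⊤ : Submodule F V) = 2} = (∅ : Set (Submodule F V)) := by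
      ext B
      simp only [Set.mem_setOf_eq, Set.mem_empty_iff_false, iff_false]
      rintro ⟨hB, h⟩
      rw [hin, hD.three B hB] at h
      omega
    rw [this, Set.ncard_empty]
  have h3 : nb D ⊤ 3 = D.ncard := by
    unfold nb
    congr 1
    ext B
    simp only [Set.mem_setOf_eq]
    constructor
    · exact fun h => h.1
    · intro hB
      exact ⟨hB, by rw [hin]; exact hD.three B hB⟩
  have h4 := id1 hD (⊤ : Submodule F V)
  rw [h1, h2, h3, finrank_top, hD.dim] at h4
  have hq : (2 : ℤ) ≤ Fintype.card F := by exact_mod_cast two_le_q (F := F)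
  generalize (Fintype.card F : ℤ) = q at h4 hq ⊢
  have hne : q ^ 3 - 1 ≠ 0 := by
    have : (1 : ℤ) < q ^ 3 := by nlinarith [sq_nonneg q, mul_pos (by linarith : (0:ℤ) < q) (by linarith : (0:ℤ) < q)]
    omega
  apply mul_left_cancel₀ hne
  linear_combination h4

end Pool.Agent.LibQF86
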