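import Pool.Agent.LibQF86.C1
import Pool.Agent.LibQF86.S3

/-!
[QF86 C4] `ord_ℓ(q) = 3`, `dim Fx u = 1`: at least three invariant blocks, all in `Wx u`. `mod_count` with `S = D`: the number `m` of the invariant blocks is `≡ b` mod `ℓ`, and
`q ^ 2 + q + 1 ≡ 0` mod `ℓ` (`q ^ 3 = 1`, `q ≠ 1` in `ZMod ℓ`), so by `card_blocks` `b ≡ q ^ 6 (-2 q) = -2 q` mod `ℓ`. `m = 0`: `2 q = 0` in `ZMod ℓ`, `ℓ = 2` (`ℓ ∤ q`), but `ord_2(q) ≤ 1`.
`m = 1`: `2 q = -1`, `4 (q ^ 2 + q + 1) = (2 q) ^ 2 + 2 (2 q) + 4 = 3 = 0`, `ℓ = 3`, but `ord_3(q) ≤ 2`. `m = 2`: `q = -1` (`ℓ ≠ 2`), `q ^ 2 + q + 1 = 1 = 0`. For an invariant block: `inv_split`, `free_dim`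
(`3 ∣ dim (B ⊓ Wx u)`, `dim (B ⊓ Fx u) ≤ 1`): `dim (B ⊓ Wx u) = 3`.
-/

open Module Polynomial

namespace Pool.Agent.LibQF86

variable {F V : Type} [Field F] [Fintype F] [AddCommGroup V] [Module F V] [Finite V] [FiniteDimensional F V]

private theorem C4_two : ∀ Q : ZMod 2, Q ^ 3 = 1 → Q = 1 := by decide

private theorem C4_three : ∀ Q : ZMod 3, Q ^ 3 = 1 → Q = 1 := by decide

private theorem C4_arith {ℓ : ℕ} (hℓ : ℓ.Prime) {Q : ZMod ℓ} (hd : orderOf Q = 3) {m : ℕ}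
    (hm : (m : ZMod ℓ) = (Q ^ 6 + Q ^ 5 + Q ^ 4 + Q ^ 3 + Q ^ 2 + Q + 1) * (Q ^ 2 - Q + 1)) : 3 ≤ m := by
  haveI : Fact ℓ.Prime := ⟨hℓ⟩
  have h3 : Q ^ 3 = 1 := by
    rw [← hd]
    exact pow_orderOf_eq_one Q
  have h1 : Q ≠ 1 := by
    intro h
    rw [h, orderOf_one] at hd
    omega
  have h0 : Q ^ 2 + Q + 1 = 0 := by
    have h4 : (Q - 1) * (Q ^ 2 + Q + 1) = 0 := by linear_combination h3
    exact (mul_eq_zero.1 h4).resolve_left (sub_ne_zero.2 h1)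
  have hQ0 : Q ≠ 0 := by
    rintro rfl
    rw [zero_pow (by norm_num)] at h3
    exact zero_ne_one h3
  have h2 : (2 : ZMod ℓ) ≠ 0 := by
    intro h
    have hdvd : ℓ ∣ 2 := by
      rw [← ZMod.natCast_eq_zero_iff]
      exact_mod_cast h
    have hl : ℓ = 2 := (Nat.prime_dvd_prime_iff_eq hℓ Nat.prime_two).1 hdvd
    subst hl
    exact h1 (C4_two Q h3)
  have hm' : (m : ZMod ℓ) = -(2 * Q) := by
    rw [hm]
    linear_combination ((Q ^ 3 + 1) * (Q ^ 2 - Q + 1)) * h3 + ((Q ^ 3 + 1) * (Q ^ 2 - Q + 1) + 1) * h0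
  by_contra hlt
  have hc : m = 0 ∨ m = 1 ∨ m = 2 := by omega
  rcases hc with rfl | rfl | rfl
  · rw [Nat.cast_zero] at hm'
    have h5 : 2 * Q = 0 := by linear_combination hm'
    rcases mul_eq_zero.1 h5 with h6 | h6
    · exact h2 h6
    · exact hQ0 h6
  · rw [Nat.cast_one] at hm'
    have h5 : (3 : ZMod ℓ) = 0 := by linear_combination 4 * h0 - (2 * Q + 1) * hm'
    have hdvd : ℓ ∣ 3 := by
      rw [← ZMod.natCast_eq_zero_iff]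
      exact_mod_cast h5
    have hl : ℓ = 3 := (Nat.prime_dvd_prime_iff_eq hℓ Nat.prime_three).1 hdvd
    subst hl
    exact h1 (C4_three Q h3)
  · have h5 : 2 * (Q + 1) = 0 := by
      rw [Nat.cast_ofNat] at hm'
      linear_combination hm'
    rcases mul_eq_zero.1 h5 with h6 | h6
    · exact h2 h6
    · have h7 : Q = -1 := by linear_combination h6
      rw [h7] at h0
      have h8 : (1 : ZMod ℓ) = 0 := by linear_combination h0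
      exact one_ne_zero h8

theorem three_blocks {D : Set (Submodule F V)} (hD : IsFano D) {u : V ≃ₗ[F] V} (hu : Pres D u) {ℓ : ℕ}
    (hℓ : ℓ.Prime) (hq : ¬ ℓ ∣ Fintype.card F) (h : u ^ ℓ = 1) (hd : orderOf (Fintype.card F : ZMod ℓ) = 3)
    (h1 : finrank F (Fx u) = 1) :
    ∃ B₁ ∈ D, ∃ B₂ ∈ D, ∃ B₃ ∈ D, B₁ ≠ B₂ ∧ B₁ ≠ B₃ ∧ B₂ ≠ B₃ ∧ Inv u B₁ ∧ Inv u B₂ ∧ Inv u B₃ ∧
      B₁ ≤ Wx u ∧ B₂ ≤ Wx u ∧ B₃ ≤ Wx u := by
  have hm := mod_count (u := u) (a := 1) hℓ (by rw [pow_one]; exact h) D hu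
  have hcard := card_blocks hD
  have hm2 : ({B | B ∈ D ∧ Inv u B}.ncard : ZMod ℓ) = (D.ncard : ZMod ℓ) :=
    ((ZMod.natCast_eq_natCast_iff _ _ _).2 hm).symm
  have hc2 : (D.ncard : ZMod ℓ) = ((Fintype.card F : ZMod ℓ) ^ 6 + (Fintype.card F : ZMod ℓ) ^ 5 +
      (Fintype.card F : ZMod ℓ) ^ 4 + (Fintype.card F : ZMod ℓ) ^ 3 + (Fintype.card F : ZMod ℓ) ^ 2 +
      (Fintype.card F : ZMod ℓ) + 1) * ((Fintype.card F : ZMod ℓ) ^ 2 - (Fintype.card F : ZMod ℓ) + 1) := by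
    have h4 := congrArg (Int.cast : ℤ → ZMod ℓ) hcard
    push_cast at h4
    exact h4
  rw [hc2] at hm2
  have h3 := C4_arith hℓ hd hm2
  have key : ∀ B, B ∈ D → Inv u B → B ≤ Wx u := by
    intro B hB hi
    obtain ⟨-, hs⟩ := inv_split hℓ hq h hi
    rw [hD.three B hB] at hs
    have hF : finrank F (B ⊓ Fx u : Submodule F V) ≤ 1 := by
      rw [← h1]
      exact Submodule.finrank_mono inf_le_right
    have hdv := free_dim hℓ h (inv_inf hi (inv_wx u)) (X := B ⊓ Wx u) (by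
      rw [inf_assoc, inf_comm (Wx u), (fx_wx hℓ hq h).inf_eq_bot, inf_bot_eq])
    rw [hd] at hdv
    have hW : finrank F (B ⊓ Wx u : Submodule F V) = 3 := by omega
    exact (dim_inf hD hB).2.2.1 hW
  obtain ⟨B₁, B₂, B₃, ⟨hB1, hi1⟩, ⟨hB2, hi2⟩, ⟨hB3, hi3⟩, h12, h13, h23⟩ :=
    (Set.two_lt_ncard_iff (Set.toFinite {B | B ∈ D ∧ Inv u B})).1 (by omega)
  exact ⟨B₁, hB1, B₂, hB2, B₃, hB3, h12, h13, h23, hi1, hi2, hi3, key B₁ hB1 hi1, key B₂ hB2 hi2, key B₃ hB3 hi3⟩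

end Pool.Agent.LibQF86
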