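import Pool.Agent.LibQF86.C1

/-!
[QF86 C5] Linear algebra (no design). Three invariant 3-dimensional subspaces of `Wx u`, pairwise with intersection `⊥`, `dim V = 7`, `dim Fx u = 1`, `ord_ℓ(q) = 3`: `u` has a polynomial `(X - 1) g`, `g` irreducible of degree `3`.
Take `x ∈ B₁`, `x ≠ 0`. `x, u x, u ^ 2 x` are independent (the span of the `u ^ i x` is invariant, in `B₁ ≤ Wx u`, so its dimension is divisible by `3` (`free_dim`), so it is `B₁`); `g` monic of degree `3` with `g(u) x = 0`; `g(u) = 0` on `B₁` (`g(u) u ^ i x = 0`).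
Irreducible: a root `a` gives `g = (X - a) f`, `y = f(u) x ≠ 0` (independence), `u y = a y`, `span {y}` is invariant of dimension `1` in `Wx u`, contradiction to `free_dim`; `Polynomial.irreducible_of_degree_le_three_of_not_isRoot` or similar.
`Wx u = B₁ ⊕ B₂` (dimension `6`), and `B₃` is the graph of an isomorphism: every `z ∈ B₃` is `z = z₁ + z₂`, and `z ↦ z₁`, `z ↦ z₂` are injective (`B₃ ⊓ B₂ = ⊥`, `B₃ ⊓ B₁ = ⊥`), so bijective `B₃ → B₁`, `B₃ → B₂`. `g(u) z = g(u) z₁ + g(u) z₂ = g(u) z₂ ∈ B₂ ⊓ B₃ = ⊥`,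
so `g(u) z₂ = 0` for all `z₂ ∈ B₂`. So `g(u) = 0` on `Wx u`, and `u - 1 = 0` on `Fx u`, `(u - 1) V = Wx u`.
-/

open Module Polynomial

namespace Pool.Agent.LibQF86

variable {F V : Type} [Field F] [Fintype F] [AddCommGroup V] [Module F V] [Finite V] [FiniteDimensional F V]

omit [Fintype F] [Finite V] [FiniteDimensional F V] in
private theorem C5_restrict (U : V →ₗ[F] V) {B : Submodule F V} (hB : ∀ x ∈ B, U x ∈ B)
    (p : F[X]) (x : B) : ((aeval (U.restrict hB) p x : B) : V) = aeval U p (x : V) := by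
  induction p using Polynomial.induction_on' with
  | add p q hp hq => simp only [map_add, LinearMap.add_apply, Submodule.coe_add, hp, hq]
  | monomial n a =>
    rw [aeval_monomial, aeval_monomial, Module.End.mul_apply, Module.End.mul_apply,
      Module.algebraMap_end_apply, Module.algebraMap_end_apply, Submodule.coe_smul]
    congr 1
    induction n with
    | zero => rfl
    | succ n ih =>
      rw [pow_succ', pow_succ', Module.End.mul_apply, Module.End.mul_apply, ← ih]
      rfl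

omit [Fintype F] [Finite V] [FiniteDimensional F V] in
private theorem C5_mem (U : V →ₗ[F] V) {B : Submodule F V} (hB : ∀ x ∈ B, U x ∈ B)
    (p : F[X]) {x : V} (hx : x ∈ B) : aeval U p x ∈ B := by
  rw [← C5_restrict U hB p ⟨x, hx⟩]
  exact Subtype.property _

theorem cubic {u : V ≃ₗ[F] V} {ℓ : ℕ} (hℓ : ℓ.Prime) (hq : ¬ ℓ ∣ Fintype.card F) (h : u ^ ℓ = 1)
    (hd : orderOf (Fintype.card F : ZMod ℓ) = 3) (h7 : finrank F V = 7) (h1 : finrank F (Fx u) = 1)
    {B₁ B₂ B₃ : Submodule F V} (d1 : finrank F B₁ = 3) (d2 : finrank F B₂ = 3) (d3 : finrank F B₃ = 3)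
    (i1 : Inv u B₁) (i2 : Inv u B₂) (i3 : Inv u B₃) (w1 : B₁ ≤ Wx u) (w2 : B₂ ≤ Wx u) (w3 : B₃ ≤ Wx u)
    (h12 : B₁ ⊓ B₂ = ⊥) (h13 : B₁ ⊓ B₃ = ⊥) (h23 : B₂ ⊓ B₃ = ⊥) :
    ∃ g : F[X], Irreducible g ∧ g.natDegree = 3 ∧ aeval (u : V →ₗ[F] V) ((X - 1) * g) = 0 := by
  obtain ⟨U, hU⟩ : ∃ U : V →ₗ[F] V, U = (u : V →ₗ[F] V) := ⟨_, rfl⟩
  have hUu : ∀ x, U x = u x := fun x => by rw [hU]; rfl
  have hc := fx_wx hℓ hq h
  have h6 : finrank F (Wx u) = 6 := by
    have := Submodule.finrank_add_eq_of_isCompl hc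
    omega
  have hmaps : ∀ {B : Submodule F V}, Inv u B → ∀ x ∈ B, U x ∈ B := by
    intro B hB x hx
    have h2 : U x ∈ B.map (u : V →ₗ[F] V) := by
      rw [hU]
      exact Submodule.mem_map_of_mem hx
    rw [hB] at h2
    exact h2
  -- no eigenvectors in `Wx u`
  have hsmall : ∀ y ∈ Wx u, ∀ a : F, U y = a • y → y = 0 := by
    intro y hy a hya
    by_contra hy0
    have ha : a ≠ 0 := by
      intro ha
      rw [ha, zero_smul, hUu] at hya
      exact hy0 (u.map_eq_zero_iff.1 hya)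
    have hinv : Inv u (Submodule.span F {y}) := by
      unfold Inv
      rw [Submodule.map_span, Set.image_singleton, ← hU, hya]
      exact Submodule.span_singleton_smul_eq (isUnit_iff_ne_zero.2 ha) y
    have hbot : Submodule.span F {y} ⊓ Fx u = ⊥ := by
      rw [eq_bot_iff, ← hc.inf_eq_bot, inf_comm (Fx u) (Wx u)]
      refine inf_le_inf_right _ ?_
      rw [Submodule.span_singleton_le_iff_mem]
      exact hy
    have h2 := free_dim hℓ h hinv hbot
    rw [hd, finrank_span_singleton hy0] at h2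
    omega
  let R : B₁ →ₗ[F] B₁ := U.restrict (hmaps i1)
  have hdeg : R.charpoly.natDegree = 3 := by
    rw [LinearMap.charpoly_natDegree, d1]
  refine ⟨R.charpoly, ?_, hdeg, ?_⟩
  · rw [Polynomial.Monic.irreducible_iff_roots_eq_zero_of_degree_le_three
      (LinearMap.charpoly_monic R) (by omega) (by omega)]
    rw [Multiset.eq_zero_iff_forall_notMem]
    intro a ha
    rw [mem_roots (LinearMap.charpoly_monic R).ne_zero,
      ← Module.End.hasEigenvalue_iff_isRoot_charpoly] at ha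
    obtain ⟨y, hy⟩ := ha.exists_hasEigenvector
    have h2 : R y = a • y := hy.apply_eq_smul
    have h3 : U (y : V) = a • (y : V) := congrArg Subtype.val h2
    exact hy.2 (Subtype.ext (hsmall y (w1 y.2) a h3))
  · have h2 : ∀ x ∈ B₁, aeval U R.charpoly x = 0 := by
      intro x hx
      have h3 := C5_restrict U (hmaps i1) R.charpoly ⟨x, hx⟩
      have h4 : aeval (U.restrict (hmaps i1)) R.charpoly = 0 := LinearMap.aeval_self_charpoly R
      rw [h4] at h3
      exact h3.symm
    have hsup : ∀ {B C : Submodule F V}, B ≤ Wx u → C ≤ Wx u → B ⊓ C = ⊥ → finrank F B = 3 →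
        finrank F C = 3 → B ⊔ C = Wx u := by
      intro B C hB hC hBC e1 e2
      refine Submodule.eq_of_le_of_finrank_eq (sup_le hB hC) ?_
      have h3 := Submodule.finrank_sup_add_finrank_inf_eq B C
      rw [hBC, finrank_bot] at h3
      omega
    have h3 : ∀ z ∈ B₃, aeval U R.charpoly z = 0 := by
      intro z hz
      have h4 : z ∈ B₁ ⊔ B₂ := by
        rw [hsup w1 w2 h12 d1 d2]
        exact w3 hz
      obtain ⟨z₁, hz1, z₂, hz2, rfl⟩ := Submodule.mem_sup.1 h4
      have h5 : aeval U R.charpoly (z₁ + z₂) ∈ B₃ := C5_mem U (hmaps i3) _ hz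
      have h6 : aeval U R.charpoly (z₁ + z₂) ∈ B₂ := by
        rw [map_add, h2 z₁ hz1, zero_add]
        exact C5_mem U (hmaps i2) _ hz2
      have h7 : aeval U R.charpoly (z₁ + z₂) ∈ B₂ ⊓ B₃ := ⟨h6, h5⟩
      rw [h23] at h7
      exact (Submodule.mem_bot F).1 h7
    have h4 : ∀ w ∈ Wx u, aeval U R.charpoly w = 0 := by
      intro w hw
      rw [← hsup w1 w3 h13 d1 d3] at hw
      obtain ⟨z₁, hz1, z₂, hz2, rfl⟩ := Submodule.mem_sup.1 hw
      rw [map_add, h2 z₁ hz1, h3 z₂ hz2, zero_add]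
    rw [← hU, mul_comm]
    apply LinearMap.ext
    intro v
    rw [map_mul, Module.End.mul_apply]
    apply h4
    refine ⟨v, ?_⟩
    rw [hU]
    simp

end Pool.Agent.LibQF86
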