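import Pool.Agent.LibQF86.C2
import Pool.Agent.LibQF86.C3
import Pool.Agent.LibQF86.C4
import Pool.Agent.LibQF86.C5

/-!
[QF86 C6] Assembly of part (C). `d = orderOf q ≥ 2` (`ℓ ∤ q - 1`; `q ≠ 0` in `ZMod ℓ`, so `d ≠ 0`). A block `B` which contains a line `T ≤ Fx u` is invariant (`inv_block`, `inv_of_le_fx`), `inv_split`: `3 = dim (B ⊓ Fx u) + dim (B ⊓ Wx u)`, the first is `≥ 2`,
the second divisible by `d ≥ 2` (`free_dim`), so it is `0`, `B ≤ Fx u`. `subsys` (`Fx u ≠ ⊤` because `u ≠ 1`): `f = dim Fx u ∈ {0, 1, 3}`, in the last case `Fx u ∈ D`. `d ∣ dim Wx u = 7 - f` (`free_dim`, `inv_wx`, `fx_wx`): `f = 0`: `d = 7`; `f = 1`: `d ∣ 6`; `f = 3`: `d ∣ 4`, `d ≠ 2` (`ord2`).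
`d = 3`: `three_blocks`, `cubic` (the intersection of two invariant blocks `≤ Wx u` has dimension `≤ 1` and divisible by `3`).
-/

open Module Polynomial

namespace Pool.Agent.LibQF86

variable {F V : Type} [Field F] [Fintype F] [AddCommGroup V] [Module F V] [Finite V] [FiniteDimensional F V]

private theorem C6_order {F : Type} [Field F] [Fintype F] {ℓ : ℕ} (hℓ : ℓ.Prime)
    (hq : ¬ ℓ ∣ Fintype.card F) (hq1 : ¬ ℓ ∣ Fintype.card F - 1) :
    2 ≤ orderOf (Fintype.card F : ZMod ℓ) := by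
  have : Fact ℓ.Prime := ⟨hℓ⟩
  have hne : (Fintype.card F : ZMod ℓ) ≠ 0 := by
    intro h
    exact hq ((ZMod.natCast_eq_zero_iff _ _).mp h)
  have h0 : orderOf (Fintype.card F : ZMod ℓ) ≠ 0 := by
    intro h
    have h1 := orderOf_dvd_of_pow_eq_one (ZMod.pow_card_sub_one_eq_one hne)
    rw [h] at h1
    have h2 := Nat.eq_zero_of_zero_dvd h1
    have h3 := hℓ.two_le
    omega
  have h1 : orderOf (Fintype.card F : ZMod ℓ) ≠ 1 := by
    intro h
    rw [orderOf_eq_one_iff] at h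
    apply hq1
    rw [← ZMod.natCast_eq_zero_iff, Nat.cast_sub Fintype.card_pos, h, Nat.cast_one, sub_self]
  omega

theorem partC {D : Set (Submodule F V)} (hD : IsFano D) {u : V ≃ₗ[F] V} (hu : Pres D u) (hu1 : u ≠ 1) {ℓ : ℕ}
    (hℓ : ℓ.Prime) (hq : ¬ ℓ ∣ Fintype.card F) (hq1 : ¬ ℓ ∣ Fintype.card F - 1) (h : u ^ ℓ = 1) :
    (orderOf (Fintype.card F : ZMod ℓ) = 2 ∧ finrank F (Fx u) = 1) ∨
    (orderOf (Fintype.card F : ZMod ℓ) = 3 ∧ finrank F (Fx u) = 1 ∧
      ∃ g : F[X], Irreducible g ∧ g.natDegree = 3 ∧ aeval (u : V →ₗ[F] V) ((X - 1) * g) = 0) ∨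
    (orderOf (Fintype.card F : ZMod ℓ) = 4 ∧ Fx u ∈ D) ∨
    (orderOf (Fintype.card F : ZMod ℓ) = 6 ∧ finrank F (Fx u) = 1) ∨
    (orderOf (Fintype.card F : ZMod ℓ) = 7 ∧ Fx u = ⊥) := by
  have hd2 := C6_order hℓ hq hq1
  have hcompl := fx_wx hℓ hq h
  -- dimension of invariant subspaces of the image
  have hdvd : ∀ Y : Submodule F V, Inv u Y → Y ≤ Wx u →
      orderOf (Fintype.card F : ZMod ℓ) ∣ finrank F Y := by
    intro Y hY hYW
    refine free_dim hℓ h hY ?_
    rw [eq_bot_iff]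
    intro x hx
    have h1 : x ∈ Fx u ⊓ Wx u := ⟨hx.2, hYW hx.1⟩
    rw [hcompl.inf_eq_bot] at h1
    exact h1
  have htop : Fx u ≠ ⊤ := by
    intro ht
    apply hu1
    ext v
    have hv : v ∈ Fx u := by rw [ht]; trivial
    have h1 : u v - v = 0 := hv
    exact sub_eq_zero.mp h1
  have hsub := subsys hD htop (by
    intro T hT h2 B hB hTB
    have hinv : Inv u B := inv_block hD hu (inv_of_le_fx hT) h2.ge hB hTB
    obtain ⟨_, hs⟩ := inv_split hℓ hq h hinv
    have h3 := hD.three B hB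
    have ha : 2 ≤ finrank F (B ⊓ Fx u : Submodule F V) := by
      rw [← h2]
      exact Submodule.finrank_mono (le_inf hTB hT)
    have hb := hdvd (B ⊓ Wx u) (inv_inf hinv (inv_wx u)) inf_le_right
    have hb0 : finrank F (B ⊓ Wx u : Submodule F V) = 0 := by
      by_contra hne
      have h4 := Nat.le_of_dvd (Nat.pos_of_ne_zero hne) hb
      omega
    have hBF : B ⊓ Fx u = B := Submodule.eq_of_le_of_finrank_eq inf_le_left (by omega)
    rw [← hBF]
    exact inf_le_right)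
  have hW := hdvd (Wx u) (inv_wx u) le_rfl
  have hadd : finrank F (Fx u) + finrank F (Wx u) = 7 := by
    rw [← hD.dim]
    exact Submodule.finrank_add_eq_of_isCompl hcompl
  rcases hsub with hf | hf | hf
  · -- f = 0
    have h7 : finrank F (Wx u) = 7 := by omega
    rw [h7] at hW
    have h8 : orderOf (Fintype.card F : ZMod ℓ) = 7 := by
      rcases (Nat.dvd_prime (by norm_num : Nat.Prime 7)).mp hW with h9 | h9
      · omega
      · exact h9
    exact Or.inr (Or.inr (Or.inr (Or.inr ⟨h8, Submodule.finrank_eq_zero.mp hf⟩)))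
  · -- f = 1
    have h6 : finrank F (Wx u) = 6 := by omega
    rw [h6] at hW
    have hle := Nat.le_of_dvd (by norm_num) hW
    have hcases : orderOf (Fintype.card F : ZMod ℓ) = 2 ∨ orderOf (Fintype.card F : ZMod ℓ) = 3 ∨
        orderOf (Fintype.card F : ZMod ℓ) = 6 := by
      generalize orderOf (Fintype.card F : ZMod ℓ) = d at *
      interval_cases d <;> simp_all
    rcases hcases with hd | hd | hd
    · exact Or.inl ⟨hd, hf⟩
    · refine Or.inr (Or.inl ⟨hd, hf, ?_⟩)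
      obtain ⟨B₁, b1, B₂, b2, B₃, b3, n12, n13, n23, i1, i2, i3, w1, w2, w3⟩ :=
        three_blocks hD hu hℓ hq h hd hf
      have hinf : ∀ B B' : Submodule F V, B ∈ D → B' ∈ D → B ≠ B' → Inv u B → Inv u B' → B ≤ Wx u →
          B ⊓ B' = ⊥ := by
        intro B B' hB hB' hne hi hi' hw
        have h1 := inf_le hD hB hB' hne
        have h2 := hdvd (B ⊓ B') (inv_inf hi hi') (le_trans inf_le_left hw)
        rw [hd] at h2
        apply Submodule.finrank_eq_zero.mp
        omega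
      exact cubic hℓ hq h hd hD.dim hf (hD.three _ b1) (hD.three _ b2) (hD.three _ b3) i1 i2 i3 w1 w2 w3
        (hinf _ _ b1 b2 n12 i1 i2 w1) (hinf _ _ b1 b3 n13 i1 i3 w1) (hinf _ _ b2 b3 n23 i2 i3 w2)
    · exact Or.inr (Or.inr (Or.inr (Or.inl ⟨hd, hf⟩)))
  · -- f = 3
    have h3 := hD.three _ hf
    have h4 : finrank F (Wx u) = 4 := by omega
    rw [h4] at hW
    have hle := Nat.le_of_dvd (by norm_num) hW
    have hn2 : orderOf (Fintype.card F : ZMod ℓ) ≠ 2 := fun hd => ord2 hD hu hℓ hq h hd hf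
    have h5 : orderOf (Fintype.card F : ZMod ℓ) = 4 := by
      generalize orderOf (Fintype.card F : ZMod ℓ) = d at *
      interval_cases d <;> simp_all
    exact Or.inr (Or.inr (Or.inl ⟨h5, hf⟩))

end Pool.Agent.LibQF86
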