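import Mathlib

/-!
`q`-analogues of the Fano plane: definitions for the board QF86.
`q = Fintype.card F` everywhere. Counts are `Set.ncard` of sets of subspaces (all finite).
-/

open Module Polynomial

namespace Pool.Agent.LibQF86

/-- `D` is a `q`-analogue of the Fano plane, an `S_q(2,3,7)`: `V` has dimension `7`, the blocks (elements of `D`) have
dimension `3`, and every `2`-dimensional subspace is contained in exactly one block. -/
structure IsFano {F V : Type} [Field F] [AddCommGroup V] [Module F V] (D : Set (Submodule F V)) : Prop where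
  dim : finrank F V = 7
  three : ∀ B ∈ D, finrank F B = 3
  uniq : ∀ T : Submodule F V, finrank F T = 2 → ∃! B, B ∈ D ∧ T ≤ B

section

variable {F V : Type} [Field F] [Fintype F] [AddCommGroup V] [Module F V]

/-- the number of blocks `B` with `dim (B ∩ X) = j` -/
noncomputable def nb (D : Set (Submodule F V)) (X : Submodule F V) (j : ℕ) : ℕ :=
  {B | B ∈ D ∧ finrank F (B ⊓ X : Submodule F V) = j}.ncard

/-- the number of blocks `B` through the vector `v` with `dim (B ∩ X) = j` -/
noncomputable def nbv (D : Set (Submodule F V)) (v : V) (X : Submodule F V) (j : ℕ) : ℕ :=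
  {B | B ∈ D ∧ v ∈ B ∧ finrank F (B ⊓ X : Submodule F V) = j}.ncard

/-- the fixed space of `u` -/
def Fx (u : V ≃ₗ[F] V) : Submodule F V := LinearMap.ker ((u : V →ₗ[F] V) - LinearMap.id)

/-- the image of `u - 1` -/
def Wx (u : V ≃ₗ[F] V) : Submodule F V := LinearMap.range ((u : V →ₗ[F] V) - LinearMap.id)

/-- the subspace `X` is mapped onto itself by `u` -/
def Inv (u : V ≃ₗ[F] V) (X : Submodule F V) : Prop := X.map (u : V →ₗ[F] V) = X

/-- `u` preserves the set of blocks -/
def Pres (D : Set (Submodule F V)) (u : V ≃ₗ[F] V) : Prop := ∀ B ∈ D, B.map (u : V →ₗ[F] V) ∈ D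

/-- the eigenspace of `u` for the eigenvalue `a` -/
def Eg (u : V ≃ₗ[F] V) (a : F) : Submodule F V := LinearMap.ker ((u : V →ₗ[F] V) - a • LinearMap.id)

/-- `u` is diagonalisable over `F` -/
def Diag (u : V ≃ₗ[F] V) : Prop := ⨆ a : F, Eg u a = ⊤

/-- `u` is not a scalar -/
def NonScalar (u : V ≃ₗ[F] V) : Prop := ∀ a : F, ¬ ∀ v : V, u v = a • v

/-- `u - 1` -/
def Nm (u : V ≃ₗ[F] V) : Module.End F V := (u : V →ₗ[F] V) - 1

/-- the dimension of the kernel of `(u - 1) ^ i` -/
noncomputable def kk (u : V ≃ₗ[F] V) (i : ℕ) : ℕ := finrank F (LinearMap.ker (Nm u ^ i))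

/-- `u` is unipotent (`dim V = 7`) -/
def Unip (u : V ≃ₗ[F] V) : Prop := Nm u ^ 7 = 0

/-- the number of invariant blocks `B` with `dim (B ∩ ker (u - 1)) = 2` and `(u - 1) B = ⟨c⟩` -/
noncomputable def t2 (D : Set (Submodule F V)) (u : V ≃ₗ[F] V) (c : V) : ℕ :=
  {B | B ∈ D ∧ Inv u B ∧ finrank F (B ⊓ Fx u : Submodule F V) = 2 ∧ B.map (Nm u) = Submodule.span F {c}}.ncard

/-- the number of invariant blocks `B` with `dim (B ∩ ker (u - 1)) = 1` and `c ∈ B` -/
noncomputable def t3 (D : Set (Submodule F V)) (u : V ≃ₗ[F] V) (c : V) : ℕ :=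
  {B | B ∈ D ∧ Inv u B ∧ finrank F (B ⊓ Fx u : Submodule F V) = 1 ∧ c ∈ B}.ncard

/-- the dimensions of the (nonzero) eigenspaces of `u`, as a multiset -/
noncomputable def eigDims (u : V ≃ₗ[F] V) : Multiset ℕ :=
  ((Finset.univ : Finset F).val.map fun a => finrank F (Eg u a)).filter fun n => n ≠ 0

end

end Pool.Agent.LibQF86
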