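import Pool.Agent.LibQF86.S1

/-!
[QF86 G1] Invariant subspaces. `presSymm`: `B ↦ B.map u` is an injective map of the finite set `D` into itself, so surjective. `inv_block`: `B.map u` is a
block which contains `T.map u = T`; `eqB`. `inv_iff`: dimensions. `mod_count`: `B ↦ B.map u` is a permutation `f` of the finite type `S`, `f ^ (ℓ ^ a) = 1`
(`Submodule.map_comp`, induction): `Equiv.Perm.card_fixedPoints_modEq`.
-/

open Module Polynomial

namespace Pool.Agent.LibQF86

variable {F V : Type} [Field F] [Fintype F] [AddCommGroup V] [Module F V] [Finite V] [FiniteDimensional F V]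

omit [Fintype F] [FiniteDimensional F V] in
private theorem G1_fin : Finite (Submodule F V) :=
  Finite.of_injective (fun X : Submodule F V => (X : Set V)) SetLike.coe_injective

omit [Fintype F] [FiniteDimensional F V] [Finite V] in
private theorem G1_symm (u : V ≃ₗ[F] V) (X : Submodule F V) :
    (X.map (u : V →ₗ[F] V)).map (u.symm : V →ₗ[F] V) = X := by
  rw [← Submodule.map_comp]
  have h : (u.symm : V →ₗ[F] V).comp (u : V →ₗ[F] V) = LinearMap.id := by
    ext v
    simp
  rw [h, Submodule.map_id]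

theorem pres_symm {D : Set (Submodule F V)} {u : V ≃ₗ[F] V} (hu : Pres D u) : Pres D u.symm := by
  haveI : Finite (Submodule F V) := G1_fin
  intro B hB
  let f : D → D := fun B => ⟨B.1.map (u : V →ₗ[F] V), hu B.1 B.2⟩
  have hf : Function.Injective f := by
    intro B B' h
    have h1 : B.1.map (u : V →ₗ[F] V) = B'.1.map (u : V →ₗ[F] V) := congrArg Subtype.val h
    apply Subtype.ext
    rw [← G1_symm u B.1, h1, G1_symm]
  obtain ⟨B', hB'⟩ := Finite.injective_iff_surjective.1 hf ⟨B, hB⟩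
  have h1 : B'.1.map (u : V →ₗ[F] V) = B := congrArg Subtype.val hB'
  rw [← h1, G1_symm]
  exact B'.2

theorem inv_iff {u : V ≃ₗ[F] V} {X : Submodule F V} : Inv u X ↔ ∀ v ∈ X, u v ∈ X := by
  constructor
  · intro h v hv
    rw [← h]
    exact Submodule.mem_map_of_mem hv
  · intro h
    apply Submodule.eq_of_le_of_finrank_eq
    · rintro _ ⟨v, hv, rfl⟩
      exact h v hv
    · exact LinearEquiv.finrank_map_eq u X

theorem inv_inf {u : V ≃ₗ[F] V} {X Y : Submodule F V} (hX : Inv u X) (hY : Inv u Y) : Inv u (X ⊓ Y) := by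
  rw [inv_iff] at *
  exact fun v hv => ⟨hX v hv.1, hY v hv.2⟩

theorem inv_sup {u : V ≃ₗ[F] V} {X Y : Submodule F V} (hX : Inv u X) (hY : Inv u Y) : Inv u (X ⊔ Y) := by
  unfold Inv at *
  rw [Submodule.map_sup, hX, hY]

theorem inv_block {D : Set (Submodule F V)} (hD : IsFano D) {u : V ≃ₗ[F] V} (hu : Pres D u) {T B : Submodule F V}
    (hT : Inv u T) (h2 : 2 ≤ finrank F T) (hB : B ∈ D) (h : T ≤ B) : Inv u B := by
  have h1 : T ≤ B.map (u : V →ₗ[F] V) := by
    have h3 : T.map (u : V →ₗ[F] V) ≤ B.map (u : V →ₗ[F] V) := Submodule.map_mono h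
    rwa [hT] at h3
  exact eqB hD h2 (hu B hB) hB h1 h

/-- fixed points of a permutation of prime power order -/
theorem mod_count {u : V ≃ₗ[F] V} {ℓ a : ℕ} (hℓ : ℓ.Prime) (h : u ^ ℓ ^ a = 1) (S : Set (Submodule F V))
    (hS : ∀ B ∈ S, B.map (u : V →ₗ[F] V) ∈ S) : S.ncard ≡ {B | B ∈ S ∧ Inv u B}.ncard [MOD ℓ] := by
  classical
  haveI : Finite (Submodule F V) := G1_fin
  haveI : Fact ℓ.Prime := ⟨hℓ⟩
  letI : Fintype S := Fintype.ofFinite S
  let f : Function.End S := fun B => ⟨B.1.map (u : V →ₗ[F] V), hS B.1 B.2⟩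
  have hf : ∀ (n : ℕ) (B : S), ((f ^ n) B).1 = B.1.map ((u ^ n : V ≃ₗ[F] V) : V →ₗ[F] V) := by
    intro n
    induction n with
    | zero =>
      intro B
      rw [pow_zero, pow_zero]
      exact (Submodule.map_id B.1).symm
    | succ n ih =>
      intro B
      have h1 : ((f ^ (n + 1)) B).1 = ((f ^ n) B).1.map (u : V →ₗ[F] V) := by
        rw [pow_succ']
        rfl
      rw [h1, ih, ← Submodule.map_comp, pow_succ']
      rfl
  have hf1 : f ^ ℓ ^ a = 1 := by
    funext B
    apply Subtype.ext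
    rw [hf, h]
    exact Submodule.map_id B.1
  have h1 := Equiv.Perm.card_fixedPoints_modEq hf1
  have h2 : S.ncard = Fintype.card S := by
    rw [← Nat.card_coe_set_eq, Nat.card_eq_fintype_card]
  have h3 : {B | B ∈ S ∧ Inv u B}.ncard = Fintype.card (Function.fixedPoints f) := by
    have h4 : {B | B ∈ S ∧ Inv u B} = Subtype.val '' (Function.fixedPoints f) := by
      ext B
      constructor
      · rintro ⟨hB, hi⟩
        exact ⟨⟨B, hB⟩, Subtype.ext hi, rfl⟩
      · rintro ⟨B', hB', rfl⟩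
        exact ⟨B'.2, congrArg Subtype.val hB'⟩
    rw [h4, Set.ncard_image_of_injective _ Subtype.val_injective, ← Nat.card_coe_set_eq,
      Nat.card_eq_fintype_card]
  rw [h2, h3]
  exact h1

end Pool.Agent.LibQF86
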