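import Pool.Agent.LibQF86.A8
import Pool.Agent.LibQF86.B10
import Pool.Agent.LibQF86.C6

/-!
The possible types of the automorphisms of prime order of a `q`-analogue of the Fano plane.
-/

open Module Polynomial

namespace Pool.Agent.LibQF86

section

variable {F V : Type} [Field F] [Fintype F] [AddCommGroup V] [Module F V] [Finite V] [FiniteDimensional F V]

/-- an element of `p`-power order is unipotent -/
theorem unip_of_pow (h7 : finrank F V = 7) {u : V ≃ₗ[F] V} {ℓ a : ℕ} (hℓ : ℓ.Prime) (hq : ℓ ∣ Fintype.card F)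
    (h : u ^ ℓ ^ a = 1) : Unip u := by
  have hchar : CharP F ℓ := by
    obtain ⟨p, hp⟩ := CharP.exists F
    have hpp : p.Prime := CharP.char_is_prime F p
    obtain ⟨n, hpr, hn⟩ := FiniteField.card F p
    rw [hn] at hq
    have h1 : ℓ = p := (Nat.prime_dvd_prime_iff_eq hℓ hpp).1 (hℓ.dvd_of_dvd_pow hq)
    rw [h1]
    exact hp
  haveI := Fact.mk hℓ
  haveI : CharP (Module.End F V) ℓ := by
    haveI : Nontrivial V := by
      apply Module.nontrivial_of_finrank_pos (R := F)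
      rw [h7]; norm_num
    exact charP_of_injective_algebraMap (algebraMap F (Module.End F V)).injective ℓ
  have h1 : Nm u ^ ℓ ^ a = 0 := by
    have h2 : (Nm u + 1) ^ ℓ ^ a = Nm u ^ ℓ ^ a + 1 := by
      rw [add_pow_char_pow_of_commute _ _ (Commute.one_right _), one_pow]
    have h3 : (Nm u + 1 : Module.End F V) = (u : V →ₗ[F] V) := by
      unfold Nm
      rw [sub_add_cancel]
    have h4 : ((u : V →ₗ[F] V) : Module.End F V) ^ ℓ ^ a = 1 := by
      have h5 : ∀ n : ℕ, ((u : V →ₗ[F] V) : Module.End F V) ^ n = ((u ^ n : V ≃ₗ[F] V) : V →ₗ[F] V) := by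
        intro n
        induction n with
        | zero => rfl
        | succ n ih => rw [pow_succ, ih, pow_succ]; rfl
      rw [h5, h]
      rfl
    rw [h3, h4] at h2
    exact add_eq_right.1 h2.symm
  have h2 : IsNilpotent (Nm u) := ⟨_, h1⟩
  unfold Unip
  have h3 := LinearMap.aeval_self_charpoly (Nm u)
  rw [h2.charpoly_eq_X_pow_finrank, h7, map_pow, aeval_X] at h3
  exact h3

/-- an element of order dividing `ℓ ∣ q - 1` is diagonalisable -/
theorem diag_of_pow {u : V ≃ₗ[F] V} {ℓ : ℕ} (hℓ : ℓ.Prime) (hq : ℓ ∣ Fintype.card F - 1) (h : u ^ ℓ = 1) :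
    Diag u := by
  classical
  have hF : Fintype.card Fˣ = Fintype.card F - 1 := Fintype.card_units F
  obtain ⟨g, hg⟩ := IsCyclic.exists_generator (α := Fˣ)
  have hord : orderOf g = Fintype.card F - 1 := by
    rw [orderOf_eq_card_of_forall_mem_zpowers hg, Nat.card_eq_fintype_card, hF]
  obtain ⟨m, hm⟩ := hq
  have hq1 : 0 < Fintype.card F - 1 := by
    have := two_le_q (F := F)
    omega
  have hm0 : m ≠ 0 := by
    rintro rfl
    rw [mul_zero] at hm
    omega
  have hz : IsPrimitiveRoot ((g ^ m : Fˣ) : F) ℓ := by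
    have h1 : IsPrimitiveRoot g (Fintype.card F - 1) := by
      rw [← hord]
      exact IsPrimitiveRoot.orderOf g
    have h2 : IsPrimitiveRoot (g ^ m) ℓ := h1.pow hq1 (by rw [hm, mul_comm])
    exact h2.map_of_injective (f := Units.coeHom F) Units.val_injective
  set z : F := ((g ^ m : Fˣ) : F) with hzdef
  have hz0 : z ≠ 0 := hz.ne_zero hℓ.ne_zero
  have hl0 : (ℓ : F) ≠ 0 := by
    intro h0
    obtain ⟨p, hp⟩ := CharP.exists F
    have h1 : p ∣ ℓ := (CharP.cast_eq_zero_iff F p ℓ).1 h0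
    have hpp : p.Prime := CharP.char_is_prime F p
    have h2 : p = ℓ := (Nat.prime_dvd_prime_iff_eq hpp hℓ).1 h1
    subst h2
    obtain ⟨n, hpr, hn⟩ := FiniteField.card F p
    have h3 : p ∣ Fintype.card F := by
      rw [hn]
      exact dvd_pow_self p n.ne_zero
    have h4 : p ∣ Fintype.card F - 1 := ⟨m, hm⟩
    have h5 : p ∣ 1 := by
      have h6 := Nat.dvd_sub h3 h4
      have h7 : Fintype.card F - (Fintype.card F - 1) = 1 := by omega
      rwa [h7] at h6
    exact hpp.one_lt.ne' (Nat.dvd_one.1 h5)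
  unfold Diag
  rw [eq_top_iff]
  intro v _
  have key : v = (ℓ : F)⁻¹ • ∑ j ∈ Finset.range ℓ, ∑ i ∈ Finset.range ℓ, (z⁻¹ ^ (j * i)) • (u ^ i) v := by
    rw [Finset.sum_comm]
    have h1 : ∀ i ∈ Finset.range ℓ, i ≠ 0 →
        ∑ j ∈ Finset.range ℓ, (z⁻¹ ^ (j * i)) • (u ^ i) v = 0 := by
      intro i hi hi0
      rw [← Finset.sum_smul]
      have h2 : ∑ j ∈ Finset.range ℓ, z⁻¹ ^ (j * i) = 0 := by
        have h3 : IsPrimitiveRoot (z⁻¹ ^ i) ℓ := by
          refine hz.inv.pow_of_coprime i ?_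
          rw [Nat.coprime_comm, hℓ.coprime_iff_not_dvd]
          intro h4
          exact hi0 (Nat.eq_zero_of_dvd_of_lt h4 (Finset.mem_range.1 hi))
        have h4 := h3.geom_sum_eq_zero hℓ.one_lt
        rw [← h4]
        refine Finset.sum_congr rfl fun j _ => ?_
        rw [← pow_mul, mul_comm]
      rw [h2, zero_smul]
    rw [Finset.sum_eq_single_of_mem 0 (Finset.mem_range.2 hℓ.pos) h1]
    have h5 : ∑ j ∈ Finset.range ℓ, (z⁻¹ ^ (j * 0)) • (u ^ 0) v = (ℓ : F) • v := by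
      simp only [mul_zero, pow_zero, one_smul, Finset.sum_const, Finset.card_range]
      rw [Nat.cast_smul_eq_nsmul]
      rfl
    rw [h5, smul_smul, inv_mul_cancel₀ hl0, one_smul]
  rw [key]
  refine Submodule.smul_mem _ _ (Submodule.sum_mem _ fun j _ => ?_)
  refine Submodule.mem_iSup_of_mem (z ^ j) ?_
  rw [mem_eg, map_sum]
  have h6 : ∀ i, u ((z⁻¹ ^ (j * i)) • (u ^ i) v) = z ^ j • ((z⁻¹ ^ (j * (i + 1))) • (u ^ (i + 1)) v) := by
    intro i
    rw [map_smul, smul_smul]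
    have h7 : u ((u ^ i) v) = (u ^ (i + 1)) v := by
      rw [pow_succ']
      rfl
    rw [h7]
    congr 1
    rw [mul_add, mul_one, pow_add, mul_comm (z ^ j), mul_assoc, ← mul_pow, inv_mul_cancel₀ hz0, one_pow,
      mul_one]
  rw [Finset.sum_congr rfl fun i _ => h6 i, ← Finset.smul_sum]
  congr 1
  have h8 := Finset.sum_range_succ' (fun i => (z⁻¹ ^ (j * i)) • (u ^ i) v) ℓ
  have h9 := Finset.sum_range_succ (fun i => (z⁻¹ ^ (j * i)) • (u ^ i) v) ℓ
  have h10 : (z⁻¹ ^ (j * ℓ)) • (u ^ ℓ) v = (z⁻¹ ^ (j * 0)) • (u ^ 0) v := by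
    rw [h, mul_comm j ℓ, pow_mul, inv_pow, hz.pow_eq_one, inv_one, one_pow, mul_zero, pow_zero, pow_zero]
  rw [h9, h10] at h8
  exact add_right_cancel h8.symm

theorem card_eigDims_le {u : V ≃ₗ[F] V} {ℓ : ℕ} (hℓ : 0 < ℓ) (h : u ^ ℓ = 1) :
    Multiset.card (eigDims u) ≤ ℓ := by
  classical
  have h1 : Multiset.card (eigDims u) = (Finset.univ.filter fun a : F => finrank F (Eg u a) ≠ 0).card := by
    unfold eigDims
    rw [Multiset.filter_map, Multiset.card_map]
    rfl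
  rw [h1]
  refine le_trans (Finset.card_le_card (t := nthRootsFinset ℓ (1 : F)) ?_)
    ((Multiset.toFinset_card_le _).trans (card_nthRoots ℓ 1))
  intro a ha
  rw [Finset.mem_filter] at ha
  rw [mem_nthRootsFinset hℓ]
  have hne : Eg u a ≠ ⊥ := by
    intro h0
    exact ha.2 (by rw [h0, finrank_bot])
  obtain ⟨v, hv, hv0⟩ := Submodule.exists_mem_ne_zero_of_ne_bot hne
  rw [mem_eg] at hv
  have h2 : ∀ n : ℕ, (u ^ n) v = a ^ n • v := by
    intro n
    induction n with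
    | zero => rw [pow_zero, pow_zero, one_smul]; rfl
    | succ n ih =>
      have h3 : (u ^ (n + 1)) v = u ((u ^ n) v) := by
        rw [pow_succ']
        rfl
      rw [h3, ih, map_smul, hv, smul_smul, ← pow_succ]
  have h3 := h2 ℓ
  rw [h] at h3
  have h4 : (1 - a ^ ℓ) • v = 0 := by
    rw [sub_smul, one_smul, ← h3]
    exact sub_self v
  rcases smul_eq_zero.1 h4 with h5 | h5
  · exact (sub_eq_zero.1 h5).symm
  · exact absurd h5 hv0

end

theorem main {F V : Type} [Field F] [Fintype F] [AddCommGroup V] [Module F V] {D : Set (Submodule F V)}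
    (hD : IsFano D) {u : V ≃ₗ[F] V} (hp : Pres D u) (hn : NonScalar u) {ℓ : ℕ} (hℓ : ℓ.Prime)
    (h : u ^ ℓ = 1 ∨ (ℓ ∣ Fintype.card F ∧ ∃ a, u ^ ℓ ^ a = 1)) :
    (ℓ ∣ Fintype.card F ∧
      ((kk u 1 = 4 ∧ kk u 2 = 7) ∨
       (ℓ ≠ 3 ∧ kk u 1 = 2 ∧ kk u 2 = 4 ∧ kk u 3 = 6 ∧ kk u 4 = 7) ∨
       (ℓ ≠ 3 ∧ ℓ ≠ 5 ∧ kk u 1 = 1))) ∨
    (ℓ ∣ Fintype.card F - 1 ∧
      ((eigDims u = {4, 3} ∧ ∃! B, B ∈ D ∧ ∃ c, B ≤ Eg u c) ∨
       (5 ≤ ℓ ∧ eigDims u = {2, 2, 2, 1}) ∨
       (7 ≤ ℓ ∧ eigDims u = {1, 1, 1, 1, 1, 1, 1}))) ∨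
    (orderOf (Fintype.card F : ZMod ℓ) = 2 ∧ finrank F (Fx u) = 1) ∨
    (orderOf (Fintype.card F : ZMod ℓ) = 3 ∧ finrank F (Fx u) = 1 ∧
      ∃ g : F[X], Irreducible g ∧ g.natDegree = 3 ∧ aeval (u : V →ₗ[F] V) ((X - 1) * g) = 0) ∨
    (orderOf (Fintype.card F : ZMod ℓ) = 4 ∧ Fx u ∈ D) ∨
    (orderOf (Fintype.card F : ZMod ℓ) = 6 ∧ finrank F (Fx u) = 1) ∨
    (orderOf (Fintype.card F : ZMod ℓ) = 7 ∧ Fx u = ⊥) := by
  have hfd : FiniteDimensional F V := Module.finite_of_finrank_pos (by rw [hD.dim]; norm_num)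
  have hfin : Finite V := Module.finite_of_finite F
  have h1 : u ≠ 1 := by
    rintro rfl
    exact hn 1 fun v => by rw [one_smul]; rfl
  by_cases hq : ℓ ∣ Fintype.card F
  · left
    refine ⟨hq, ?_⟩
    have hu : Unip u := by
      rcases h with h | ⟨-, a, h⟩
      · exact unip_of_pow hD.dim (a := 1) hℓ hq (by rw [pow_one]; exact h)
      · exact unip_of_pow hD.dim hℓ hq h
    have hchar : ringChar F = ℓ := by
      obtain ⟨p, hp⟩ := CharP.exists F
      have hpp : p.Prime := CharP.char_is_prime F p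
      obtain ⟨n, hpr, hn⟩ := FiniteField.card F p
      rw [hn] at hq
      have h1 : ℓ = p := (Nat.prime_dvd_prime_iff_eq hℓ hpp).1 (hℓ.dvd_of_dvd_pow hq)
      rw [h1]
      exact ringChar.eq F p
    have h2 := partA hD hp h1 hu
    rw [hchar] at h2
    exact h2
  · right
    have hu : u ^ ℓ = 1 := by
      rcases h with h | ⟨h0, -⟩
      · exact h
      · exact absurd h0 hq
    by_cases hq1 : ℓ ∣ Fintype.card F - 1
    · left
      refine ⟨hq1, ?_⟩
      have hc := card_eigDims_le hℓ.pos hu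
      rcases partB hD hp hn (diag_of_pow hℓ hq1 hu) with h2 | ⟨h2, -⟩ | ⟨h2, -⟩
      · exact Or.inl h2
      · right; left
        refine ⟨?_, h2⟩
        rw [h2] at hc
        have h3 : 4 ≤ ℓ := hc
        rcases Nat.lt_or_ge ℓ 5 with h4 | h4
        · exfalso
          have h5 : ℓ = 4 := by omega
          rw [h5] at hℓ
          exact absurd hℓ (by norm_num)
        · exact h4
      · right; right
        refine ⟨?_, h2⟩
        rw [h2] at hc
        exact hc
    · right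
      exact partC hD hp h1 hℓ hq hq1 hu

end Pool.Agent.LibQF86
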