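import Pool.Agent.LibQF86.Defs

/-!
[QF86 S1] Basic facts. `card_pow`: `Module.card_eq_pow_finrank` (`Nat.card`). `eqB`: a subspace of dimension `≥ 2` contains one of
dimension exactly `2` (for instance the span of two independent vectors, or `Submodule.exists_le_finrank_eq` style lemma), then `uniq`.
`pairB`: `T = span {v, w}` has dimension `2` (`linearIndependent_pair..`, `finrank_span_pair..`). `inf_le`: otherwise `eqB` with `T = B ⊓ B'`.
`dim_inf`: Grassmann formula `Submodule.finrank_sup_add_finrank_inf_eq`, `finrank (X ⊔ Y) ≤ 7`.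
-/

open Module Polynomial

namespace Pool.Agent.LibQF86

variable {F V : Type} [Field F] [Fintype F] [AddCommGroup V] [Module F V] [Finite V] [FiniteDimensional F V]

theorem card_pow (X : Submodule F V) : Nat.card X = Fintype.card F ^ finrank F X := by
  rw [Module.natCard_eq_pow_finrank (K := F) (V := X), Nat.card_eq_fintype_card]

theorem two_le_q : 2 ≤ Fintype.card F := Fintype.one_lt_card

private theorem S1_pair {v w : V} (hv : v ≠ 0) (hw : w ∉ Submodule.span F {v}) :
    finrank F (Submodule.span F {v, w}) = 2 := by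
  have hli : LinearIndependent F ![v, w] := by
    rw [LinearIndependent.pair_iff' hv]
    intro a ha
    exact hw (Submodule.mem_span_singleton.mpr ⟨a, ha⟩)
  have h1 := finrank_span_eq_card hli
  have h2 : Set.range ![v, w] = {v, w} := Matrix.range_cons_cons_empty v w _
  rw [h2] at h1
  simpa using h1

private theorem S1_exists {T : Submodule F V} (hT : 2 ≤ finrank F T) :
    ∃ v w : V, v ∈ T ∧ w ∈ T ∧ v ≠ 0 ∧ w ∉ Submodule.span F {v} := by
  have hne : T ≠ ⊥ := by
    rintro rfl
    rw [finrank_bot] at hT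
    omega
  obtain ⟨v, hvT, hv⟩ := Submodule.exists_mem_ne_zero_of_ne_bot hne
  by_contra hcon
  push Not at hcon
  have hle : T ≤ Submodule.span F {v} := fun w hw => hcon v w hvT hw hv
  have h1 := Submodule.finrank_mono hle
  rw [finrank_span_singleton hv] at h1
  omega

theorem pairB {D : Set (Submodule F V)} (hD : IsFano D) {v w : V} (hv : v ≠ 0) (hw : w ∉ Submodule.span F {v}) :
    ∃! B, B ∈ D ∧ v ∈ B ∧ w ∈ B := by
  obtain ⟨B, ⟨hB, hTB⟩, huni⟩ := hD.uniq _ (S1_pair hv hw)
  refine ⟨B, ⟨hB, hTB (Submodule.subset_span (by simp)), hTB (Submodule.subset_span (by simp))⟩, ?_⟩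
  rintro B' ⟨hB', hv', hw'⟩
  refine huni B' ⟨hB', ?_⟩
  rw [Submodule.span_le]
  intro x hx
  rcases hx with rfl | hx
  · exact hv'
  · rw [Set.mem_singleton_iff.mp hx]
    exact hw'

theorem eqB {D : Set (Submodule F V)} (hD : IsFano D) {T B B' : Submodule F V} (hT : 2 ≤ finrank F T) (hB : B ∈ D)
    (hB' : B' ∈ D) (h : T ≤ B) (h' : T ≤ B') : B = B' := by
  obtain ⟨v, w, hvT, hwT, hv, hw⟩ := S1_exists hT
  exact (pairB hD hv hw).unique ⟨hB, h hvT, h hwT⟩ ⟨hB', h' hvT, h' hwT⟩

theorem inf_le {D : Set (Submodule F V)} (hD : IsFano D) {B B' : Submodule F V} (hB : B ∈ D) (hB' : B' ∈ D)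
    (h : B ≠ B') : finrank F (B ⊓ B' : Submodule F V) ≤ 1 := by
  by_contra hcon
  push Not at hcon
  exact h (eqB hD hcon hB hB' inf_le_left inf_le_right)

theorem dim_inf {D : Set (Submodule F V)} (hD : IsFano D) {B X : Submodule F V} (hB : B ∈ D) :
    finrank F X ≤ finrank F (B ⊓ X : Submodule F V) + 4 ∧ finrank F (B ⊓ X : Submodule F V) ≤ 3 ∧
      (finrank F (B ⊓ X : Submodule F V) = 3 ↔ B ≤ X) := by
  have h3 := hD.three B hB
  have h1 := Submodule.finrank_sup_add_finrank_inf_eq B X
  have h2 : finrank F (B ⊔ X : Submodule F V) ≤ finrank F V := Submodule.finrank_le _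
  rw [hD.dim] at h2
  refine ⟨by omega, ?_, ?_⟩
  · calc finrank F (B ⊓ X : Submodule F V) ≤ finrank F B := Submodule.finrank_mono _root_.inf_le_left
      _ = 3 := h3
  · constructor
    · intro h
      have h4 : B ⊓ X = B := Submodule.eq_of_le_of_finrank_eq _root_.inf_le_left (by rw [h, h3])
      exact inf_eq_left.mp h4
    · intro h
      rw [inf_eq_left.mpr h]
      exact h3

end Pool.Agent.LibQF86
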